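import Mathlib.GroupTheory.Perm.Basic
import Mathlib.Order.Fin.Basic
import Mathlib.Algebra.BigOperators.Group.List.Basic

/-!
# Simple allowable sequences
-/

set_option autoImplicit false

namespace Pool.Agent.L0h27.PP

/-- The switch of the positions `i` and `i + 1`. -/
def adjSwap {m : ℕ} (i : Fin m) : Equiv.Perm (Fin (m + 1)) := Equiv.swap i.castSucc i.succ

/-- The list `w` of positions is (a half-period of) a simple allowable sequence of `m + 1` elements: the switches of
the elements at the positions `i` and `i + 1`, for `i` in the list, transform the identity permutation into the
reversed one, and their number is the number of pairs (so each pair of elements is switched exactly once). -/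
def IsAllowable {m : ℕ} (w : List (Fin m)) : Prop :=
  (w.map adjSwap).prod = Fin.revPerm ∧ w.length = (m + 1) * m / 2

end Pool.Agent.L0h27.PP
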