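import Pool.Agent.L0h27.PP.Fam
import Mathlib.Analysis.SpecialFunctions.Pow.Real
import Mathlib.Data.Nat.Log

/-!
# The asymptotic lower bound
-/

set_option autoImplicit false

open Finset

namespace Pool.Agent.L0h27.PP

theorem pow_bound (x : ℝ) (j : ℕ) (h0 : 0 ≤ x) (hx : x ≤ 10000 ^ j) :
    x ^ ((1 : ℝ) / 50) ≤ (1203 / 1000 : ℝ) ^ j := by
  have h1 : (10000 : ℝ) ≤ (1203 / 1000 : ℝ) ^ 50 := by norm_num
  have h2 : x ≤ ((1203 / 1000 : ℝ) ^ j) ^ 50 := by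
    calc x ≤ 10000 ^ j := hx
      _ ≤ ((1203 / 1000 : ℝ) ^ 50) ^ j := pow_le_pow_left₀ (by norm_num) h1 j
      _ = ((1203 / 1000 : ℝ) ^ j) ^ 50 := by rw [← pow_mul, ← pow_mul, mul_comm]
  calc x ^ ((1 : ℝ) / 50) ≤ (((1203 / 1000 : ℝ) ^ j) ^ 50) ^ ((1 : ℝ) / 50) :=
        Real.rpow_le_rpow h0 h2 (by norm_num)
    _ = (1203 / 1000 : ℝ) ^ j := by
        rw [show ((1 : ℝ) / 50) = ((50 : ℕ) : ℝ)⁻¹ by norm_num]
        exact Real.pow_rpow_inv_natCast (by positivity) (by norm_num)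

theorem growth (j : ℕ) (hj : 100 ≤ j) :
    4 * 10000 * 10000 ^ j * (1203 / 1000 : ℝ) ^ (j + 2) ≤ 981 * (12259 ^ j * 13) := by
  induction j, hj using Nat.le_induction with
  | base => norm_num
  | succ j _ ih =>
    have h1 : (4 * 10000 * 10000 ^ (j + 1) * (1203 / 1000 : ℝ) ^ (j + 1 + 2)) =
        12030 * (4 * 10000 * 10000 ^ j * (1203 / 1000 : ℝ) ^ (j + 2)) := by ring
    have h2 : (981 * (12259 ^ (j + 1) * 13) : ℝ) = 12259 * (981 * (12259 ^ j * 13)) := by ring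
    rw [h1, h2]
    have h3 : (0 : ℝ) ≤ 4 * 10000 * 10000 ^ j * (1203 / 1000 : ℝ) ^ (j + 2) := by positivity
    nlinarith

theorem core {n k : ℕ} (hk : 10000 ^ 101 ≤ k) (hn : 2 * k ≤ n) :
    ∃ E : ℕ, PGood n k E ∧ (n : ℝ) * ((k : ℝ) + 1) ^ ((1 : ℝ) / 50) ≤ E := by
  have hk0 : k ≠ 0 := by
    intro h
    rw [h] at hk
    exact absurd hk (by norm_num)
  have h1 : 10000 ^ Nat.log 10000 k ≤ k := Nat.pow_log_le_self 10000 hk0
  have h2 : k < 10000 ^ (Nat.log 10000 k + 1) := Nat.lt_pow_succ_log_self (by norm_num) k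
  have h3 : 101 ≤ Nat.log 10000 k := Nat.le_log_of_pow_le (by norm_num) hk
  obtain ⟨j, hl⟩ : ∃ j, Nat.log 10000 k = j + 1 := ⟨Nat.log 10000 k - 1, by omega⟩
  rw [hl] at h1 h2 h3
  have hj : 100 ≤ j := by omega
  set B := 10000 ^ (j + 1) with hB
  have hB0 : 0 < B := by positivity
  set M := (n - k) / B with hM
  have h4 : M * B ≤ n - k := Nat.div_mul_le_self _ _
  have h5 : n - k < (M + 1) * B := by
    rw [hM]
    have := Nat.lt_div_mul_add (a := n - k) hB0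
    rw [add_mul, one_mul]
    exact this
  have h6 : 1 ≤ M := by
    rw [hM, Nat.one_le_div_iff hB0]
    omega
  have hg := (tower10 j M).pad (k - B) (n - k - M * B)
  have e1 : (M + 1) * 10000 ^ (j + 1) + (k - B) + (n - k - M * B) = n := by
    rw [← hB, add_mul, one_mul]
    omega
  have e2 : 10000 ^ (j + 1) + (k - B) = k := by
    rw [← hB]
    omega
  rw [e1, e2] at hg
  refine ⟨_, hg, ?_⟩
  have h7 : n ≤ 4 * (M * B) := by
    have : (M + 1) * B ≤ 2 * (M * B) := by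
      rw [add_mul, one_mul]
      have : B ≤ M * B := Nat.le_mul_of_pos_left _ h6
      omega
    omega
  have h8 : ((k : ℝ) + 1) ^ ((1 : ℝ) / 50) ≤ (1203 / 1000 : ℝ) ^ (j + 2) := by
    apply pow_bound _ _ (by positivity)
    exact_mod_cast h2
  have h9 : (n : ℝ) ≤ 4 * (M * B) := by exact_mod_cast h7
  calc (n : ℝ) * ((k : ℝ) + 1) ^ ((1 : ℝ) / 50)
      ≤ (4 * (M * B)) * (1203 / 1000 : ℝ) ^ (j + 2) := mul_le_mul h9 h8 (by positivity) (by positivity)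
    _ = (4 * 10000 * 10000 ^ j * (1203 / 1000 : ℝ) ^ (j + 2)) * M := by
        rw [hB]
        push_cast
        ring
    _ ≤ (981 * (12259 ^ j * 13)) * M := mul_le_mul_of_nonneg_right (growth j hj) (Nat.cast_nonneg _)
    _ = ((981 * (12259 ^ j * 13) * M : ℕ) : ℝ) := by push_cast; ring

theorem main : ∃ k₀ : ℕ, ∀ n k : ℕ, k₀ ≤ k → k + k₀ ≤ n →
    ∃ f : Fin n → ℝ → ℝ, Pseudolines f ∧ ∃ Z : Finset ℝ, (∀ x ∈ Z, IsVertex f k x) ∧
      (n : ℝ) * ((min k (n - k) : ℕ) : ℝ) ^ ((1 : ℝ) / 50) ≤ Z.card := by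
  refine ⟨10000 ^ 101 + 1, fun n k hk hn => ?_⟩
  rcases le_or_gt (2 * k) n with h | h
  · obtain ⟨E, hE, hb⟩ := core (n := n) (k := k) (by omega) h
    obtain ⟨F, hF, Z, hZ, hV⟩ := hE.arr
    refine ⟨F, hF, Z, fun x hx => (hV x hx).isVertex, ?_⟩
    have h1 : ((min k (n - k) : ℕ) : ℝ) ≤ (k : ℝ) + 1 := by
      have : min k (n - k) ≤ k + 1 := (min_le_left _ _).trans (Nat.le_succ _)
      exact_mod_cast this
    calc (n : ℝ) * ((min k (n - k) : ℕ) : ℝ) ^ ((1 : ℝ) / 50)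
        ≤ (n : ℝ) * ((k : ℝ) + 1) ^ ((1 : ℝ) / 50) :=
          mul_le_mul_of_nonneg_left (Real.rpow_le_rpow (Nat.cast_nonneg _) h1 (by norm_num)) (Nat.cast_nonneg _)
      _ ≤ E := hb
      _ ≤ Z.card := by exact_mod_cast hZ
  · set k' := n - 1 - k with hk'
    obtain ⟨E, hE, hb⟩ := core (n := n) (k := k') (by omega) (by omega)
    obtain ⟨F, hF, Z, hZ, hV⟩ := hE.arr
    refine ⟨fun i x => -F i x, hF.neg, Z, fun x hx => ?_, ?_⟩
    · have := (hV x hx).neg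
      rw [Fintype.card_fin] at this
      rwa [show n - 1 - k' = k by omega] at this
    · have h1 : ((min k (n - k) : ℕ) : ℝ) ≤ (k' : ℝ) + 1 := by
        have : min k (n - k) ≤ k' + 1 := (min_le_right _ _).trans (by omega)
        exact_mod_cast this
      calc (n : ℝ) * ((min k (n - k) : ℕ) : ℝ) ^ ((1 : ℝ) / 50)
          ≤ (n : ℝ) * ((k' : ℝ) + 1) ^ ((1 : ℝ) / 50) :=
            mul_le_mul_of_nonneg_left (Real.rpow_le_rpow (Nat.cast_nonneg _) h1 (by norm_num)) (Nat.cast_nonneg _)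
        _ ≤ E := hb
        _ ≤ Z.card := by exact_mod_cast hZ

end Pool.Agent.L0h27.PP
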