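import Pool.Agent.L0h27.PP.Word

/-!
# Thick sequences: many switches at many positions
-/

set_option autoImplicit false
set_option linter.unusedSectionVars false

open Finset

namespace Pool.Agent.L0h27.PP

open Pool.Agent.L0h27.PL

theorem adjSwap_cross {m : ℕ} {p q : Fin m} {z : Fin (m + 1)} (h1 : (z : ℕ) ≤ p) (h2 : (p : ℕ) < adjSwap q z) :
    q = p ∧ z = p.castSucc := by
  unfold adjSwap at h2
  by_cases c1 : z = q.castSucc
  · subst c1
    rw [Equiv.swap_apply_left] at h2
    simp only [Fin.val_succ, Fin.val_castSucc] at h1 h2
    have : q = p := Fin.ext (by omega)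
    exact ⟨this, by rw [this]⟩
  · by_cases c2 : z = q.succ
    · subst c2
      rw [Equiv.swap_apply_right] at h2
      simp only [Fin.val_succ, Fin.val_castSucc] at h1 h2
      omega
    · rw [Equiv.swap_apply_of_ne_of_ne c1 c2] at h2
      omega

/-- a word has at least as many switches of the positions `p` and `p + 1` as elements crossing upwards -/
theorem count_cross {m : ℕ} (w : List (Fin m)) (p : Fin m) :
    (univ.filter fun z : Fin (m + 1) => (z : ℕ) ≤ p ∧ (p : ℕ) < (w.map adjSwap).prod z).card ≤ w.count p := by
  induction w with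
  | nil =>
    rw [List.count_nil, Nat.le_zero, card_eq_zero, filter_eq_empty_iff]
    rintro z - ⟨h1, h2⟩
    simp only [List.map_nil, List.prod_nil, Equiv.Perm.one_apply] at h2
    omega
  | cons q w ih =>
    set π := (w.map adjSwap).prod with hπ
    have hmul : ∀ z, ((q :: w).map adjSwap).prod z = adjSwap q (π z) := by
      intro z
      rw [List.map_cons, List.prod_cons, Equiv.Perm.mul_apply]
    by_cases hq : q = p
    · subst hq
      rw [List.count_cons_self]
      refine le_trans (card_le_card (t := insert (π.symm q.castSucc)
        (univ.filter fun z : Fin (m + 1) => (z : ℕ) ≤ q ∧ (q : ℕ) < π z)) ?_) ((card_insert_le _ _).trans (by omega))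
      intro z hz
      simp only [mem_filter, mem_univ, true_and, mem_insert] at hz ⊢
      obtain ⟨h1, h2⟩ := hz
      rw [hmul] at h2
      by_cases h3 : (q : ℕ) < π z
      · exact Or.inr ⟨h1, h3⟩
      · left
        have := (adjSwap_cross (by omega) h2).2
        rw [← this, Equiv.symm_apply_apply]
    · rw [List.count_cons_of_ne hq]
      refine le_trans (card_le_card ?_) ih
      intro z hz
      simp only [mem_filter, mem_univ, true_and] at hz ⊢
      obtain ⟨h1, h2⟩ := hz
      rw [hmul] at h2
      refine ⟨h1, ?_⟩
      by_contra h3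
      exact hq (adjSwap_cross (by omega) h2).1

section

variable {V : Type} [Fintype V] [DecidableEq V] {m : ℕ}

/-- the number of elements which cross the position `p` upwards -/
def crs (p : ℕ) (g h : V → ℕ) : ℕ := (univ.filter fun x => norm g x ≤ p ∧ p < norm h x).card

theorem pst_inj (hn : Fintype.card V = m + 1) {g : V → ℕ} (hg : Function.Injective g) :
    Function.Injective (pst hn g) := by
  intro x y hxy
  exact norm_inj hg (congrArg Fin.val hxy)

theorem wd_cross {hn : Fintype.card V = m + 1} {g h : V → ℕ} (hg : Function.Injective g) {w : List (Fin m)}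
    (hw : Wd hn g h w) (p : Fin m) : crs p g h ≤ w.count p := by
  refine le_trans ?_ (count_cross w p)
  unfold crs
  refine card_le_card_of_injOn (pst hn g) ?_ ((pst_inj hn hg).injOn)
  intro x hx
  simp only [coe_filter, mem_univ, true_and, Set.mem_ofPred_eq] at hx ⊢
  rw [hw x]
  exact hx

/-- a word which leads from a state to the reversed state and has the right length is allowable -/
theorem allow_of_wd (hn : Fintype.card V = m + 1) {g h : V → ℕ} (hg : Function.Injective g) {w : List (Fin m)}
    (hw1 : Wd hn g h w) (hw2 : w.length = inv g h) (hend : ∀ i j, g i < g j → h j < h i) : IsAllowable w := by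
  refine ⟨?_, ?_⟩
  · -- the permutation
    have hrev : ∀ x, pst hn h x = Fin.rev (pst hn g x) := by
      intro x
      apply Fin.ext
      rw [Fin.val_rev]
      change norm h x = m + 1 - (norm g x + 1)
      have h1 : (univ.filter fun y => h y < h x) = (insert x (univ.filter fun y => g y < g x))ᶜ := by
        ext y
        simp only [mem_filter, mem_univ, true_and, mem_compl, mem_insert, not_or, not_lt]
        constructor
        · intro hy
          refine ⟨fun h => by rw [h] at hy; exact lt_irrefl _ hy, ?_⟩
          by_contra hcon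
          push Not at hcon
          have := hend y x hcon
          omega
        · rintro ⟨h1, h2⟩
          apply hend x y
          rcases lt_or_eq_of_le h2 with c | c
          · exact c
          · exact absurd (hg c).symm h1
      unfold norm
      rw [h1, card_compl, card_insert_of_notMem (by simp), hn]
    apply Equiv.ext
    intro y
    obtain ⟨x, rfl⟩ := pst_surj hn hg y
    rw [hw1 x, hrev x]
    rfl
  · rw [hw2]
    unfold inv
    have h1 : (univ.filter fun q : V × V => g q.1 < g q.2 ∧ h q.2 < h q.1) =
        univ.filter fun q : V × V => g q.1 < g q.2 := by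
      ext q
      simp only [mem_filter, mem_univ, true_and]
      exact ⟨fun h => h.1, fun h => ⟨h, hend _ _ h⟩⟩
    rw [h1]
    have h2 : (univ.filter fun q : V × V => g q.1 < g q.2).card =
        (univ.filter fun q : V × V => g q.2 < g q.1).card := by
      refine Finset.card_bij (fun q _ => (q.2, q.1)) ?_ ?_ ?_
      · intro q hq
        simpa using hq
      · intro q _ q' _ h
        simp only [Prod.mk.injEq] at h
        exact Prod.ext h.2 h.1
      · intro q hq
        refine ⟨(q.2, q.1), by simpa using hq, rfl⟩
    have h3 : (univ.filter fun q : V × V => g q.1 < g q.2).card +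
        (univ.filter fun q : V × V => g q.2 < g q.1).card + (m + 1) = (m + 1) * (m + 1) := by
      have h4 : (univ.filter fun q : V × V => q.1 = q.2).card = m + 1 := by
        rw [← hn, ← card_univ]
        symm
        refine Finset.card_bij (fun x _ => (x, x)) ?_ ?_ ?_
        · intro x _
          simp
        · intro x _ y _ h
          exact (Prod.mk.inj h).1
        · intro q hq
          refine ⟨q.1, mem_univ _, ?_⟩
          have : q.1 = q.2 := by simpa using hq
          exact Prod.ext rfl this
      have h5 : (univ : Finset (V × V)) = (univ.filter fun q : V × V => g q.1 < g q.2) ∪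
          (univ.filter fun q : V × V => g q.2 < g q.1) ∪ (univ.filter fun q : V × V => q.1 = q.2) := by
        ext q
        simp only [mem_filter, mem_univ, true_and, mem_union, true_iff]
        rcases lt_trichotomy (g q.1) (g q.2) with c | c | c
        · exact Or.inl (Or.inl c)
        · exact Or.inr (hg c)
        · exact Or.inl (Or.inr c)
      have h6 : (univ : Finset (V × V)).card = (m + 1) * (m + 1) := by
        rw [card_univ, Fintype.card_prod, hn]
      have h8 := congrArg Finset.card h5
      rw [h6] at h8
      rw [h8, card_union_of_disjoint, card_union_of_disjoint, h4]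
      · rw [Finset.disjoint_filter]
        intro q _ h1 h2
        omega
      · rw [Finset.disjoint_union_left]
        constructor
        · rw [Finset.disjoint_filter]
          intro q _ h1 h2
          rw [h2] at h1
          exact lt_irrefl _ h1
        · rw [Finset.disjoint_filter]
          intro q _ h1 h2
          rw [h2] at h1
          exact lt_irrefl _ h1
    have h7 : (m + 1) * m = 2 * (univ.filter fun q : V × V => g q.1 < g q.2).card := by
      have : (m + 1) * (m + 1) = (m + 1) * m + (m + 1) := by ring
      omega
    rw [h7]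
    omega

/-- the word of a sequence of states, with the crossings of every position -/
theorem word3 (hn : Fintype.card V = m + 1) {M : ℕ} {S : ℕ → V → ℕ}
    (hinj : ∀ t, Function.Injective (S t))
    (hst : ∀ t < M, ∀ i j, S 0 i < S 0 j → S t j < S t i → S (t + 1) j < S (t + 1) i)
    (hend : ∀ i j, S 0 i < S 0 j → S M j < S M i) :
    ∃ w : List (Fin m), IsAllowable w ∧ ∀ p : Fin m, ∑ t ∈ range M, crs p (S t) (S (t + 1)) ≤ w.count p := by
  have hstep : ∀ N ≤ M, ∃ w : List (Fin m), Wd hn (S 0) (S N) w ∧ w.length = inv (S 0) (S N) ∧
      ∀ p : Fin m, ∑ t ∈ range N, crs p (S t) (S (t + 1)) ≤ w.count p := by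
    intro N
    induction N with
    | zero =>
      intro _
      refine ⟨[], ?_, ?_, ?_⟩
      · intro x
        simp
      · unfold inv
        rw [List.length_nil, eq_comm, card_eq_zero, filter_eq_empty_iff]
        rintro q - ⟨h1, h2⟩
        omega
      · simp
    | succ N ih =>
      intro hN
      obtain ⟨w, hw1, hw2, hw3⟩ := ih (by omega)
      have hmono : ∀ i j, S 0 i < S 0 j → S N j < S N i → S (N + 1) j < S (N + 1) i := hst N (by omega)
      have hle : inv (S 0) (S N) ≤ inv (S 0) (S (N + 1)) := by
        unfold inv
        apply card_le_card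
        intro q hq
        simp only [mem_filter, mem_univ, true_and] at hq ⊢
        exact ⟨hq.1, hmono _ _ hq.1 hq.2⟩
      obtain ⟨w', h1, h2⟩ := refine_move hn (hinj (N + 1)) (inv (S 0) (S (N + 1)) - inv (S 0) (S N)) (S N)
        (hinj N) (by omega) (hinj 0) hmono
      refine ⟨w' ++ w, hw1.trans h1, ?_, ?_⟩
      · rw [List.length_append, h2, hw2]
        omega
      · intro p
        rw [sum_range_succ, List.count_append]
        have := hw3 p
        have := wd_cross (hinj N) h1 p
        omega
  obtain ⟨w, hw1, hw2, hw3⟩ := hstep M le_rfl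
  exact ⟨w, allow_of_wd hn (hinj 0) hw1 hw2 hend, hw3⟩

/-- an injective function with small values is its own normalization -/
theorem norm_of_lt {g : V → ℕ} (hg : Function.Injective g) (hlt : ∀ x, g x < Fintype.card V) (x : V) :
    norm g x = g x := by
  have h1 : univ.image g = range (Fintype.card V) := by
    apply Finset.eq_of_subset_of_card_le
    · intro y hy
      obtain ⟨x, -, rfl⟩ := mem_image.1 hy
      exact mem_range.2 (hlt x)
    · rw [card_range, card_image_of_injective _ hg, card_univ]
  unfold norm
  have h2 : (univ.filter fun y => g y < g x).image g = range (g x) := by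
    ext z
    simp only [mem_image, mem_filter, mem_univ, true_and, mem_range]
    constructor
    · rintro ⟨y, h1, rfl⟩
      exact h1
    · intro hz
      have : z ∈ univ.image g := by
        rw [h1, mem_range]
        exact hz.trans (hlt x)
      obtain ⟨y, -, rfl⟩ := mem_image.1 this
      exact ⟨y, hz, rfl⟩
  rw [← card_image_of_injective _ hg, h2, card_range]

/-- thick states: every element is replaced by `t` elements; `a` elements are added at the bottom and `b` at the
top -/
def thk (a t b : ℕ) (g : V → ℕ) : Fin a ⊕ ((V × Fin t) ⊕ Fin b) → ℕ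
  | Sum.inl i => i
  | Sum.inr (Sum.inl x) => a + (norm g x.1 * t + x.2)
  | Sum.inr (Sum.inr j) => a + (Fintype.card V * t + j)

theorem norm_lt_card' (g : V → ℕ) (x : V) : norm g x < Fintype.card V := by
  unfold norm
  rw [← card_univ]
  apply Finset.card_lt_card
  rw [Finset.ssubset_iff_of_subset (subset_univ _)]
  exact ⟨x, mem_univ _, by simp⟩

theorem thk_mid_lt {t : ℕ} (g : V → ℕ) (x : V × Fin t) :
    norm g x.1 * t + (x.2 : ℕ) < Fintype.card V * t := by
  have h1 := norm_lt_card' g x.1
  have h2 := x.2.isLt
  calc norm g x.1 * t + (x.2 : ℕ) < norm g x.1 * t + t := by omega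
    _ = (norm g x.1 + 1) * t := by ring
    _ ≤ Fintype.card V * t := Nat.mul_le_mul_right t h1

theorem thk_inj {a t b : ℕ} {g : V → ℕ} (hg : Function.Injective g) : Function.Injective (thk a t b g) := by
  rintro (i | (x | j)) (i' | (x' | j')) h <;> simp only [thk] at h
  · rw [Fin.ext h]
  · have := i.isLt
    omega
  · have := i.isLt
    omega
  · have := i'.isLt
    omega
  · have h0 : norm g x.1 * t + (x.2 : ℕ) = norm g x'.1 * t + x'.2 := by omega
    obtain ⟨h1, h2⟩ := lexi_eq x.2.isLt x'.2.isLt h0
    have h3 := norm_inj hg h1
    rw [show x = x' from Prod.ext h3 (Fin.ext h2)]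
  · have := thk_mid_lt g x
    omega
  · have := i'.isLt
    omega
  · have := thk_mid_lt g x'
    omega
  · rw [Fin.ext (show (j : ℕ) = j' by omega)]

theorem thk_card {a t b : ℕ} : Fintype.card (Fin a ⊕ ((V × Fin t) ⊕ Fin b)) = a + (Fintype.card V * t + b) := by
  simp [Fintype.card_sum, Fintype.card_prod]

theorem thk_lt {a t b : ℕ} (g : V → ℕ) (x : Fin a ⊕ ((V × Fin t) ⊕ Fin b)) :
    thk a t b g x < a + (Fintype.card V * t + b) := by
  rcases x with i | (x | j) <;> simp only [thk]
  · have := i.isLt
    omega
  · have := thk_mid_lt g x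
    omega
  · have := j.isLt
    omega

theorem norm_thk {a t b : ℕ} {g : V → ℕ} (hg : Function.Injective g) (x : Fin a ⊕ ((V × Fin t) ⊕ Fin b)) :
    norm (thk a t b g) x = thk a t b g x := by
  classical
  apply norm_of_lt (thk_inj hg)
  intro x
  rw [thk_card]
  exact thk_lt g x

theorem thk_mid {a t b : ℕ} {g : V → ℕ} (hg : Function.Injective g) (x x' : V × Fin t) :
    thk a t b g (Sum.inr (Sum.inl x)) < thk a t b g (Sum.inr (Sum.inl x')) ↔
      g x.1 < g x'.1 ∨ (x.1 = x'.1 ∧ (x.2 : ℕ) < x'.2) := by
  simp only [thk]
  rw [Nat.add_lt_add_iff_left, lexi x.2.isLt x'.2.isLt, norm_lt]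
  constructor
  · rintro (h | ⟨h1, h2⟩)
    · exact Or.inl h
    · exact Or.inr ⟨norm_inj hg h1, h2⟩
  · rintro (h | ⟨h1, h2⟩)
    · exact Or.inl h
    · exact Or.inr ⟨by rw [h1], h2⟩

/-- the other comparisons do not depend on the state -/
theorem thk_other {a t b : ℕ} (g h : V → ℕ) (x y : Fin a ⊕ ((V × Fin t) ⊕ Fin b))
    (hxy : ¬ ∃ u v, x = Sum.inr (Sum.inl u) ∧ y = Sum.inr (Sum.inl v)) :
    thk a t b g x < thk a t b g y ↔ thk a t b h x < thk a t b h y := by
  rcases x with i | (x | j)
  · rcases y with i' | (x' | j')
    · exact Iff.rfl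
    · simp only [thk]
      have := i.isLt
      omega
    · simp only [thk]
  · rcases y with i' | (x' | j')
    · simp only [thk]
      have := i'.isLt
      omega
    · exact absurd ⟨_, _, rfl, rfl⟩ hxy
    · simp only [thk]
      have := thk_mid_lt h x
      have := thk_mid_lt g x
      omega
  · rcases y with i' | (x' | j')
    · simp only [thk]
    · simp only [thk]
      have := thk_mid_lt h x'
      have := thk_mid_lt g x'
      omega
    · exact Iff.rfl

/-- the crossings of an event -/
theorem crs_event {k : ℕ} {g h : V → ℕ} (hg : Function.Injective g) (hh : Function.Injective h) (hE : Ev k g h)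
    {a t b d q : ℕ} (hd : d ≤ t) (h1 : a + k * t ≤ q + 1 + d) (h2 : q + 1 ≤ a + k * t + d) :
    t - d ≤ crs q (thk a t b g) (thk a t b h) := by
  obtain ⟨A, B, hAB, hBA, hiff, hk⟩ := hE
  have hne : A ≠ B := fun hh => by rw [hh] at hAB; exact lt_irrefl _ hAB
  have hA : norm g A + 1 = k := hk
  have hA' : norm h A = norm g A + 1 := by
    unfold norm
    have : (univ.filter fun y => h y < h A) = insert B (univ.filter fun y => g y < g A) := by
      ext z
      simp only [mem_filter, mem_univ, true_and, mem_insert]
      by_cases hzB : z = B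
      · subst hzB
        simp [hBA]
      · by_cases hzA : z = A
        · subst hzA
          simp [hne]
        · simp only [hzB, false_or]
          exact (hiff z A (fun hh => hzA hh.1) (fun hh => hzB hh.1)).symm
    rw [this, card_insert_of_notMem]
    simp only [mem_filter, mem_univ, true_and, not_lt]
    exact hAB.le
  unfold crs
  rw [← Fintype.card_fin (t - d), ← card_univ]
  refine card_le_card_of_injOn (fun y : Fin (t - d) =>
    (Sum.inr (Sum.inl (A, ⟨y + (q + 1 - (a + k * t)), by have := y.isLt; omega⟩)) :
      Fin a ⊕ ((V × Fin t) ⊕ Fin b))) ?_ ?_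
  · intro y _
    simp only [coe_filter, mem_univ, true_and, Set.mem_ofPred_eq]
    rw [norm_thk hg, norm_thk hh]
    simp only [thk]
    rw [hA', hA]
    have h3 := y.isLt
    have h4 : k * t = norm g A * t + t := by
      rw [← hA]
      ring
    constructor
    · omega
    · omega
  · intro y _ y' _ hy
    simp only [Sum.inr.injEq, Sum.inl.injEq, Prod.mk.injEq, Fin.mk.injEq, true_and] at hy
    exact Fin.ext (by omega)

/-- from a path to a thick word -/
theorem PGood.thick {n k E : ℕ} (h : PGood n k E) (a b t : ℕ) (hm : a + (n * t + b) = m + 1) :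
    ∃ w : List (Fin m), IsAllowable w ∧ ∀ (p : Fin m) (d : ℕ), d ≤ t → a + k * t ≤ p + 1 + d →
      (p : ℕ) + 1 ≤ a + k * t + d → (t - d) * E ≤ w.count p := by
  obtain ⟨V, _, _, σ, f, g, e, hnV, path, hE⟩ := h
  obtain ⟨N, s, T, h1, h2, h3, h4, h5, h6⟩ := Path.seq path
  have hmono : ∀ t ≤ N, ∀ i j, σ i ≤ σ j → f i < f j → s t i < s t j := by
    intro t
    induction t with
    | zero =>
      intro _ i j _ hlt
      rw [h1]
      exact hlt
    | succ t ih =>
      intro ht i j hij hlt
      exact h4 t (by omega) i j hij (ih (by omega) i j hij hlt)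
  have hinv : ∀ u < N, ∀ i j, s 0 i < s 0 j → s u j < s u i → s (u + 1) j < s (u + 1) i := by
    intro u hu i j hij hrev
    rcases le_total (σ j) (σ i) with c | c
    · exact h4 u hu j i c hrev
    · rw [h1] at hij
      have := hmono u hu.le i j c hij
      omega
  have hcard : Fintype.card (Fin a ⊕ ((V × Fin t) ⊕ Fin b)) = m + 1 := by
    rw [thk_card, hnV, hm]
  have hlt : ∀ u x, thk a t b (s u) x < m + 1 := by
    intro u x
    have := thk_lt (a := a) (b := b) (t := t) (s u) x
    rwa [hnV, hm] at this
  obtain ⟨w, hw1, hw2⟩ := word3 hcard (M := N + 1)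
    (S := fun u => if u ≤ N then thk a t b (s u) else fun x => m - thk a t b (s 0) x) (by
      intro u
      by_cases hu : u ≤ N
      · simp only [hu, if_true]
        exact thk_inj (h3 u)
      · simp only [hu, if_false]
        intro x y hxy
        have e1 := hlt 0 x
        have e2 := hlt 0 y
        exact thk_inj (h3 0) (by simp only at hxy; omega)) (by
      intro u hu x y hxy hrev
      simp only [Nat.zero_le, if_true] at hxy
      by_cases hN : u < N
      · simp only [show u ≤ N by omega, show u + 1 ≤ N by omega, if_true] at hrev ⊢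
        by_cases hc : ∃ i j, x = Sum.inr (Sum.inl i) ∧ y = Sum.inr (Sum.inl j)
        · obtain ⟨i, j, rfl, rfl⟩ := hc
          rw [thk_mid (h3 _)] at hxy hrev ⊢
          rcases hxy with c | ⟨c, c'⟩
          · rcases hrev with c2 | ⟨c2, -⟩
            · exact Or.inl (hinv u hN _ _ c c2)
            · rw [c2] at c
              exact absurd c (lt_irrefl _)
          · rcases hrev with c2 | ⟨-, c2⟩
            · rw [c] at c2
              exact absurd c2 (lt_irrefl _)
            · omega
        · rw [thk_other (s 0) (s u) x y hc] at hxy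
          omega
      · simp only [show ¬ u + 1 ≤ N by omega, if_false]
        have := hlt 0 x
        have := hlt 0 y
        omega) (by
      intro x y hxy
      simp only [Nat.zero_le, if_true] at hxy
      simp only [show ¬ N + 1 ≤ N by omega, if_false]
      have := hlt 0 x
      have := hlt 0 y
      omega)
  refine ⟨w, hw1, ?_⟩
  intro p d hd hp1 hp2
  refine le_trans ?_ (hw2 p)
  have hTsub : T ⊆ range (N + 1) := by
    intro u hu
    rw [mem_range]
    have := (h5 u hu).1
    omega
  calc (t - d) * E ≤ (t - d) * T.card := by
        rw [h6]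
        exact Nat.mul_le_mul_left _ hE
    _ = ∑ u ∈ T, (t - d) := by rw [sum_const, smul_eq_mul, mul_comm]
    _ ≤ ∑ u ∈ T, crs p (if u ≤ N then thk a t b (s u) else fun x => m - thk a t b (s 0) x)
          (if u + 1 ≤ N then thk a t b (s (u + 1)) else fun x => m - thk a t b (s 0) x) := by
        refine sum_le_sum fun u hu => ?_
        obtain ⟨c1, c2⟩ := h5 u hu
        rw [if_pos (by omega), if_pos (by omega)]
        exact crs_event (h3 u) (h3 (u + 1)) c2 hd hp1 hp2
    _ ≤ _ := sum_le_sum_of_subset hTsub

end

end Pool.Agent.L0h27.PP
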