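import Pool.Agent.L0h27.PP.AsymWord
import Pool.Agent.L0h27.PP.Thick

/-!
# The asymptotic lower bound for many positions
-/

set_option autoImplicit false

open Finset

namespace Pool.Agent.L0h27.PP

theorem growth3 (j : ℕ) (hj : 200 ≤ j) :
    5 * (4 * 10000 * 10000 ^ j * (1203 / 1000 : ℝ) ^ (j + 3)) ≤ 981 * (12259 ^ j * 13) := by
  induction j, hj using Nat.le_induction with
  | base => norm_num
  | succ j _ ih =>
    have h1 : (5 * (4 * 10000 * 10000 ^ (j + 1) * (1203 / 1000 : ℝ) ^ (j + 1 + 3))) =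
        12030 * (5 * (4 * 10000 * 10000 ^ j * (1203 / 1000 : ℝ) ^ (j + 3))) := by ring
    have h2 : (981 * (12259 ^ (j + 1) * 13) : ℝ) = 12259 * (981 * (12259 ^ j * 13)) := by ring
    rw [h1, h2]
    have h3 : (0 : ℝ) ≤ 5 * (4 * 10000 * 10000 ^ j * (1203 / 1000 : ℝ) ^ (j + 3)) := by positivity
    nlinarith

theorem core3 {k : ℕ} (hk : 10000 ^ 201 ≤ k) :
    ∃ E : ℕ, PGood (2 * k) k E ∧ 5 * ((2 * k : ℕ) : ℝ) ^ (1 + (1 : ℝ) / 50) ≤ E := by
  have hk0 : k ≠ 0 := by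
    intro h
    rw [h] at hk
    exact absurd hk (by norm_num)
  have h1 : 10000 ^ Nat.log 10000 k ≤ k := Nat.pow_log_le_self 10000 hk0
  have h2 : k < 10000 ^ (Nat.log 10000 k + 1) := Nat.lt_pow_succ_log_self (by norm_num) k
  have h3 : 201 ≤ Nat.log 10000 k := Nat.le_log_of_pow_le (by norm_num) hk
  obtain ⟨j, hl⟩ : ∃ j, Nat.log 10000 k = j + 1 := ⟨Nat.log 10000 k - 1, by omega⟩
  rw [hl] at h1 h2 h3
  have hj : 200 ≤ j := by omega
  set n := 2 * k with hn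
  set B := 10000 ^ (j + 1) with hB
  have hB0 : 0 < B := by positivity
  set M := (n - k) / B with hM
  have h4 : M * B ≤ n - k := Nat.div_mul_le_self _ _
  have h5 : n - k < (M + 1) * B := by
    rw [hM]
    have := Nat.lt_div_mul_add (a := n - k) hB0
    rw [add_mul, one_mul]
    exact this
  have h6 : 1 ≤ M := by
    rw [hM, Nat.one_le_div_iff hB0]
    omega
  have hg := (tower10 j M).pad (k - B) (n - k - M * B)
  have e1 : (M + 1) * 10000 ^ (j + 1) + (k - B) + (n - k - M * B) = n := by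
    rw [← hB, add_mul, one_mul]
    omega
  have e2 : 10000 ^ (j + 1) + (k - B) = k := by
    rw [← hB]
    omega
  rw [e1, e2] at hg
  refine ⟨_, hg, ?_⟩
  have h7 : n ≤ 4 * (M * B) := by
    have : (M + 1) * B ≤ 2 * (M * B) := by
      rw [add_mul, one_mul]
      have : B ≤ M * B := Nat.le_mul_of_pos_left _ h6
      omega
    omega
  have h8 : (n : ℝ) ^ ((1 : ℝ) / 50) ≤ (1203 / 1000 : ℝ) ^ (j + 3) := by
    apply pow_bound _ _ (by positivity)
    have : n ≤ 10000 ^ (j + 3) := by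
      have e3 : 10000 ^ (j + 3) = 10000 * 10000 ^ (j + 1 + 1) := by ring
      omega
    exact_mod_cast this
  have h9 : (n : ℝ) ≤ 4 * (M * B) := by exact_mod_cast h7
  have hn0 : (0 : ℝ) < n := by
    have : 0 < n := by omega
    exact_mod_cast this
  rw [Real.rpow_add hn0, Real.rpow_one]
  calc 5 * ((n : ℝ) * (n : ℝ) ^ ((1 : ℝ) / 50))
      ≤ 5 * ((4 * (M * B)) * (1203 / 1000 : ℝ) ^ (j + 3)) :=
        mul_le_mul_of_nonneg_left (mul_le_mul h9 h8 (by positivity) (by positivity)) (by norm_num)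
    _ = (5 * (4 * 10000 * 10000 ^ j * (1203 / 1000 : ℝ) ^ (j + 3))) * M := by
        rw [hB]
        push_cast
        ring
    _ ≤ (981 * (12259 ^ j * 13)) * M := mul_le_mul_of_nonneg_right (growth3 j hj) (Nat.cast_nonneg _)
    _ = ((981 * (12259 ^ j * 13) * M : ℕ) : ℝ) := by push_cast; ring

theorem main3 : ∃ C : ℕ, ∀ m T : ℕ, 1 ≤ T → C * T ≤ m + 1 → ∃ w : List (Fin m), IsAllowable w ∧
    ∀ p : Fin m, 2 * ((p : ℕ) + 1) ≤ m + 1 + 2 * T → m + 1 ≤ 2 * ((p : ℕ) + 1) + 2 * T →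
      ((m + 1 : ℕ) : ℝ) * (((m + 1 : ℕ) : ℝ) / T) ^ ((1 : ℝ) / 50) ≤ w.count p := by
  refine ⟨4 * 10000 ^ 201, fun m T hT hC => ?_⟩
  set n := m + 1 with hn
  set k := n / (4 * T) with hk
  have hT4 : 0 < 4 * T := by omega
  have hk1 : 10000 ^ 201 ≤ k := by
    rw [hk, Nat.le_div_iff_mul_le hT4]
    calc 10000 ^ 201 * (4 * T) = 4 * 10000 ^ 201 * T := by ring
      _ ≤ n := hC
  have hk0 : 1 ≤ k := le_trans (Nat.one_le_pow _ _ (by norm_num)) hk1
  obtain ⟨E, hE, hb⟩ := core3 hk1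
  have h1 : k * (4 * T) ≤ n := Nat.div_mul_le_self _ _
  have h2 : n < k * (4 * T) + 4 * T := by
    have := Nat.lt_div_mul_add (a := n) hT4
    exact this
  have h3 : 2 * k * (2 * T) = k * (4 * T) := by ring
  have h4 : k * (2 * T) + k * (2 * T) = k * (4 * T) := by ring
  obtain ⟨w, hw1, hw2⟩ := hE.thick (m := m) (n / 2 - k * (2 * T)) (n - n / 2 - k * (2 * T)) (2 * T) (by
    rw [h3]
    omega)
  refine ⟨w, hw1, fun p hp1 hp2 => ?_⟩
  have h5 := hw2 p T (by omega) (by omega) (by omega)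
  have h6 : 2 * T - T = T := by omega
  rw [h6] at h5
  have hT0 : (0 : ℝ) < T := by exact_mod_cast hT
  have hn0 : (0 : ℝ) < n := by
    have : 0 < n := by omega
    exact_mod_cast this
  have hkr : (0 : ℝ) < ((2 * k : ℕ) : ℝ) := by
    have : 0 < 2 * k := by omega
    exact_mod_cast this
  have h7 : (n : ℝ) / T ≤ 4 * ((2 * k : ℕ) : ℝ) := by
    rw [div_le_iff₀ hT0]
    have : n ≤ 4 * (2 * k) * T := by
      have e1 : 4 * (2 * k) * T = k * (4 * T) + k * (4 * T) := by ring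
      have e2 : 1 * (4 * T) ≤ k * (4 * T) := Nat.mul_le_mul_right _ hk0
      omega
    exact_mod_cast this
  have h8 : ((n : ℝ) / T) ^ (1 + (1 : ℝ) / 50) ≤ 5 * ((2 * k : ℕ) : ℝ) ^ (1 + (1 : ℝ) / 50) := by
    calc ((n : ℝ) / T) ^ (1 + (1 : ℝ) / 50) ≤ (4 * ((2 * k : ℕ) : ℝ)) ^ (1 + (1 : ℝ) / 50) :=
          Real.rpow_le_rpow (by positivity) h7 (by norm_num)
      _ = (4 : ℝ) ^ (1 + (1 : ℝ) / 50) * ((2 * k : ℕ) : ℝ) ^ (1 + (1 : ℝ) / 50) :=
          Real.mul_rpow (by norm_num) hkr.le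
      _ ≤ 5 * ((2 * k : ℕ) : ℝ) ^ (1 + (1 : ℝ) / 50) := by
          refine mul_le_mul_of_nonneg_right ?_ (by positivity)
          rw [Real.rpow_add (by norm_num), Real.rpow_one]
          have : (4 : ℝ) ^ ((1 : ℝ) / 50) ≤ 5 / 4 := by
            calc (4 : ℝ) ^ ((1 : ℝ) / 50) ≤ ((5 / 4 : ℝ) ^ 50) ^ ((1 : ℝ) / 50) :=
                  Real.rpow_le_rpow (by norm_num) (by norm_num) (by norm_num)
              _ = 5 / 4 := by
                  rw [show ((1 : ℝ) / 50) = ((50 : ℕ) : ℝ)⁻¹ by norm_num]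
                  exact Real.pow_rpow_inv_natCast (by norm_num) (by norm_num)
          linarith
  calc (n : ℝ) * ((n : ℝ) / T) ^ ((1 : ℝ) / 50) = T * ((n : ℝ) / T) ^ (1 + (1 : ℝ) / 50) := by
        rw [Real.rpow_add (by positivity), Real.rpow_one]
        field_simp
    _ ≤ T * (5 * ((2 * k : ℕ) : ℝ) ^ (1 + (1 : ℝ) / 50)) := mul_le_mul_of_nonneg_left h8 hT0.le
    _ ≤ T * E := mul_le_mul_of_nonneg_left hb hT0.le
    _ ≤ w.count p := by exact_mod_cast h5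

end Pool.Agent.L0h27.PP
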