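import Pool.Agent.L0h27.PP.Fam
import Pool.Agent.L0h27.PP.AllowDefs
import Mathlib.GroupTheory.Perm.Basic
import Mathlib.Order.Fin.Basic
import Mathlib.Algebra.BigOperators.Fin
import Mathlib.Data.Fintype.Prod

/-!
# From sequences of states to reduced words (allowable sequences)
-/

set_option autoImplicit false
set_option linter.unusedSectionVars false

open Finset

namespace Pool.Agent.L0h27.PP

open Pool.Agent.L0h27.PL

section

variable {V : Type} [Fintype V] [DecidableEq V] {m : ℕ}

theorem norm_lt_card (hn : Fintype.card V = m + 1) (g : V → ℕ) (x : V) : norm g x < m + 1 := by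
  unfold norm
  rw [← hn, ← card_univ]
  apply Finset.card_lt_card
  rw [Finset.ssubset_iff_of_subset (subset_univ _)]
  exact ⟨x, mem_univ _, by simp⟩

/-- the position of an element -/
def pst (hn : Fintype.card V = m + 1) (g : V → ℕ) (x : V) : Fin (m + 1) := ⟨norm g x, norm_lt_card hn g x⟩

/-- the word `w` leads from the state `g` to the state `h` -/
def Wd (hn : Fintype.card V = m + 1) (g h : V → ℕ) (w : List (Fin m)) : Prop :=
  ∀ x, (w.map adjSwap).prod (pst hn g x) = pst hn h x

theorem Wd.trans {hn : Fintype.card V = m + 1} {g h l : V → ℕ} {w w' : List (Fin m)} (h1 : Wd hn g h w)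
    (h2 : Wd hn h l w') : Wd hn g l (w' ++ w) := by
  intro x
  rw [List.map_append, List.prod_append, Equiv.Perm.mul_apply, h1 x, h2 x]

/-- the number of inversions with respect to `f` -/
def inv (f g : V → ℕ) : ℕ := (univ.filter fun q : V × V => f q.1 < f q.2 ∧ g q.2 < g q.1).card

/-- neighbours -/
theorem norm_succ {g : V → ℕ} {A B : V} (hAB : g A < g B)
    (hadj : ∀ z, ¬ (g A < g z ∧ g z < g B)) (hg : Function.Injective g) : norm g B = norm g A + 1 := by
  unfold norm
  have : (univ.filter fun y => g y < g B) = insert A (univ.filter fun y => g y < g A) := by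
    ext z
    simp only [mem_filter, mem_univ, true_and, mem_insert]
    constructor
    · intro hz
      rcases lt_trichotomy (g z) (g A) with c | c | c
      · exact Or.inr c
      · exact Or.inl (hg c)
      · exact absurd ⟨c, hz⟩ (hadj z)
    · rintro (rfl | hz)
      · exact hAB
      · exact hz.trans hAB
  rw [this, card_insert_of_notMem (by simp)]

/-- the exchange of two neighbours -/
theorem wd_swap (hn : Fintype.card V = m + 1) {g h : V → ℕ} (hg : Function.Injective g) {A B : V}
    (hAB : g A < g B) (hBA : h B < h A)
    (hiff : ∀ i j, ¬ (i = A ∧ j = B) → ¬ (i = B ∧ j = A) → (g i < g j ↔ h i < h j))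
    {p : Fin m} (hp : norm g A = p) : Wd hn g h [p] := by
  have hne : A ≠ B := fun hh => by rw [hh] at hAB; exact lt_irrefl _ hAB
  have hadj : ∀ z, ¬ (g A < g z ∧ g z < g B) := by
    rintro z ⟨h1, h2⟩
    have hzA : z ≠ A := fun hh => by rw [hh] at h1; exact lt_irrefl _ h1
    have hzB : z ≠ B := fun hh => by rw [hh] at h2; exact lt_irrefl _ h2
    have h3 := (hiff A z (fun hh => hzB hh.2) (fun hh => hne hh.1)).1 h1
    have h4 := (hiff z B (fun hh => hzA hh.1) (fun hh => hzB hh.1)).1 h2
    omega
  have hB := norm_succ hAB hadj hg
  -- the positions in the new state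
  have hA' : norm h A = norm g B := by
    rw [hB]
    unfold norm
    have : (univ.filter fun y => h y < h A) = insert B (univ.filter fun y => g y < g A) := by
      ext z
      simp only [mem_filter, mem_univ, true_and, mem_insert]
      by_cases hzB : z = B
      · subst hzB
        simp [hBA]
      · by_cases hzA : z = A
        · subst hzA
          simp [hne]
        · simp only [hzB, false_or]
          exact (hiff z A (fun hh => hzA hh.1) (fun hh => hzB hh.1)).symm
    rw [this, card_insert_of_notMem]
    simp only [mem_filter, mem_univ, true_and, not_lt]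
    exact hAB.le
  have hB' : norm h B = norm g A := by
    unfold norm
    congr 1
    ext z
    simp only [mem_filter, mem_univ, true_and]
    by_cases hzA : z = A
    · subst hzA
      simp only [lt_irrefl, iff_false, not_lt]
      exact hBA.le
    · by_cases hzB : z = B
      · subst hzB
        simp only [lt_irrefl, false_iff, not_lt]
        exact hAB.le
      · rw [← hiff z B (fun hh => hzA hh.1) (fun hh => hzB hh.1)]
        constructor
        · intro hz
          rcases lt_trichotomy (g z) (g A) with c | c | c
          · exact c
          · exact absurd (hg c) hzA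
          · exact absurd ⟨c, hz⟩ (hadj z)
        · exact fun hz => hz.trans hAB
  have ho : ∀ z, z ≠ A → z ≠ B → norm h z = norm g z := by
    intro z hzA hzB
    unfold norm
    have hc : g A < g z ↔ g B < g z := by
      constructor
      · intro h1
        rcases lt_trichotomy (g z) (g B) with c | c | c
        · exact absurd ⟨h1, c⟩ (hadj z)
        · exact absurd (hg c) hzB
        · exact c
      · exact fun h1 => hAB.trans h1
    have e1 := hiff A z (fun hh => hzB hh.2) (fun hh => hne hh.1)
    have e2 := hiff B z (fun hh => hne hh.1.symm) (fun hh => hzA hh.2)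
    congr 1
    ext y
    simp only [mem_filter, mem_univ, true_and]
    by_cases hyA : y = A
    · subst hyA
      exact e1.symm
    · by_cases hyB : y = B
      · subst hyB
        exact e2.symm
      · exact (hiff y z (fun hh => hyA hh.1) (fun hh => hyB hh.1)).symm
  intro x
  rw [List.map_singleton, List.prod_singleton]
  unfold adjSwap
  have eA : pst hn g A = p.castSucc := Fin.ext hp
  have eB : pst hn g B = p.succ := Fin.ext (by
    change norm g B = p.succ.val
    rw [hB, hp, Fin.val_succ])
  by_cases hxA : x = A
  · subst hxA
    rw [eA, Equiv.swap_apply_left, ← eB]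
    exact Fin.ext hA'.symm
  · by_cases hxB : x = B
    · subst hxB
      rw [eB, Equiv.swap_apply_right, ← eA]
      exact Fin.ext hB'.symm
    · have n1 : norm g x ≠ norm g A := by
        intro hh
        rcases lt_trichotomy (g x) (g A) with c | c | c
        · have := (norm_lt g x A).2 c
          omega
        · exact hxA (hg c)
        · have := (norm_lt g A x).2 c
          omega
      have n2 : norm g x ≠ norm g B := by
        intro hh
        rcases lt_trichotomy (g x) (g B) with c | c | c
        · have := (norm_lt g x B).2 c
          omega
        · exact hxB (hg c)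
        · have := (norm_lt g B x).2 c
          omega
      rw [Equiv.swap_apply_of_ne_of_ne]
      · exact Fin.ext (ho x hxA hxB).symm
      · rw [← eA]
        exact fun hh => n1 (congrArg Fin.val hh)
      · rw [← eB]
        exact fun hh => n2 (congrArg Fin.val hh)

theorem inv_swap {f g h : V → ℕ} {A B : V} (hf : f A < f B) (hAB : g A < g B) (hBA : h B < h A)
    (hiff : ∀ i j, ¬ (i = A ∧ j = B) → ¬ (i = B ∧ j = A) → (g i < g j ↔ h i < h j)) :
    inv f h = inv f g + 1 := by
  unfold inv
  have : (univ.filter fun q : V × V => f q.1 < f q.2 ∧ h q.2 < h q.1) =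
      insert (A, B) (univ.filter fun q : V × V => f q.1 < f q.2 ∧ g q.2 < g q.1) := by
    ext ⟨i, j⟩
    simp only [mem_filter, mem_univ, true_and, mem_insert, Prod.mk.injEq]
    by_cases c1 : i = A ∧ j = B
    · obtain ⟨rfl, rfl⟩ := c1
      simp [hf, hBA]
    · by_cases c2 : i = B ∧ j = A
      · obtain ⟨rfl, rfl⟩ := c2
        constructor
        · rintro ⟨h1, -⟩
          omega
        · rintro (h1 | h1)
          · exact absurd h1 c1
          · omega
      · rw [hiff j i (fun hh => c2 ⟨hh.2, hh.1⟩) (fun hh => c1 ⟨hh.2, hh.1⟩)]
        constructor
        · exact Or.inr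
        · rintro (h1 | h1)
          · exact absurd h1 c1
          · exact h1
  rw [this, card_insert_of_notMem]
  simp only [mem_filter, mem_univ, true_and, not_and, not_lt]
  intro _
  exact hAB.le

/-- the refinement of a move -/
theorem refine_move (hn : Fintype.card V = m + 1) {f h : V → ℕ} (hh : Function.Injective h) :
    ∀ (d : ℕ) (g : V → ℕ), Function.Injective g → inv f h = inv f g + d → Function.Injective f →
      (∀ i j, f i < f j → g j < g i → h j < h i) → ∃ w : List (Fin m), Wd hn g h w ∧ w.length = d := by
  intro d
  induction d with
  | zero =>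
    intro g hg hd hf hmono
    refine ⟨[], ?_, rfl⟩
    -- no new inversion
    have hset : (univ.filter fun q : V × V => f q.1 < f q.2 ∧ g q.2 < g q.1) =
        univ.filter fun q : V × V => f q.1 < f q.2 ∧ h q.2 < h q.1 := by
      apply Finset.eq_of_subset_of_card_le
      · intro q hq
        simp only [mem_filter, mem_univ, true_and] at hq ⊢
        exact ⟨hq.1, hmono _ _ hq.1 hq.2⟩
      · unfold inv at hd
        omega
    have hiff : ∀ i j, f i < f j → (g j < g i ↔ h j < h i) := by
      intro i j hij
      have := congrArg (fun s => (i, j) ∈ s) hset
      simp only [mem_filter, mem_univ, true_and, eq_iff_iff] at this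
      constructor
      · intro h1
        exact (this.1 ⟨hij, h1⟩).2
      · intro h1
        exact (this.2 ⟨hij, h1⟩).2
    have hall : ∀ i j, g i < g j ↔ h i < h j := by
      intro i j
      rcases lt_trichotomy (f i) (f j) with c | c | c
      · have h1 := hiff i j c
        constructor
        · intro h2
          by_contra h3
          have h4 : h j < h i := by
            rcases lt_trichotomy (h i) (h j) with c' | c' | c'
            · exact absurd c' h3
            · rw [hh c'] at c
              exact absurd c (lt_irrefl _)
            · exact c'
          have := h1.2 h4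
          omega
        · intro h2
          by_contra h3
          have h4 : g j < g i := by
            rcases lt_trichotomy (g i) (g j) with c' | c' | c'
            · exact absurd c' h3
            · rw [hg c'] at c
              exact absurd c (lt_irrefl _)
            · exact c'
          have := h1.1 h4
          omega
      · rw [hf c]
        simp
      · exact hiff j i c
    intro x
    rw [List.map_nil, List.prod_nil, Equiv.Perm.one_apply]
    apply Fin.ext
    change norm g x = norm h x
    unfold norm
    congr 1
    ext y
    simp only [mem_filter, mem_univ, true_and]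
    exact hall y x
  | succ d ih =>
    intro g hg hd hf hmono
    -- a pair which has to be reversed
    have hex : ∃ n, ∃ x y, g x < g y ∧ h y < h x ∧ g y - g x = n := by
      by_contra hcon
      push Not at hcon
      have hle : inv f h ≤ inv f g := by
        unfold inv
        apply card_le_card
        intro q hq
        simp only [mem_filter, mem_univ, true_and] at hq ⊢
        refine ⟨hq.1, ?_⟩
        rcases lt_trichotomy (g q.1) (g q.2) with c | c | c
        · exact absurd rfl (hcon _ q.1 q.2 c hq.2)
        · rw [hg c] at hq
          exact absurd hq.1 (lt_irrefl _)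
        · exact c
      omega
    classical
    obtain ⟨A, B, hAB, hBA, hdist⟩ := Nat.find_spec hex
    have hmin := fun n (hn : n < Nat.find hex) => Nat.find_min hex hn
    rw [← hdist] at hmin
    have hadj : ∀ z, ¬ (g A < g z ∧ g z < g B) := by
      rintro z ⟨h1, h2⟩
      rcases lt_or_ge (h z) (h A) with c | c
      · exact hmin (g z - g A) (by omega) ⟨A, z, h1, c, rfl⟩
      · have : h B < h z := lt_of_lt_of_le hBA c
        exact hmin (g B - g z) (by omega) ⟨z, B, h2, this, rfl⟩
    have hne : A ≠ B := fun hh => by rw [hh] at hAB; exact lt_irrefl _ hAB
    have hfAB : f A < f B := by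
      rcases lt_trichotomy (f A) (f B) with c | c | c
      · exact c
      · exact absurd (hf c) hne
      · have := hmono B A c hAB
        omega
    set g' : V → ℕ := fun x => g (Equiv.swap A B x) with hg'
    have hg'i : Function.Injective g' := hg.comp (Equiv.injective _)
    have e1 : g' A = g B := by simp [hg']
    have e2 : g' B = g A := by simp [hg']
    have e3 : ∀ z, z ≠ A → z ≠ B → g' z = g z := by
      intro z h1 h2
      simp only [hg']
      rw [Equiv.swap_apply_of_ne_of_ne h1 h2]
    have hcmp : ∀ z, z ≠ A → z ≠ B → (g z < g A ↔ g z < g B) := by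
      intro z h1 h2
      constructor
      · exact fun h => h.trans hAB
      · intro h
        rcases lt_trichotomy (g z) (g A) with c | c | c
        · exact c
        · exact absurd (hg c) h1
        · exact absurd ⟨c, h⟩ (hadj z)
    have hcmp2 : ∀ z, z ≠ A → z ≠ B → (g A < g z ↔ g B < g z) := by
      intro z h1 h2
      constructor
      · intro h
        rcases lt_trichotomy (g z) (g B) with c | c | c
        · exact absurd ⟨h, c⟩ (hadj z)
        · exact absurd (hg c) h2
        · exact c
      · exact fun h => hAB.trans h
    have hiff : ∀ i j, ¬ (i = A ∧ j = B) → ¬ (i = B ∧ j = A) → (g i < g j ↔ g' i < g' j) := by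
      intro i j h1 h2
      by_cases hiA : i = A
      · subst hiA
        by_cases hjA : j = i
        · subst hjA
          simp
        · have hjB : j ≠ B := fun hh => h1 ⟨rfl, hh⟩
          rw [e1, e3 j hjA hjB]
          exact hcmp2 j hjA hjB
      · by_cases hiB : i = B
        · subst hiB
          by_cases hjB : j = i
          · subst hjB
            simp
          · have hjA : j ≠ A := fun hh => h2 ⟨rfl, hh⟩
            rw [e2, e3 j hjA hjB]
            exact (hcmp2 j hjA hjB).symm
        · by_cases hjA : j = A
          · subst hjA
            rw [e1, e3 i hiA hiB]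
            exact hcmp i hiA hiB
          · by_cases hjB : j = B
            · subst hjB
              rw [e2, e3 i hiA hiB]
              exact (hcmp i hiA hiB).symm
            · rw [e3 i hiA hiB, e3 j hjA hjB]
    have hBA' : g' B < g' A := by
      rw [e1, e2]
      exact hAB
    have hinv := inv_swap hfAB hAB hBA' hiff
    have hpos : norm g A < m := by
      have h1 := norm_succ hAB hadj hg
      have h2 := norm_lt_card hn g B
      omega
    have hw := wd_swap hn hg hAB hBA' hiff (p := ⟨norm g A, hpos⟩) rfl
    obtain ⟨w, hw1, hw2⟩ := ih g' hg'i (by omega) hf (by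
      intro i j hij hrev
      by_cases c1 : i = A ∧ j = B
      · obtain ⟨rfl, rfl⟩ := c1
        exact hBA
      · by_cases c2 : i = B ∧ j = A
        · obtain ⟨rfl, rfl⟩ := c2
          omega
        · exact hmono i j hij ((hiff j i (fun hh => c2 ⟨hh.2, hh.1⟩) (fun hh => c1 ⟨hh.2, hh.1⟩)).2 hrev))
    exact ⟨w ++ [⟨norm g A, hpos⟩], hw.trans hw1, by simp [hw2]⟩

theorem pst_surj (hn : Fintype.card V = m + 1) {g : V → ℕ} (hg : Function.Injective g) :
    Function.Surjective (pst hn g) := by
  have hinj : Function.Injective (pst hn g) := by
    intro x y hxy
    have h1 : norm g x = norm g y := congrArg Fin.val hxy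
    rcases lt_trichotomy (g x) (g y) with c | c | c
    · have := (norm_lt g x y).2 c
      omega
    · exact hg c
    · have := (norm_lt g y x).2 c
      omega
  exact ((Fintype.bijective_iff_injective_and_card _).2 ⟨hinj, by rw [hn, Fintype.card_fin]⟩).2

/-- the word of a sequence of states -/
theorem word {k : ℕ} (hn : Fintype.card V = m + 1) {M : ℕ} {S : ℕ → V → ℕ} {T : Finset ℕ}
    (hinj : ∀ t, Function.Injective (S t))
    (hst : ∀ t < M, ∀ i j, S 0 i < S 0 j → S t j < S t i → S (t + 1) j < S (t + 1) i)
    (hend : ∀ i j, S 0 i < S 0 j → S M j < S M i) (hT : ∀ t ∈ T, t < M ∧ Ev k (S t) (S (t + 1)))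
    {p : Fin m} (hp : (p : ℕ) + 1 = k) :
    ∃ w : List (Fin m), (w.map adjSwap).prod = Fin.revPerm ∧ w.length = (m + 1) * m / 2 ∧ T.card ≤ w.count p := by
  have hstep : ∀ N ≤ M, ∃ w : List (Fin m), Wd hn (S 0) (S N) w ∧ w.length = inv (S 0) (S N) ∧
      (T.filter fun t => t < N).card ≤ w.count p := by
    intro N
    induction N with
    | zero =>
      intro _
      refine ⟨[], ?_, ?_, ?_⟩
      · intro x
        simp
      · unfold inv
        rw [List.length_nil, eq_comm, card_eq_zero, filter_eq_empty_iff]
        rintro q - ⟨h1, h2⟩
        omega
      · simp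
    | succ N ih =>
      intro hN
      obtain ⟨w, hw1, hw2, hw3⟩ := ih (by omega)
      by_cases hNT : N ∈ T
      · obtain ⟨-, A, B, hAB, hBA, hiff, hk⟩ := hT N hNT
        have hne : A ≠ B := fun h => by rw [h] at hAB; exact lt_irrefl _ hAB
        have h0 : S 0 A < S 0 B := by
          by_contra hcon
          have h1 : S 0 B < S 0 A := by
            rcases lt_trichotomy (S 0 A) (S 0 B) with c | c | c
            · exact absurd c hcon
            · exact absurd (hinj 0 c) hne
            · exact c
          have := hst N (by omega) B A h1 hAB
          omega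
        have hnp : norm (S N) A = p := by
          unfold norm
          omega
        have hw := wd_swap hn (hinj N) hAB hBA hiff hnp
        refine ⟨[p] ++ w, hw1.trans hw, ?_, ?_⟩
        · rw [inv_swap h0 hAB hBA hiff, ← hw2]
          simp
        · have : (T.filter fun t => t < N + 1) = insert N (T.filter fun t => t < N) := by
            ext t
            simp only [mem_filter, mem_insert]
            constructor
            · rintro ⟨h1, h2⟩
              rcases Nat.lt_succ_iff_lt_or_eq.1 h2 with c | c
              · exact Or.inr ⟨h1, c⟩
              · exact Or.inl c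
            · rintro (rfl | ⟨h1, h2⟩)
              · exact ⟨hNT, by omega⟩
              · exact ⟨h1, by omega⟩
          rw [this, card_insert_of_notMem (by simp), List.count_append, List.count_singleton_self]
          omega
      · have hmono : ∀ i j, S 0 i < S 0 j → S N j < S N i → S (N + 1) j < S (N + 1) i := hst N (by omega)
        have hle : inv (S 0) (S N) ≤ inv (S 0) (S (N + 1)) := by
          unfold inv
          apply card_le_card
          intro q hq
          simp only [mem_filter, mem_univ, true_and] at hq ⊢
          exact ⟨hq.1, hmono _ _ hq.1 hq.2⟩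
        obtain ⟨w', h1, h2⟩ := refine_move hn (hinj (N + 1)) (inv (S 0) (S (N + 1)) - inv (S 0) (S N)) (S N)
          (hinj N) (by omega) (hinj 0) hmono
        refine ⟨w' ++ w, hw1.trans h1, ?_, ?_⟩
        · rw [List.length_append, h2, hw2]
          omega
        · have : (T.filter fun t => t < N + 1) = T.filter fun t => t < N := by
            ext t
            simp only [mem_filter]
            constructor
            · rintro ⟨h1, h2⟩
              refine ⟨h1, ?_⟩
              rcases Nat.lt_succ_iff_lt_or_eq.1 h2 with c | c
              · exact c
              · rw [c] at h1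
                exact absurd h1 hNT
            · rintro ⟨h1, h2⟩
              exact ⟨h1, by omega⟩
          rw [this, List.count_append]
          omega
  obtain ⟨w, hw1, hw2, hw3⟩ := hstep M le_rfl
  refine ⟨w, ?_, ?_, ?_⟩
  · -- the permutation
    have hrev : ∀ x, pst hn (S M) x = Fin.rev (pst hn (S 0) x) := by
      intro x
      apply Fin.ext
      rw [Fin.val_rev]
      change norm (S M) x = m + 1 - (norm (S 0) x + 1)
      have h1 : (univ.filter fun y => S M y < S M x) = (insert x (univ.filter fun y => S 0 y < S 0 x))ᶜ := by
        ext y
        simp only [mem_filter, mem_univ, true_and, mem_compl, mem_insert, not_or, not_lt]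
        constructor
        · intro hy
          refine ⟨fun h => by rw [h] at hy; exact lt_irrefl _ hy, ?_⟩
          by_contra hcon
          push Not at hcon
          have := hend y x hcon
          omega
        · rintro ⟨h1, h2⟩
          apply hend x y
          rcases lt_or_eq_of_le h2 with c | c
          · exact c
          · exact absurd (hinj 0 c).symm h1
      unfold norm
      rw [h1, card_compl, card_insert_of_notMem (by simp), hn]
    apply Equiv.ext
    intro y
    obtain ⟨x, rfl⟩ := pst_surj hn (hinj 0) y
    rw [hw1 x, hrev x]
    rfl
  · rw [hw2]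
    unfold inv
    have h1 : (univ.filter fun q : V × V => S 0 q.1 < S 0 q.2 ∧ S M q.2 < S M q.1) =
        univ.filter fun q : V × V => S 0 q.1 < S 0 q.2 := by
      ext q
      simp only [mem_filter, mem_univ, true_and]
      exact ⟨fun h => h.1, fun h => ⟨h, hend _ _ h⟩⟩
    rw [h1]
    -- the pairs with `S 0 q.1 < S 0 q.2` are half of the pairs of different elements
    have h2 : (univ.filter fun q : V × V => S 0 q.1 < S 0 q.2).card =
        (univ.filter fun q : V × V => S 0 q.2 < S 0 q.1).card := by
      refine Finset.card_bij (fun q _ => (q.2, q.1)) ?_ ?_ ?_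
      · intro q hq
        simpa using hq
      · intro q _ q' _ h
        simp only [Prod.mk.injEq] at h
        exact Prod.ext h.2 h.1
      · intro q hq
        refine ⟨(q.2, q.1), by simpa using hq, rfl⟩
    have h3 : (univ.filter fun q : V × V => S 0 q.1 < S 0 q.2).card +
        (univ.filter fun q : V × V => S 0 q.2 < S 0 q.1).card + (m + 1) = (m + 1) * (m + 1) := by
      have h4 : (univ.filter fun q : V × V => q.1 = q.2).card = m + 1 := by
        rw [← hn, ← card_univ]
        symm
        refine Finset.card_bij (fun x _ => (x, x)) ?_ ?_ ?_
        · intro x _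
          simp
        · intro x _ y _ h
          exact (Prod.mk.inj h).1
        · intro q hq
          refine ⟨q.1, mem_univ _, ?_⟩
          have : q.1 = q.2 := by simpa using hq
          exact Prod.ext rfl this
      have h5 : (univ : Finset (V × V)) = (univ.filter fun q : V × V => S 0 q.1 < S 0 q.2) ∪
          (univ.filter fun q : V × V => S 0 q.2 < S 0 q.1) ∪ (univ.filter fun q : V × V => q.1 = q.2) := by
        ext q
        simp only [mem_filter, mem_univ, true_and, mem_union, true_iff]
        rcases lt_trichotomy (S 0 q.1) (S 0 q.2) with c | c | c
        · exact Or.inl (Or.inl c)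
        · exact Or.inr (hinj 0 c)
        · exact Or.inl (Or.inr c)
      have h6 : (univ : Finset (V × V)).card = (m + 1) * (m + 1) := by
        rw [card_univ, Fintype.card_prod, hn]
      have h8 := congrArg Finset.card h5
      rw [h6] at h8
      rw [h8, card_union_of_disjoint, card_union_of_disjoint, h4]
      · rw [Finset.disjoint_filter]
        intro q _ h1 h2
        omega
      · rw [Finset.disjoint_union_left]
        constructor
        · rw [Finset.disjoint_filter]
          intro q _ h1 h2
          rw [h2] at h1
          exact lt_irrefl _ h1
        · rw [Finset.disjoint_filter]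
          intro q _ h1 h2
          rw [h2] at h1
          exact lt_irrefl _ h1
    have h7 : (m + 1) * m = 2 * (univ.filter fun q : V × V => S 0 q.1 < S 0 q.2).card := by
      have : (m + 1) * (m + 1) = (m + 1) * m + (m + 1) := by ring
      omega
    rw [h7]
    omega
  · have : (T.filter fun t => t < M) = T := by
      apply Finset.filter_true_of_mem
      intro t ht
      exact (hT t ht).1
    rwa [this] at hw3

/-- from a path to a word -/
theorem PGood.word {n k E : ℕ} (h : PGood n k E) (hn : n = m + 1) {p : Fin m} (hp : (p : ℕ) + 1 = k) :
    ∃ w : List (Fin m), (w.map adjSwap).prod = Fin.revPerm ∧ w.length = (m + 1) * m / 2 ∧ E ≤ w.count p := by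
  obtain ⟨V, _, _, σ, f, g, e, hnV, path, hE⟩ := h
  obtain ⟨N, s, T, h1, h2, h3, h4, h5, h6⟩ := Path.seq path
  set M := univ.sup f with hM
  have hle : ∀ v, f v ≤ M := fun v => Finset.le_sup (mem_univ v)
  have hmono : ∀ t ≤ N, ∀ i j, σ i ≤ σ j → f i < f j → s t i < s t j := by
    intro t
    induction t with
    | zero =>
      intro _ i j _ hlt
      rw [h1]
      exact hlt
    | succ t ih =>
      intro ht i j hij hlt
      exact h4 t (by omega) i j hij (ih (by omega) i j hij hlt)
  obtain ⟨w, hw1, hw2, hw3⟩ := Pool.Agent.L0h27.PP.word (k := k) (hnV.trans hn) (M := N + 1)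
    (S := fun t => if t ≤ N then s t else fun v => M - f v) (T := T) (by
      intro t
      by_cases ht : t ≤ N
      · simp only [ht, if_true]
        exact h3 t
      · simp only [ht, if_false]
        intro u v huv
        have := hle u
        have := hle v
        have h7 := h3 0
        rw [h1] at h7
        apply h7
        simp only at huv
        omega) (by
      intro t ht i j hij hrev
      simp only [Nat.zero_le, if_true, h1] at hij
      by_cases hN : t < N
      · simp only [show t ≤ N by omega, show t + 1 ≤ N by omega, if_true] at hrev ⊢
        rcases le_total (σ j) (σ i) with c | c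
        · exact h4 t hN j i c hrev
        · have := hmono t (by omega) i j c hij
          omega
      · simp only [show ¬ t + 1 ≤ N by omega, if_false]
        have := hle i
        have := hle j
        omega) (by
      intro i j hij
      simp only [Nat.zero_le, if_true, h1] at hij
      simp only [show ¬ N + 1 ≤ N by omega, if_false]
      have := hle i
      have := hle j
      omega) (by
      intro t ht
      obtain ⟨c1, c2⟩ := h5 t ht
      refine ⟨by omega, ?_⟩
      simp only [show t ≤ N by omega, show t + 1 ≤ N by omega, if_true]
      exact c2) hp
  exact ⟨w, hw1, hw2, by rw [h6] at hw3; exact hE.trans hw3⟩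

end

end Pool.Agent.L0h27.PP
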