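import Pool.Agent.L0h27.PP.Asym
import Pool.Agent.L0h27.PP.Word

/-!
# The asymptotic lower bound for words
-/

set_option autoImplicit false

open Finset

namespace Pool.Agent.L0h27.PP

theorem growth2 (j : ℕ) (hj : 110 ≤ j) :
    4 * 10000 * 10000 ^ j * (1203 / 1000 : ℝ) ^ (j + 3) ≤ 981 * (12259 ^ j * 13) := by
  induction j, hj using Nat.le_induction with
  | base => norm_num
  | succ j _ ih =>
    have h1 : (4 * 10000 * 10000 ^ (j + 1) * (1203 / 1000 : ℝ) ^ (j + 1 + 3)) =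
        12030 * (4 * 10000 * 10000 ^ j * (1203 / 1000 : ℝ) ^ (j + 3)) := by ring
    have h2 : (981 * (12259 ^ (j + 1) * 13) : ℝ) = 12259 * (981 * (12259 ^ j * 13)) := by ring
    rw [h1, h2]
    have h3 : (0 : ℝ) ≤ 4 * 10000 * 10000 ^ j * (1203 / 1000 : ℝ) ^ (j + 3) := by positivity
    nlinarith

theorem core2 {k : ℕ} (hk : 10000 ^ 111 ≤ k) :
    ∃ E : ℕ, PGood (2 * k) k E ∧ ((2 * k : ℕ) : ℝ) ^ (1 + (1 : ℝ) / 50) ≤ E := by
  have hk0 : k ≠ 0 := by
    intro h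
    rw [h] at hk
    exact absurd hk (by norm_num)
  have h1 : 10000 ^ Nat.log 10000 k ≤ k := Nat.pow_log_le_self 10000 hk0
  have h2 : k < 10000 ^ (Nat.log 10000 k + 1) := Nat.lt_pow_succ_log_self (by norm_num) k
  have h3 : 111 ≤ Nat.log 10000 k := Nat.le_log_of_pow_le (by norm_num) hk
  obtain ⟨j, hl⟩ : ∃ j, Nat.log 10000 k = j + 1 := ⟨Nat.log 10000 k - 1, by omega⟩
  rw [hl] at h1 h2 h3
  have hj : 110 ≤ j := by omega
  set n := 2 * k with hn
  set B := 10000 ^ (j + 1) with hB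
  have hB0 : 0 < B := by positivity
  set M := (n - k) / B with hM
  have h4 : M * B ≤ n - k := Nat.div_mul_le_self _ _
  have h5 : n - k < (M + 1) * B := by
    rw [hM]
    have := Nat.lt_div_mul_add (a := n - k) hB0
    rw [add_mul, one_mul]
    exact this
  have h6 : 1 ≤ M := by
    rw [hM, Nat.one_le_div_iff hB0]
    omega
  have hg := (tower10 j M).pad (k - B) (n - k - M * B)
  have e1 : (M + 1) * 10000 ^ (j + 1) + (k - B) + (n - k - M * B) = n := by
    rw [← hB, add_mul, one_mul]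
    omega
  have e2 : 10000 ^ (j + 1) + (k - B) = k := by
    rw [← hB]
    omega
  rw [e1, e2] at hg
  refine ⟨_, hg, ?_⟩
  have h7 : n ≤ 4 * (M * B) := by
    have : (M + 1) * B ≤ 2 * (M * B) := by
      rw [add_mul, one_mul]
      have : B ≤ M * B := Nat.le_mul_of_pos_left _ h6
      omega
    omega
  have h8 : (n : ℝ) ^ ((1 : ℝ) / 50) ≤ (1203 / 1000 : ℝ) ^ (j + 3) := by
    apply pow_bound _ _ (by positivity)
    have : n ≤ 10000 ^ (j + 3) := by
      have e3 : 10000 ^ (j + 3) = 10000 * 10000 ^ (j + 1 + 1) := by ring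
      omega
    exact_mod_cast this
  have h9 : (n : ℝ) ≤ 4 * (M * B) := by exact_mod_cast h7
  have hn0 : (0 : ℝ) < n := by
    have : 0 < n := by omega
    exact_mod_cast this
  rw [Real.rpow_add hn0, Real.rpow_one]
  calc (n : ℝ) * (n : ℝ) ^ ((1 : ℝ) / 50)
      ≤ (4 * (M * B)) * (1203 / 1000 : ℝ) ^ (j + 3) := mul_le_mul h9 h8 (by positivity) (by positivity)
    _ = (4 * 10000 * 10000 ^ j * (1203 / 1000 : ℝ) ^ (j + 3)) * M := by
        rw [hB]
        push_cast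
        ring
    _ ≤ (981 * (12259 ^ j * 13)) * M := mul_le_mul_of_nonneg_right (growth2 j hj) (Nat.cast_nonneg _)
    _ = ((981 * (12259 ^ j * 13) * M : ℕ) : ℝ) := by push_cast; ring

theorem main2 : ∃ r₀ : ℕ, ∀ r : ℕ, r₀ ≤ r → ∃ w : List (Fin (2 * r + 1)), IsAllowable w ∧
    ((2 * r + 2 : ℕ) : ℝ) ^ (1 + (1 : ℝ) / 50) ≤ (w.map Fin.val).count r := by
  refine ⟨10000 ^ 111, fun r hr => ?_⟩
  obtain ⟨E, hE, hb⟩ := core2 (k := r + 1) (by omega)
  obtain ⟨w, h1, h2, h3⟩ := hE.word (m := 2 * r + 1) (by ring) (p := ⟨r, by omega⟩) rfl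
  refine ⟨w, ⟨h1, h2⟩, ?_⟩
  calc ((2 * r + 2 : ℕ) : ℝ) ^ (1 + (1 : ℝ) / 50) = ((2 * (r + 1) : ℕ) : ℝ) ^ (1 + (1 : ℝ) / 50) := by
        rw [show 2 * r + 2 = 2 * (r + 1) by ring]
    _ ≤ E := hb
    _ ≤ ((w.map Fin.val).count r : ℕ) := by
        have e3 := List.count_map_of_injective w Fin.val Fin.val_injective ⟨r, by omega⟩
        rw [e3]
        exact_mod_cast h3

end Pool.Agent.L0h27.PP
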