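import Pool.Agent.L0h27.PP.Step

/-!
# The base of the construction
-/

set_option autoImplicit false
set_option linter.unusedSectionVars false

open Finset

namespace Pool.Agent.L0h27.PP

open Pool.Agent.L0h27.PL

/-- renaming the elements -/
theorem Path.equiv {V V' : Type} [Fintype V] [DecidableEq V] [Fintype V'] [DecidableEq V'] {σ : V → ℕ} {k : ℕ}
    (φ : V' ≃ V) {f g e : V → ℕ} (p : Path σ k f g e) :
    Path (fun x => σ (φ x)) k (fun x => f (φ x)) (fun x => g (φ x)) (fun x => e (φ x)) := by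
  induction p with
  | nil hf => exact Path.nil _ (hf.comp φ.injective)
  | move h p hi hm ih =>
    exact Path.move _ ih (hi.comp φ.injective) fun i j h1 h2 => hm _ _ h1 h2
  | @event g e h A B p hi h1 h2 h3 h4 h5 ih =>
    have := Path.event (fun x => h (φ x)) (φ.symm A) (φ.symm B) ih (hi.comp φ.injective) (by simpa using h1)
      (by simpa using h2) (by simpa using h3) (by
        intro i j hi hj
        apply h4
        · rintro ⟨c1, c2⟩
          exact hi ⟨by rw [← c1]; simp, by rw [← c2]; simp⟩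
        · rintro ⟨c1, c2⟩
          exact hj ⟨by rw [← c1]; simp, by rw [← c2]; simp⟩) (by
        rw [← h5]
        congr 1
        have : (univ.filter fun i => g i < g A) =
            (univ.filter fun x => g (φ x) < g (φ (φ.symm A))).map φ.toEmbedding := by
          ext y
          simp only [mem_filter, mem_univ, true_and, mem_map_equiv, Equiv.apply_symm_apply]
        rw [this, card_map])
    refine cast ?_ this
    congr 1
    funext x
    simp only [Pi.add_apply]
    congr 1
    by_cases hx : x = φ.symm A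
    · subst hx
      simp
    · rw [Pi.single_eq_of_ne hx, Pi.single_eq_of_ne]
      intro hh
      exact hx (by rw [← hh]; simp)

/-- the base structure -/
theorem base_str {n₀ k₀ E₀ m₀ S : ℕ} {σ g e : Fin n₀ → ℕ} (p₀ : Path σ k₀ (fun i => (i : ℕ)) g e)
    (hσ : Function.Injective σ) (hm : ∀ a, σ a ≤ m₀) (hE₀ : E₀ ≤ ∑ a, e a) (hS : 2 * m₀ ≤ S) (hk₀ : k₀ ≤ n₀) :
    Str (Fin n₀) S 1 k₀ E₀ (fun a => 2 * σ a) σ (fun a z => z * n₀ + a) where
  hpos := Nat.one_pos
  Cinj := hσ
  sle := by
    intro a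
    have := hm a
    omega
  shift := by
    intro a z
    rw [Fintype.card_fin]
    ring
  low := by
    intro a z hz
    rw [Fintype.card_fin]
    have := a.isLt
    obtain rfl : z = 0 := by omega
    omega
  inj := by
    intro a a' z z' h
    obtain ⟨h1, h2⟩ := lexi_eq a.isLt a'.isLt h
    exact ⟨Fin.ext h2, h1⟩
  mono := by
    intro a z z' h
    exact (lexi a.isLt a.isLt).2 (Or.inl h)
  drift := by
    intro a a' z z' hC hk
    rw [lexi a'.isLt a.isLt] at hk ⊢
    left
    omega
  kle := by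
    rw [Fintype.card_fin]
    omega
  path := by
    have q : Path (fun x : Fin n₀ × Fin 1 => σ x.1) k₀ (fun x => (x.1 : ℕ)) (fun x => g x.1) (fun x => e x.1) :=
      Path.equiv (Equiv.prodUnique (Fin n₀) (Fin 1)) p₀
    have h0 : ∀ x : Fin n₀ × Fin 1, (x.2 : ℕ) = 0 := fun x => by omega
    have e0 : (fun x : Fin n₀ × Fin 1 => (x.2 : ℕ) * n₀ + x.1) = fun x => (x.1 : ℕ) := by
      funext x
      rw [h0 x, zero_mul, zero_add]
    refine ⟨fun x => e x.1, ?_, ?_⟩
    · rw [e0]
      refine Path.move _ q ?_ ?_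
      · intro x y hxy
        simp only [h0, zero_add] at hxy
        obtain ⟨h1, h2⟩ := lexi_eq x.1.isLt y.1.isLt hxy
        exact Prod.ext (Fin.ext h2) (Subsingleton.elim _ _)
      · intro x y hxy hlt
        simp only [h0, zero_add]
        rw [lexi x.1.isLt y.1.isLt]
        left
        rcases lt_or_eq_of_le hxy with h1 | h1
        · omega
        · rw [hσ h1] at hlt
          exact absurd hlt (lt_irrefl _)
    · have := Equiv.sum_comp (Equiv.prodUnique (Fin n₀) (Fin 1)) e
      have h1 : ∑ x : Fin n₀ × Fin 1, e x.1 = ∑ a, e a := this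
      rw [h1]
      exact hE₀

/-- the tower of structures -/
theorem tower {n₀ k₀ E₀ m₀ P : ℕ} {σ g e : Fin n₀ → ℕ} (p₀ : Path σ k₀ (fun i => (i : ℕ)) g e)
    (hσ : Function.Injective σ) (hm : ∀ a, σ a ≤ m₀) (he : ∀ a, e a ≤ P) (hE₀ : E₀ ≤ ∑ a, e a) (hk₀ : k₀ ≤ n₀)
    {L : ℕ} (hP : P * (2 * m₀ + 1) ≤ L) (hL : 0 < L) (j : ℕ) :
    ∃ (W : Type) (_ : Fintype W) (_ : DecidableEq W) (h k : ℕ) (s C : W → ℕ) (key : W → ℕ → ℕ),
      Str W (2 * m₀ + 1) h k (((L - P * (2 * m₀ + 1)) * E₀) ^ j * E₀) s C key ∧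
      Fintype.card W * h = (n₀ * L) ^ j * n₀ ∧ n₀ * k = k₀ * (Fintype.card W * h) := by
  induction j with
  | zero =>
    refine ⟨Fin n₀, inferInstance, inferInstance, 1, k₀, fun a => 2 * σ a, σ, fun a z => z * n₀ + a, ?_, ?_, ?_⟩
    · rw [pow_zero, one_mul]
      exact base_str p₀ hσ hm hE₀ (by omega) hk₀
    · rw [Fintype.card_fin, pow_zero, one_mul, mul_one]
    · rw [Fintype.card_fin, mul_one, mul_comm]
  | succ j ih =>
    obtain ⟨W, _, _, h, k, s, C, key, H, h1, h2⟩ := ih
    have hR : ∀ w, C w < univ.sup C + 1 := fun w => Nat.lt_succ_of_le (Finset.le_sup (mem_univ w))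
    have H' := H.comp p₀ hσ hm he hE₀ le_rfl hP hL hk₀ hR
    refine ⟨Fin n₀ × W, inferInstance, inferInstance, L * h, k₀ * (L * (Fintype.card W * h)), sC L h s σ e,
      CC (univ.sup C + 1) C σ, keyC L h key, ?_, ?_, ?_⟩
    · have e1 : ((L - P * (2 * m₀ + 1)) * E₀) ^ (j + 1) * E₀ =
          (L - P * (2 * m₀ + 1)) * (((L - P * (2 * m₀ + 1)) * E₀) ^ j * E₀) * E₀ := by ring
      rw [e1]
      exact H'
    · rw [card_comp, h1]
      ring
    · rw [card_comp]
      ring

end Pool.Agent.L0h27.PP
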