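import Mathlib.Topology.Instances.Real.Lemmas
import Mathlib.Data.Fintype.Card

/-!
# Arrangements of pseudolines and their levels
-/

set_option autoImplicit false

open Finset

namespace Pool.Agent.L0h27.PP

/-- The graphs of the continuous functions `f i` are pseudolines: any two of them meet in exactly one point, and there
they cross. -/
def Pseudolines {ι : Type} (f : ι → ℝ → ℝ) : Prop :=
  (∀ i, Continuous (f i)) ∧ ∀ i j, i ≠ j → ∃ x₀ : ℝ,
    ((∀ x < x₀, f i x < f j x) ∧ ∀ x > x₀, f j x < f i x) ∨
    ((∀ x < x₀, f j x < f i x) ∧ ∀ x > x₀, f i x < f j x)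

/-- The level of the point `(x, f i x)`: the number of pseudolines passing strictly below it. -/
noncomputable def level {ι : Type} [Fintype ι] (f : ι → ℝ → ℝ) (i : ι) (x : ℝ) : ℕ :=
  {l : ι | f l x < f i x}.ncard

/-- `x` is the abscissa of a vertex of the `k`-level: the point of the arrangement with exactly `k` pseudolines
strictly below it is on one pseudoline to the left of `x` and on another one to the right of `x`. -/
def IsVertex {ι : Type} [Fintype ι] (f : ι → ℝ → ℝ) (k : ℕ) (x : ℝ) : Prop :=
  ∃ i j : ι, i ≠ j ∧ ∃ ε > 0, (∀ y, x - ε < y → y < x → level f i y = k) ∧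
    ∀ y, x < y → y < x + ε → level f j y = k

end Pool.Agent.L0h27.PP
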