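import Mathlib.Topology.Algebra.Monoid
import Mathlib.Topology.Order.Lattice
import Mathlib.Topology.Instances.Real.Lemmas
import Mathlib.Algebra.Order.Floor.Semiring
import Mathlib.Tactic.FieldSimp
import Mathlib.Tactic.Linarith
import Mathlib.Tactic.Ring
import Mathlib.Tactic.Positivity

/-!
# Piecewise linear interpolation
-/

set_option autoImplicit false

open Finset

namespace Pool.Agent.L0h27.PP

/-- `0` for negative numbers, `1` for numbers `≥ 1` -/
noncomputable def clamp (u : ℝ) : ℝ := max 0 (min 1 u)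

theorem clamp_nonpos {u : ℝ} (h : u ≤ 0) : clamp u = 0 := by
  unfold clamp
  exact max_eq_left ((min_le_right _ _).trans h)

theorem clamp_one {u : ℝ} (h : 1 ≤ u) : clamp u = 1 := by
  unfold clamp
  rw [min_eq_left h]
  exact max_eq_right zero_le_one

theorem clamp_mid {u : ℝ} (h0 : 0 ≤ u) (h1 : u ≤ 1) : clamp u = u := by
  unfold clamp
  rw [min_eq_right h1]
  exact max_eq_right h0

/-- the function with the value `D t` at `t = 0, …, M` which is linear in between -/
noncomputable def ip (D : ℕ → ℝ) (M : ℕ) (x : ℝ) : ℝ := D 0 + ∑ t ∈ range M, (D (t + 1) - D t) * clamp (x - t)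

theorem ip_continuous (D : ℕ → ℝ) (M : ℕ) : Continuous (ip D M) := by
  unfold ip clamp
  fun_prop

theorem ip_sub (D D' : ℕ → ℝ) (M : ℕ) (x : ℝ) : ip D M x - ip D' M x = ip (fun t => D t - D' t) M x := by
  unfold ip
  rw [add_sub_add_comm, ← Finset.sum_sub_distrib]
  congr 1
  refine Finset.sum_congr rfl fun t _ => ?_
  ring

theorem ip_left (D : ℕ → ℝ) (M : ℕ) {x : ℝ} (hx : x ≤ 0) : ip D M x = D 0 := by
  unfold ip
  rw [Finset.sum_eq_zero, add_zero]
  intro t _
  rw [clamp_nonpos, mul_zero]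
  have : (0 : ℝ) ≤ t := Nat.cast_nonneg t
  linarith

theorem ip_right (D : ℕ → ℝ) (M : ℕ) {x : ℝ} (hx : (M : ℝ) ≤ x) : ip D M x = D M := by
  induction M with
  | zero => simp [ip]
  | succ M ih =>
    push_cast at hx
    have h1 := ih (by linarith)
    unfold ip at h1 ⊢
    rw [Finset.sum_range_succ, ← add_assoc, h1, clamp_one (by linarith)]
    ring

theorem ip_mid (D : ℕ → ℝ) {M t : ℕ} (ht : t < M) {x : ℝ} (h1 : (t : ℝ) ≤ x) (h2 : x ≤ t + 1) :
    ip D M x = D t + (D (t + 1) - D t) * (x - t) := by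
  induction M with
  | zero => exact absurd ht (Nat.not_lt_zero _)
  | succ M ih =>
    rcases Nat.lt_succ_iff_lt_or_eq.1 ht with h | h
    · have h3 := ih h
      unfold ip at h3 ⊢
      have h4 : ((t : ℝ) + 1) ≤ M := by exact_mod_cast h
      rw [Finset.sum_range_succ, ← add_assoc, h3, clamp_nonpos (by linarith)]
      ring
    · subst h
      have h3 := ip_right D t h1
      unfold ip at h3 ⊢
      rw [Finset.sum_range_succ, ← add_assoc, h3, clamp_mid (by linarith) (by linarith)]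

theorem conv_pos {a b u : ℝ} (ha : 0 < a) (hb : 0 < b) (h0 : 0 ≤ u) (h1 : u ≤ 1) : 0 < a + (b - a) * u := by
  have h2 : a + (b - a) * u = a * (1 - u) + b * u := by ring
  rw [h2]
  rcases eq_or_lt_of_le h0 with h | h
  · rw [← h]
    linarith
  · have h3 : 0 ≤ a * (1 - u) := mul_nonneg ha.le (by linarith)
    have h4 : 0 < b * u := mul_pos hb h
    linarith

theorem ip_pos (D : ℕ → ℝ) {M m : ℕ} (hm : m ≤ M) (hD : ∀ t ≤ m, 0 < D t) {x : ℝ} (hx : x ≤ m) :
    0 < ip D M x := by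
  rcases le_or_gt x 0 with h0 | h0
  · rw [ip_left D M h0]
    exact hD 0 (Nat.zero_le _)
  · have h1 : ((⌊x⌋₊ : ℕ) : ℝ) ≤ x := Nat.floor_le h0.le
    have h2 : x < (⌊x⌋₊ : ℕ) + 1 := Nat.lt_floor_add_one x
    have h3 : ⌊x⌋₊ ≤ m := by
      have : ((⌊x⌋₊ : ℕ) : ℝ) ≤ m := h1.trans hx
      exact_mod_cast this
    rcases lt_or_eq_of_le h3 with h4 | h4
    · rw [ip_mid D (lt_of_lt_of_le h4 hm) h1 h2.le]
      exact conv_pos (hD _ h3) (hD _ h4) (by linarith) (by linarith)
    · have h5 : x = m := le_antisymm hx (by rw [← h4]; exact h1)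
      rcases lt_or_eq_of_le hm with h6 | h6
      · rw [h5, ip_mid D h6 le_rfl (by linarith), sub_self, mul_zero, add_zero]
        exact hD m le_rfl
      · rw [h5, h6, ip_right D M le_rfl, ← h6]
        exact hD m le_rfl

theorem ip_neg_eq (D : ℕ → ℝ) (M : ℕ) (x : ℝ) : ip (fun t => -D t) M x = -ip D M x := by
  unfold ip
  rw [neg_add, ← Finset.sum_neg_distrib]
  congr 1
  refine Finset.sum_congr rfl fun t _ => ?_
  ring

theorem ip_neg (D : ℕ → ℝ) {M m : ℕ} (hm : m ≤ M) (hD : ∀ t, m ≤ t → t ≤ M → D t < 0) {x : ℝ} (hx : (m : ℝ) ≤ x) :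
    ip D M x < 0 := by
  rcases le_or_gt (M : ℝ) x with h0 | h0
  · rw [ip_right D M h0]
    exact hD M hm le_rfl
  · have hx0 : 0 ≤ x := le_trans (Nat.cast_nonneg m) hx
    have h1 : ((⌊x⌋₊ : ℕ) : ℝ) ≤ x := Nat.floor_le hx0
    have h2 : x < (⌊x⌋₊ : ℕ) + 1 := Nat.lt_floor_add_one x
    have h3 : m ≤ ⌊x⌋₊ := Nat.le_floor hx
    have h4 : ⌊x⌋₊ < M := by
      have : ((⌊x⌋₊ : ℕ) : ℝ) < M := lt_of_le_of_lt h1 h0
      exact_mod_cast this
    rw [ip_mid D h4 h1 h2.le]
    have h5 := conv_pos (a := -D ⌊x⌋₊) (b := -D (⌊x⌋₊ + 1)) (u := x - (⌊x⌋₊ : ℕ))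
      (by have := hD _ h3 h4.le; linarith) (by have := hD _ (h3.trans (Nat.le_succ _)) h4; linarith)
      (by linarith) (by linarith)
    linarith

/-- the crossing of an interpolation whose values change the sign once -/
theorem cross (D : ℕ → ℝ) {M m : ℕ} (hm : m < M) (hpos : ∀ t ≤ m, 0 < D t)
    (hneg : ∀ t, m + 1 ≤ t → t ≤ M → D t < 0) :
    ∃ x₀ : ℝ, (m : ℝ) < x₀ ∧ x₀ < m + 1 ∧ (∀ x < x₀, 0 < ip D M x) ∧ ∀ x > x₀, ip D M x < 0 := by
  have h1 := hpos m le_rfl
  have h2 := hneg (m + 1) le_rfl hm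
  have h3 : 0 < D m - D (m + 1) := by linarith
  have h4 : 0 < D m / (D m - D (m + 1)) := div_pos h1 h3
  have h5 : D m / (D m - D (m + 1)) < 1 := by
    rw [div_lt_one h3]
    linarith
  have h6 : D m / (D m - D (m + 1)) * (D m - D (m + 1)) = D m := div_mul_cancel₀ _ h3.ne'
  refine ⟨m + D m / (D m - D (m + 1)), by linarith, by linarith, ?_, ?_⟩
  · intro x hx
    rcases le_or_gt x m with h | h
    · exact ip_pos D hm.le hpos h
    · rw [ip_mid D hm h.le (by linarith)]
      have h7 : (x - m) * (D m - D (m + 1)) < D m / (D m - D (m + 1)) * (D m - D (m + 1)) :=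
        mul_lt_mul_of_pos_right (by linarith) h3
      rw [h6] at h7
      linarith
  · intro x hx
    rcases le_or_gt ((m : ℝ) + 1) x with h | h
    · exact ip_neg D (m := m + 1) hm (fun t h1 h2 => hneg t h1 h2) (by push_cast; exact h)
    · rw [ip_mid D hm (by linarith) h.le]
      have h7 : D m / (D m - D (m + 1)) * (D m - D (m + 1)) < (x - m) * (D m - D (m + 1)) :=
        mul_lt_mul_of_pos_right (by linarith) h3
      rw [h6] at h7
      linarith

end Pool.Agent.L0h27.PP
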