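import Pool.Agent.L0h27.PP.Pad
import Pool.Agent.L0h27.PP.Interp
import Pool.Agent.L0h27.PP.Defs

/-!
# From paths to arrangements of pseudolines
-/

set_option autoImplicit false
set_option linter.unusedSectionVars false

open Finset

namespace Pool.Agent.L0h27.PP

open Pool.Agent.L0h27.PL

section

variable {V : Type} [Fintype V] [DecidableEq V] {σ : V → ℕ} {k : ℕ}

/-- the `k`-th and the `(k+1)`-th lowest elements are exchanged -/
def Ev (k : ℕ) (g h : V → ℕ) : Prop :=
  ∃ A B, g A < g B ∧ h B < h A ∧
    (∀ i j, ¬ (i = A ∧ j = B) → ¬ (i = B ∧ j = A) → (g i < g j ↔ h i < h j)) ∧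
    (univ.filter fun i => g i < g A).card + 1 = k

/-- the sequence of the states of a path -/
theorem Path.seq {f g e : V → ℕ} (p : Path σ k f g e) : ∃ (N : ℕ) (s : ℕ → V → ℕ) (T : Finset ℕ),
    s 0 = f ∧ s N = g ∧ (∀ t, Function.Injective (s t)) ∧
      (∀ t < N, ∀ i j, σ i ≤ σ j → s t i < s t j → s (t + 1) i < s (t + 1) j) ∧
      (∀ t ∈ T, t < N ∧ Ev k (s t) (s (t + 1))) ∧ T.card = ∑ a, e a := by
  induction p with
  | nil hf =>
    exact ⟨0, fun _ => f, ∅, rfl, rfl, fun _ => hf, fun t ht => absurd ht (Nat.not_lt_zero _),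
      fun t ht => absurd ht (by simp), by simp⟩
  | @move g e h p hi hm ih =>
    obtain ⟨N, s, T, h1, h2, h3, h4, h5, h6⟩ := ih
    refine ⟨N + 1, fun t => if t ≤ N then s t else h, T, ?_, ?_, ?_, ?_, ?_, h6⟩
    · simp [h1]
    · simp
    · intro t
      by_cases ht : t ≤ N
      · simp only [ht, if_true]
        exact h3 t
      · simp only [ht, if_false]
        exact hi
    · intro t ht i j hij hlt
      by_cases hN : t < N
      · simp only [show t ≤ N by omega, show t + 1 ≤ N by omega, if_true] at hlt ⊢
        exact h4 t hN i j hij hlt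
      · have : t = N := by omega
        subst this
        simp only [le_rfl, if_true, show ¬ t + 1 ≤ t by omega, if_false] at hlt ⊢
        rw [h2] at hlt
        exact hm i j hij hlt
    · intro t ht
      obtain ⟨c1, c2⟩ := h5 t ht
      refine ⟨by omega, ?_⟩
      simp only [show t ≤ N by omega, show t + 1 ≤ N by omega, if_true]
      exact c2
  | @event g e h A B p hi e1 e2 e3 e4 e5 ih =>
    obtain ⟨N, s, T, h1, h2, h3, h4, h5, h6⟩ := ih
    refine ⟨N + 1, fun t => if t ≤ N then s t else h, insert N T, ?_, ?_, ?_, ?_, ?_, ?_⟩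
    · simp [h1]
    · simp
    · intro t
      by_cases ht : t ≤ N
      · simp only [ht, if_true]
        exact h3 t
      · simp only [ht, if_false]
        exact hi
    · intro t ht i j hij hlt
      by_cases hN : t < N
      · simp only [show t ≤ N by omega, show t + 1 ≤ N by omega, if_true] at hlt ⊢
        exact h4 t hN i j hij hlt
      · have : t = N := by omega
        subst this
        simp only [le_rfl, if_true, show ¬ t + 1 ≤ t by omega, if_false] at hlt ⊢
        rw [h2] at hlt
        by_cases c1 : i = A ∧ j = B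
        · obtain ⟨rfl, rfl⟩ := c1
          omega
        · by_cases c2 : i = B ∧ j = A
          · obtain ⟨rfl, rfl⟩ := c2
            exact e3
          · exact (e4 i j c1 c2).1 hlt
    · intro t ht
      rcases mem_insert.1 ht with c | c
      · subst c
        refine ⟨by omega, A, B, ?_⟩
        simp only [le_rfl, if_true, show ¬ t + 1 ≤ t by omega, if_false]
        rw [h2]
        exact ⟨e2, e3, e4, e5⟩
      · obtain ⟨c1, c2⟩ := h5 t c
        refine ⟨by omega, ?_⟩
        simp only [show t ≤ N by omega, show t + 1 ≤ N by omega, if_true]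
        exact c2
    · rw [card_insert_of_notMem (fun hN => absurd (h5 N hN).1 (lt_irrefl _)), h6]
      simp only [Pi.add_apply]
      rw [sum_add_distrib, Finset.sum_pi_single' A 1 univ, if_pos (mem_univ _)]

/-- the same vertex as `IsVertex`, without ties -/
def VertexS {ι : Type} [Fintype ι] (f : ι → ℝ → ℝ) (k : ℕ) (x : ℝ) : Prop :=
  ∃ i j : ι, i ≠ j ∧ ∃ ε > 0, (∀ y, x - ε < y → y < x → level f i y = k ∧ ∀ l, l ≠ i → f l y ≠ f i y) ∧
    ∀ y, x < y → y < x + ε → level f j y = k ∧ ∀ l, l ≠ j → f l y ≠ f j y

theorem VertexS.isVertex {ι : Type} [Fintype ι] {f : ι → ℝ → ℝ} {k : ℕ} {x : ℝ} (h : VertexS f k x) :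
    IsVertex f k x := by
  obtain ⟨i, j, hij, ε, hε, h1, h2⟩ := h
  exact ⟨i, j, hij, ε, hε, fun y a b => (h1 y a b).1, fun y a b => (h2 y a b).1⟩

theorem level_neg {ι : Type} [Fintype ι] {f : ι → ℝ → ℝ} {i : ι} {y : ℝ} (h : ∀ l, l ≠ i → f l y ≠ f i y) :
    level (fun i x => -f i x) i y = Fintype.card ι - 1 - level f i y := by
  classical
  unfold level
  have h1 : {l : ι | -f l y < -f i y} = ({l : ι | f l y < f i y} ∪ {i})ᶜ := by
    ext l
    simp only [Set.mem_ofPred_eq, neg_lt_neg_iff, Set.mem_compl_iff, Set.mem_union, Set.mem_singleton_iff, not_or,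
      not_lt]
    constructor
    · intro hl
      exact ⟨hl.le, fun hh => by rw [hh] at hl; exact lt_irrefl _ hl⟩
    · rintro ⟨hl, hne⟩
      exact lt_of_le_of_ne hl (h l hne).symm
  rw [h1, Set.ncard_compl, Set.ncard_union_eq _ (Set.toFinite _) (Set.toFinite _), Set.ncard_singleton,
    Nat.card_eq_fintype_card]
  · omega
  · rw [Set.disjoint_singleton_right]
    simp

theorem VertexS.neg {ι : Type} [Fintype ι] {f : ι → ℝ → ℝ} {k : ℕ} {x : ℝ} (h : VertexS f k x) :
    IsVertex (fun i x => -f i x) (Fintype.card ι - 1 - k) x := by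
  obtain ⟨i, j, hij, ε, hε, h1, h2⟩ := h
  refine ⟨i, j, hij, ε, hε, fun y a b => ?_, fun y a b => ?_⟩
  · rw [level_neg (h1 y a b).2, (h1 y a b).1]
  · rw [level_neg (h2 y a b).2, (h2 y a b).1]

theorem Pseudolines.neg {ι : Type} {f : ι → ℝ → ℝ} (h : Pseudolines f) : Pseudolines (fun i x => -f i x) := by
  refine ⟨fun i => (h.1 i).neg, fun i j hij => ?_⟩
  obtain ⟨x₀, h1 | h1⟩ := h.2 i j hij
  · exact ⟨x₀, Or.inr ⟨fun x hx => neg_lt_neg (h1.1 x hx), fun x hx => neg_lt_neg (h1.2 x hx)⟩⟩
  · exact ⟨x₀, Or.inl ⟨fun x hx => neg_lt_neg (h1.1 x hx), fun x hx => neg_lt_neg (h1.2 x hx)⟩⟩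

/-- the arrangement of a sequence of states -/
theorem arrangement {M : ℕ} {S : ℕ → V → ℕ} {T : Finset ℕ} (hinj : ∀ t, Function.Injective (S t))
    (hst : ∀ t < M, ∀ i j, S 0 i < S 0 j → S t j < S t i → S (t + 1) j < S (t + 1) i)
    (hend : ∀ i j, S 0 i < S 0 j → S M j < S M i) (hT : ∀ t ∈ T, t < M ∧ Ev k (S t) (S (t + 1))) :
    ∃ F : V → ℝ → ℝ, Pseudolines F ∧ ∃ Z : Finset ℝ, Z.card = T.card ∧ ∀ x ∈ Z, VertexS F k x := by
  set F : V → ℝ → ℝ := fun i => ip (fun t => (S t i : ℝ)) M with hF
  have hdiff : ∀ i j x, F j x - F i x = ip (fun t => (S t j : ℝ) - S t i) M x := fun i j x => ip_sub _ _ _ _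
  -- the crossing of two curves
  have hcross : ∀ i j, S 0 i < S 0 j → ∃ m < M, (∀ t ≤ m, S t i < S t j) ∧ ∀ t, m + 1 ≤ t → t ≤ M → S t j < S t i := by
    intro i j hij
    have hex : ∃ t, S t j < S t i := ⟨M, hend i j hij⟩
    classical
    set t₀ := Nat.find hex with ht₀
    have h1 : S t₀ j < S t₀ i := Nat.find_spec hex
    have h2 : t₀ ≤ M := Nat.find_min' hex (hend i j hij)
    have h3 : t₀ ≠ 0 := by
      intro h
      rw [h] at h1
      omega
    refine ⟨t₀ - 1, by omega, fun t ht => ?_, fun t h4 h5 => ?_⟩
    · have := Nat.find_min hex (m := t) (by omega)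
      rcases lt_trichotomy (S t i) (S t j) with c | c | c
      · exact c
      · have := hinj t c
        subst this
        omega
      · exact absurd c this
    · have h6 : ∀ r, t₀ + r ≤ M → S (t₀ + r) j < S (t₀ + r) i := by
        intro r
        induction r with
        | zero => intro _; exact h1
        | succ r ih => intro hr; exact hst (t₀ + r) (by omega) i j hij (ih (by omega))
      have h7 := h6 (t - t₀) (by omega)
      rwa [show t₀ + (t - t₀) = t by omega] at h7
  have hps : ∀ i j, S 0 i < S 0 j → ∃ x₀ : ℝ, (∀ x < x₀, F i x < F j x) ∧ ∀ x > x₀, F j x < F i x := by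
    intro i j hij
    obtain ⟨m, hm, h1, h2⟩ := hcross i j hij
    obtain ⟨x₀, -, -, h3, h4⟩ := cross (fun t => (S t j : ℝ) - S t i) hm
      (fun t ht => sub_pos.2 (by exact_mod_cast h1 t ht)) (fun t a b => sub_neg.2 (by exact_mod_cast h2 t a b))
    refine ⟨x₀, fun x hx => ?_, fun x hx => ?_⟩
    · have := h3 x hx
      rw [← hdiff] at this
      linarith
    · have := h4 x hx
      rw [← hdiff] at this
      linarith
  have hF1 : Pseudolines F := by
    refine ⟨fun i => ip_continuous _ _, fun i j hij => ?_⟩
    rcases lt_trichotomy (S 0 i) (S 0 j) with c | c | c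
    · obtain ⟨x₀, h1, h2⟩ := hps i j c
      exact ⟨x₀, Or.inl ⟨h1, h2⟩⟩
    · exact absurd (hinj 0 c) hij
    · obtain ⟨x₀, h1, h2⟩ := hps j i c
      exact ⟨x₀, Or.inr ⟨h1, h2⟩⟩
  refine ⟨F, hF1, ?_⟩
  -- the order of two curves which do not cross between `t` and `t + 1`
  have hkeep : ∀ t < M, ∀ i j, S t i < S t j → S (t + 1) i < S (t + 1) j → ∀ y : ℝ, (t : ℝ) ≤ y → y ≤ t + 1 →
      F i y < F j y := by
    intro t ht i j h1 h2 y h3 h4
    have h5 := hdiff i j y
    rw [ip_mid _ ht h3 h4] at h5
    have h6 : (0 : ℝ) < (S t j : ℝ) - S t i := sub_pos.2 (by exact_mod_cast h1)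
    have h7 : (0 : ℝ) < (S (t + 1) j : ℝ) - S (t + 1) i := sub_pos.2 (by exact_mod_cast h2)
    have := conv_pos h6 h7 (u := y - t) (by linarith) (by linarith)
    linarith
  -- the vertices
  have hvert : ∀ t ∈ T, ∃ x : ℝ, (t : ℝ) < x ∧ x < t + 1 ∧ VertexS F k x := by
    intro t ht
    obtain ⟨htM, A, B, hAB, hBA, hiff, hk⟩ := hT t ht
    have hne : A ≠ B := fun h => by rw [h] at hAB; exact lt_irrefl _ hAB
    have h0 : S 0 A < S 0 B := by
      by_contra hcon
      have h1 : S 0 B < S 0 A := by
        rcases lt_trichotomy (S 0 A) (S 0 B) with c | c | c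
        · exact absurd c hcon
        · exact absurd (hinj 0 c) hne
        · exact c
      have := hst t htM B A h1 hAB
      omega
    obtain ⟨m, hm, h1, h2⟩ := hcross A B h0
    have hmt : m = t := by
      have c1 : t ≤ m := by
        by_contra hcon
        have := h2 t (by omega) htM.le
        omega
      have c2 : m < t + 1 := by
        by_contra hcon
        have := h1 (t + 1) (by omega)
        omega
      omega
    subst hmt
    obtain ⟨x₀, hx1, hx2, h3, h4⟩ := cross (fun t => (S t B : ℝ) - S t A) hm
      (fun t ht => sub_pos.2 (by exact_mod_cast h1 t ht)) (fun t a b => sub_neg.2 (by exact_mod_cast h2 t a b))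
    have h3' : ∀ x < x₀, F A x < F B x := by
      intro x hx
      have := h3 x hx
      rw [← hdiff] at this
      linarith
    have h4' : ∀ x > x₀, F B x < F A x := by
      intro x hx
      have := h4 x hx
      rw [← hdiff] at this
      linarith
    -- the other curves
    have hoth : ∀ i j, ¬ (i = A ∧ j = B) → ¬ (i = B ∧ j = A) → ∀ y : ℝ, (m : ℝ) ≤ y → y ≤ m + 1 →
        (F i y < F j y ↔ S m i < S m j) := by
      intro i j c1 c2 y hy1 hy2
      constructor
      · intro hlt
        by_contra hcon
        rcases lt_trichotomy (S m i) (S m j) with c | c | c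
        · exact hcon c
        · rw [hinj m c] at hlt
          exact lt_irrefl _ hlt
        · have c' := (hiff j i (fun hh => c2 ⟨hh.2, hh.1⟩) (fun hh => c1 ⟨hh.2, hh.1⟩)).1 c
          have := hkeep m htM j i c c' y hy1 hy2
          exact absurd hlt (not_lt.2 this.le)
      · intro c
        exact hkeep m htM i j c ((hiff i j c1 c2).1 c) y hy1 hy2
    have hoth2 : ∀ i j, i ≠ j → ¬ (i = A ∧ j = B) → ¬ (i = B ∧ j = A) → ∀ y : ℝ, (m : ℝ) ≤ y → y ≤ m + 1 →
        F i y ≠ F j y := by
      intro i j hij c1 c2 y hy1 hy2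
      rcases lt_trichotomy (S m i) (S m j) with c | c | c
      · exact ((hoth i j c1 c2 y hy1 hy2).2 c).ne
      · exact absurd (hinj m c) hij
      · exact ((hoth j i (fun hh => c2 ⟨hh.2, hh.1⟩) (fun hh => c1 ⟨hh.2, hh.1⟩) y hy1 hy2).2 c).ne'
    have hadj := adj_of_event (hinj m) hAB hBA hiff
    have hcard : (univ.filter fun l => S m l < S m B).card = k := by
      have : (univ.filter fun l => S m l < S m B) = insert A (univ.filter fun l => S m l < S m A) := by
        ext l
        simp only [mem_filter, mem_univ, true_and, mem_insert]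
        by_cases hA : l = A
        · subst hA
          simp [hAB]
        · by_cases hB : l = B
          · subst hB
            simp only [lt_irrefl, hA, false_or, false_iff, not_lt]
            exact hAB.le
          · simp only [hA, false_or]
            exact (hadj.2 l hA hB).symm
      rw [this, card_insert_of_notMem (by simp), hk]
    refine ⟨x₀, hx1, hx2, B, A, hne.symm, min (x₀ - m) (m + 1 - x₀), by
      apply lt_min <;> linarith, ?_, ?_⟩
    · intro y hy1 hy2
      have hy3 : (m : ℝ) < y := by
        have := min_le_left (x₀ - m) ((m : ℝ) + 1 - x₀)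
        linarith
      refine ⟨?_, ?_⟩
      · rw [← hcard]
        unfold level
        rw [← Set.ncard_coe_finset]
        congr 1
        ext l
        simp only [Set.mem_ofPred_eq, coe_filter, mem_univ, true_and]
        by_cases hA : l = A
        · subst hA
          exact ⟨fun _ => hAB, fun _ => h3' y hy2⟩
        · by_cases hB : l = B
          · subst hB
            simp
          · exact hoth l B (fun hh => hA hh.1) (fun hh => hB hh.1) y hy3.le (by linarith)
      · intro l hl
        by_cases hA : l = A
        · subst hA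
          exact (h3' y hy2).ne
        · exact hoth2 l B hl (fun hh => hA hh.1) (fun hh => hl hh.1) y hy3.le (by linarith)
    · intro y hy1 hy2
      have hy3 : y < (m : ℝ) + 1 := by
        have := min_le_right (x₀ - m) ((m : ℝ) + 1 - x₀)
        linarith
      refine ⟨?_, ?_⟩
      · rw [← hk]
        unfold level
        have : {l | F l y < F A y} = ↑(insert B (univ.filter fun l => S m l < S m A)) := by
          ext l
          simp only [Set.mem_ofPred_eq, coe_insert, coe_filter, mem_univ, true_and, Set.mem_insert_iff]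
          by_cases hB : l = B
          · subst hB
            simp only [true_or, iff_true]
            exact h4' y hy1
          · by_cases hA : l = A
            · subst hA
              simp [hne]
            · simp only [hB, false_or]
              exact hoth l A (fun hh => hA hh.1) (fun hh => hB hh.1) y (by linarith) hy3.le
        rw [this, Set.ncard_coe_finset, card_insert_of_notMem]
        simp only [mem_filter, mem_univ, true_and, not_lt]
        exact hAB.le
      · intro l hl
        by_cases hB : l = B
        · subst hB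
          exact (h4' y hy1).ne
        · exact hoth2 l A hl (fun hh => hl hh.1) (fun hh => hB hh.1) y (by linarith) hy3.le
  choose! ξ hξ using hvert
  refine ⟨T.image ξ, ?_, ?_⟩
  · apply card_image_of_injOn
    intro t ht t' ht' h
    have h1 := hξ t ht
    have h2 := hξ t' ht'
    rw [h] at h1
    have h3 : (t : ℝ) < t' + 1 := lt_trans h1.1 h2.2.1
    have h4 : (t' : ℝ) < t + 1 := lt_trans h2.1 h1.2.1
    have h5 : t < t' + 1 := by exact_mod_cast h3
    have h6 : t' < t + 1 := by exact_mod_cast h4
    omega
  · intro x hx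
    obtain ⟨t, ht, rfl⟩ := mem_image.1 hx
    exact (hξ t ht).2.2

/-- from a path to an arrangement -/
theorem PGood.arr {n k E : ℕ} (h : PGood n k E) :
    ∃ F : Fin n → ℝ → ℝ, Pseudolines F ∧ ∃ Z : Finset ℝ, E ≤ Z.card ∧ ∀ x ∈ Z, VertexS F k x := by
  obtain ⟨V, _, _, σ, f, g, e, hn, p, hE⟩ := h
  obtain ⟨N, s, T, h1, h2, h3, h4, h5, h6⟩ := Path.seq p
  -- the last step reverses everything
  set M := univ.sup f with hM
  have hle : ∀ v, f v ≤ M := fun v => Finset.le_sup (mem_univ v)
  have hmono : ∀ t ≤ N, ∀ i j, σ i ≤ σ j → f i < f j → s t i < s t j := by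
    intro t
    induction t with
    | zero =>
      intro _ i j _ hlt
      rw [h1]
      exact hlt
    | succ t ih =>
      intro ht i j hij hlt
      exact h4 t (by omega) i j hij (ih (by omega) i j hij hlt)
  obtain ⟨F, hF, Z, hZ, hV⟩ := arrangement (k := k) (M := N + 1)
    (S := fun t => if t ≤ N then s t else fun v => M - f v) (T := T) (by
      intro t
      by_cases ht : t ≤ N
      · simp only [ht, if_true]
        exact h3 t
      · simp only [ht, if_false]
        intro u v huv
        have := hle u
        have := hle v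
        have h7 := h3 0
        rw [h1] at h7
        apply h7
        simp only at huv
        omega) (by
      intro t ht i j hij hrev
      simp only [Nat.zero_le, if_true, h1] at hij
      by_cases hN : t < N
      · simp only [show t ≤ N by omega, show t + 1 ≤ N by omega, if_true] at hrev ⊢
        rcases le_total (σ j) (σ i) with c | c
        · exact h4 t hN j i c hrev
        · have := hmono t (by omega) i j c hij
          omega
      · simp only [show ¬ t + 1 ≤ N by omega, if_false]
        have := hle i
        have := hle j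
        omega) (by
      intro i j hij
      simp only [Nat.zero_le, if_true, h1] at hij
      simp only [show ¬ N + 1 ≤ N by omega, if_false]
      have := hle i
      have := hle j
      omega) (by
      intro t ht
      obtain ⟨c1, c2⟩ := h5 t ht
      refine ⟨by omega, ?_⟩
      simp only [show t ≤ N by omega, show t + 1 ≤ N by omega, if_true]
      exact c2)
  -- renaming
  have φ : Fin n ≃ V := (Fintype.equivFinOfCardEq hn).symm
  refine ⟨fun i => F (φ i), ⟨fun i => hF.1 _, fun i j hij => hF.2 _ _ (fun h => hij (φ.injective h))⟩, Z, ?_, ?_⟩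
  · rw [hZ, h6]
    exact hE
  · intro x hx
    obtain ⟨i, j, hij, ε, hε, c1, c2⟩ := hV x hx
    have hlev : ∀ (i : V) (y : ℝ), level (fun i => F (φ i)) (φ.symm i) y = level F i y := by
      intro i y
      unfold level
      simp only [Equiv.apply_symm_apply]
      have : {l : Fin n | F (φ l) y < F i y} = φ ⁻¹' {l | F l y < F i y} := rfl
      rw [this, Set.ncard_preimage_of_injective_subset_range φ.injective (by
        intro v _
        exact ⟨φ.symm v, by simp⟩)]
    refine ⟨φ.symm i, φ.symm j, fun h => hij (φ.symm.injective h), ε, hε, fun y a b => ⟨?_, ?_⟩, fun y a b => ⟨?_, ?_⟩⟩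
    · rw [hlev]
      exact (c1 y a b).1
    · intro l hl
      change F (φ l) y ≠ F (φ (φ.symm i)) y
      rw [φ.apply_symm_apply]
      exact (c1 y a b).2 (φ l) (fun h => hl (by rw [← h]; simp))
    · rw [hlev]
      exact (c2 y a b).1
    · intro l hl
      change F (φ l) y ≠ F (φ (φ.symm j)) y
      rw [φ.apply_symm_apply]
      exact (c2 y a b).2 (φ l) (fun h => hl (by rw [← h]; simp))

end

end Pool.Agent.L0h27.PP
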