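import Pool.Agent.L0h27.PL.Path

/-!
# Blocks, rows and inner elements: the states of a sweep

The elements `x : X` of a composed structure lie in blocks `bl x : V`; inside its block the element lies in the row
`ro x`, and inside the row it plays the role of the inner element `inn x : I`.
-/

set_option autoImplicit false
set_option linter.unusedSectionVars false

open Finset

namespace Pool.Agent.L0h27.PP

open Pool.Agent.L0h27.PL

/-- triples of numbers with the lexicographic order -/
abbrev K3 : Type := Lex (ℕ × Lex (ℕ × ℕ))

/-- a triple -/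
def k3 (a b c : ℕ) : K3 := toLex (a, toLex (b, c))

theorem k3_lt (a b c a' b' c' : ℕ) :
    k3 a b c < k3 a' b' c' ↔ a < a' ∨ (a = a' ∧ (b < b' ∨ (b = b' ∧ c < c'))) := by
  unfold k3
  rw [Prod.Lex.lt_iff, Prod.Lex.lt_iff]
  rfl

theorem k3_inj (a b c a' b' c' : ℕ) : k3 a b c = k3 a' b' c' ↔ a = a' ∧ b = b' ∧ c = c' := by
  unfold k3
  constructor
  · intro h
    have h1 := congrArg ofLex h
    simp only [ofLex_toLex, Prod.mk.injEq, EmbeddingLike.apply_eq_iff_eq] at h1
    exact h1
  · rintro ⟨rfl, rfl, rfl⟩
    rfl

variable {X V I : Type} [Fintype X] [DecidableEq X] [Fintype V] [DecidableEq V] [Fintype I] [DecidableEq I]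

/-- a layout: the elements are determined by block, row and inner element, and all blocks have `N` elements -/
structure Lay (bl : X → V) (ro : X → ℕ) (inn : X → I) (N : ℕ) : Prop where
  inj : ∀ x y, bl x = bl y → ro x = ro y → inn x = inn y → x = y
  card : ∀ c, (univ.filter fun x => bl x = c).card = N

/-- key of the basic states -/
def key0 (bl : X → V) (ro : X → ℕ) (inn : X → I) (d : I → ℕ) (g : V → ℕ) (x : X) : K3 :=
  k3 (g (bl x)) (ro x) (d (inn x))

/-- basic state -/
def st0 (bl : X → V) (ro : X → ℕ) (inn : X → I) (d : I → ℕ) (g : V → ℕ) : X → ℕ := norm (key0 bl ro inn d g)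

/-- position inside the block `b` -/
def idx (bl : X → V) (ro : X → ℕ) (inn : X → I) (d : I → ℕ) (b : V) (x : X) : ℕ :=
  (univ.filter fun y : X => bl y = b ∧ k3 0 (ro y) (d (inn y)) < k3 0 (ro x) (d (inn x))).card

/-- outer height: the lowest `m` elements of the block `b` have descended below the block `a` -/
def outer (bl : X → V) (ro : X → ℕ) (inn : X → I) (d : I → ℕ) (g : V → ℕ) (a b : V) (m : ℕ) (x : X) : ℕ :=
  if bl x = b ∧ idx bl ro inn d b x < m then 2 * g a else 2 * g (bl x) + 1

/-- key of the intermediate states -/
def key1 (bl : X → V) (ro : X → ℕ) (inn : X → I) (d : I → ℕ) (g : V → ℕ) (a b : V) (m : ℕ) (ρ : ℕ → I → ℕ)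
    (x : X) : K3 :=
  k3 (outer bl ro inn d g a b m x) (ro x) (if bl x = a then ρ (ro x) (inn x) else d (inn x))

/-- intermediate state -/
def st1 (bl : X → V) (ro : X → ℕ) (inn : X → I) (d : I → ℕ) (g : V → ℕ) (a b : V) (m : ℕ) (ρ : ℕ → I → ℕ) :
    X → ℕ := norm (key1 bl ro inn d g a b m ρ)

section

variable {bl : X → V} {ro : X → ℕ} {inn : X → I} {N : ℕ} {d : I → ℕ} {g : V → ℕ} {a b : V} {m : ℕ}
  {ρ : ℕ → I → ℕ}

theorem key0_inj (lay : Lay bl ro inn N) (hd : Function.Injective d) (hg : Function.Injective g) :
    Function.Injective (key0 bl ro inn d g) := by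
  intro x y h
  unfold key0 at h
  rw [k3_inj] at h
  obtain ⟨h1, h2, h3⟩ := h
  exact lay.inj x y (hg h1) h2 (hd h3)

theorem outer_ne (x : X) (h : bl x ≠ b) : outer bl ro inn d g a b m x = 2 * g (bl x) + 1 := by
  unfold outer
  rw [if_neg fun hh => h hh.1]

theorem key1_inj (lay : Lay bl ro inn N) (hd : Function.Injective d) (hg : Function.Injective g)
    (hρ : ∀ v, Function.Injective (ρ v)) :
    Function.Injective (key1 bl ro inn d g a b m ρ) := by
  rintro x y h
  unfold key1 at h
  rw [k3_inj] at h
  obtain ⟨h1, h2, h3⟩ := h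
  have e1 : bl x = bl y := by
    unfold outer at h1
    split_ifs at h1 with c1 c2 c2
    · rw [c1.1, c2.1]
    · omega
    · omega
    · exact hg (by omega)
  have e2 : inn x = inn y := by
    rw [e1, h2] at h3
    split_ifs at h3 with c
    · exact hρ _ h3
    · exact hd h3
  exact lay.inj x y e1 h2 e2

theorem st0_inj (lay : Lay bl ro inn N) (hd : Function.Injective d) (hg : Function.Injective g) :
    Function.Injective (st0 bl ro inn d g) := norm_inj (key0_inj lay hd hg)

theorem st1_inj (lay : Lay bl ro inn N) (hd : Function.Injective d) (hg : Function.Injective g)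
    (hρ : ∀ v, Function.Injective (ρ v)) :
    Function.Injective (st1 bl ro inn d g a b m ρ) := norm_inj (key1_inj lay hd hg hρ)

theorem st1_lt (x y : X) : st1 bl ro inn d g a b m ρ x < st1 bl ro inn d g a b m ρ y ↔
    outer bl ro inn d g a b m x < outer bl ro inn d g a b m y ∨
      (outer bl ro inn d g a b m x = outer bl ro inn d g a b m y ∧
      (ro x < ro y ∨ (ro x = ro y ∧
        (if bl x = a then ρ (ro x) (inn x) else d (inn x)) <
          (if bl y = a then ρ (ro y) (inn y) else d (inn y))))) := by
  unfold st1
  rw [norm_lt]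
  unfold key1
  rw [k3_lt]

theorem st0_lt (x y : X) : st0 bl ro inn d g x < st0 bl ro inn d g y ↔
    g (bl x) < g (bl y) ∨ (g (bl x) = g (bl y) ∧
      (ro x < ro y ∨ (ro x = ro y ∧ d (inn x) < d (inn y)))) := by
  unfold st0
  rw [norm_lt]
  unfold key0
  rw [k3_lt]

/-- the position inside the block is monotone -/
theorem idx_lt {x y : X} (hx : bl x = b)
    (h : ro x < ro y ∨ (ro x = ro y ∧ d (inn x) < d (inn y))) :
    idx bl ro inn d b x < idx bl ro inn d b y := by
  have hlt : k3 0 (ro x) (d (inn x)) < k3 0 (ro y) (d (inn y)) := by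
    rw [k3_lt]
    exact Or.inr ⟨rfl, h⟩
  apply Finset.card_lt_card
  rw [Finset.ssubset_iff_of_subset]
  · refine ⟨x, ?_, ?_⟩
    · simp only [mem_filter, mem_univ, true_and]
      exact ⟨hx, hlt⟩
    · simp
  · intro z hz
    simp only [mem_filter, mem_univ, true_and] at hz ⊢
    exact ⟨hz.1, hz.2.trans hlt⟩

theorem row_of_idx_lt (lay : Lay bl ro inn N) (hd : Function.Injective d) {x y : X} (hx : bl x = b) (hy : bl y = b)
    (h : idx bl ro inn d b x < idx bl ro inn d b y) :
    ro x < ro y ∨ (ro x = ro y ∧ d (inn x) < d (inn y)) := by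
  by_contra hcon
  push Not at hcon
  obtain ⟨h1, h2⟩ := hcon
  rcases eq_or_lt_of_le h1 with h3 | h3
  · rcases eq_or_lt_of_le (h2 h3.symm) with h4 | h4
    · have : x = y := lay.inj x y (hx.trans hy.symm) h3.symm (hd h4).symm
      rw [this] at h
      exact lt_irrefl _ h
    · have := idx_lt (ro := ro) (inn := inn) (d := d) hy (Or.inr ⟨h3, h4⟩)
      omega
  · have := idx_lt (inn := inn) (d := d) hy (Or.inl h3)
    omega

/-- `a` and `b` are neighbours -/
def Adj (g : V → ℕ) (a b : V) : Prop := g a < g b ∧ ∀ c, c ≠ a → c ≠ b → (g c < g a ↔ g c < g b)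

theorem adj_of_event {h : V → ℕ} (hg : Function.Injective g) (hab : g a < g b) (hba : h b < h a)
    (hiff : ∀ i j, ¬ (i = a ∧ j = b) → ¬ (i = b ∧ j = a) → (g i < g j ↔ h i < h j)) : Adj g a b := by
  refine ⟨hab, fun c ha hb => ⟨fun hc => hc.trans hab, fun hc => ?_⟩⟩
  by_contra hcon
  have h1 : g a < g c := by
    rcases lt_trichotomy (g c) (g a) with h1 | h1 | h1
    · exact absurd h1 hcon
    · exact absurd (hg h1) ha
    · exact h1
  have h2 := (hiff a c (fun hh => hb hh.2) (fun hh => ha hh.2)).1 h1
  have h3 := (hiff c b (fun hh => ha hh.1) (fun hh => hb hh.1)).1 hc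
  omega

theorem outer_ne_outer (hg : Function.Injective g) {x y : X} (h : bl x ≠ bl y) :
    outer bl ro inn d g a b m x ≠ outer bl ro inn d g a b m y := by
  intro hh
  unfold outer at hh
  split_ifs at hh with c1 c2 c2
  · exact h (c1.1.trans c2.1.symm)
  · omega
  · omega
  · exact h (hg (by omega))

/-- elements of different blocks -/
theorem st1_lt_of_ne (hg : Function.Injective g) {x y : X} (h : bl x ≠ bl y) :
    st1 bl ro inn d g a b m ρ x < st1 bl ro inn d g a b m ρ y ↔
      outer bl ro inn d g a b m x < outer bl ro inn d g a b m y := by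
  rw [st1_lt]
  have := outer_ne_outer (ro := ro) (inn := inn) (d := d) (a := a) (b := b) (m := m) hg h
  constructor
  · rintro (h1 | h1)
    · exact h1
    · exact absurd h1.1 this
  · exact Or.inl

theorem outer_same {x y : X} (h : bl x = bl y) (hb : bl x ≠ b) :
    outer bl ro inn d g a b m x = outer bl ro inn d g a b m y := by
  rw [outer_ne x hb, outer_ne y (h ▸ hb), h]

/-- elements of a block different from `b` -/
theorem st1_lt_same {x y : X} (h : bl x = bl y) (hb : bl x ≠ b) :
    st1 bl ro inn d g a b m ρ x < st1 bl ro inn d g a b m ρ y ↔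
      (ro x < ro y ∨ (ro x = ro y ∧
        (if bl x = a then ρ (ro x) (inn x) else d (inn x)) <
          (if bl y = a then ρ (ro y) (inn y) else d (inn y)))) := by
  rw [st1_lt, outer_same h hb]
  constructor
  · rintro (h1 | h1)
    · omega
    · exact h1.2
  · exact fun h1 => Or.inr ⟨rfl, h1⟩

/-- elements of the block `b` -/
theorem st1_lt_b (lay : Lay bl ro inn N) (hd : Function.Injective d) (hab : g a < g b) {x y : X} (hx : bl x = b)
    (hy : bl y = b) :
    st1 bl ro inn d g a b m ρ x < st1 bl ro inn d g a b m ρ y ↔
      (ro x < ro y ∨ (ro x = ro y ∧ d (inn x) < d (inn y))) := by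
  have hne : a ≠ b := fun h => by rw [h] at hab; exact lt_irrefl _ hab
  have hxa : bl x ≠ a := fun h => hne (h.symm.trans hx)
  have hya : bl y ≠ a := fun h => hne (h.symm.trans hy)
  rw [st1_lt, if_neg hxa, if_neg hya]
  constructor
  · rintro (h | h)
    · apply row_of_idx_lt lay hd hx hy
      unfold outer at h
      split_ifs at h with c1 c2 c2
      · omega
      · have : ¬ idx bl ro inn d b y < m := fun hh => c2 ⟨hy, hh⟩
        omega
      · rw [hx] at h
        omega
      · rw [hx, hy] at h
        omega
    · exact h.2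
  · intro hidx
    have hi := idx_lt (ro := ro) (inn := inn) (d := d) hx hidx
    unfold outer
    split_ifs with c1 c2 c2
    · exact Or.inr ⟨rfl, hidx⟩
    · left
      rw [hy]
      omega
    · exfalso
      exact c1 ⟨hx, hi.trans c2.2⟩
    · right
      rw [hx, hy]
      exact ⟨rfl, hidx⟩

/-- the order of two elements when more elements of `b` descend -/
theorem descend (lay : Lay bl ro inn N) (hd : Function.Injective d) (hg : Function.Injective g) (hadj : Adj g a b)
    {m' : ℕ} (hm : m ≤ m')
    {x y : X} (hxy : ¬ (bl x = a ∧ bl y = b))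
    (h : st1 bl ro inn d g a b m ρ x < st1 bl ro inn d g a b m ρ y) :
    st1 bl ro inn d g a b m' ρ x < st1 bl ro inn d g a b m' ρ y := by
  have hgab := hadj.1
  by_cases hx : bl x = b
  · by_cases hy : bl y = b
    · rw [st1_lt_b lay hd hgab hx hy] at h ⊢
      exact h
    · -- `x` in the block `b`, `y` not
      have hne : bl x ≠ bl y := fun hh => hy (hh.symm.trans hx)
      have hgne : g (bl y) ≠ g b := fun hh => hy (hg hh)
      rw [st1_lt_of_ne hg hne, outer_ne y hy] at h ⊢
      unfold outer at h ⊢
      rw [hx] at h ⊢
      split_ifs at h ⊢ with c1 c2 c2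
      · omega
      · omega
      · exact absurd ⟨c2.1, lt_of_lt_of_le c2.2 hm⟩ c1
      · omega
  · by_cases hy : bl y = b
    · -- `y` in the block `b`, `x` not
      have hne : bl x ≠ bl y := fun hh => hx (hh.trans hy)
      have hxa : bl x ≠ a := fun hh => hxy ⟨hh, hy⟩
      have hadj2 := hadj.2 (bl x) hxa hx
      rw [st1_lt_of_ne hg hne, outer_ne x hx] at h ⊢
      unfold outer at h ⊢
      rw [hy] at h ⊢
      split_ifs at h ⊢ with c1 c2 c2
      · omega
      · have h1 := hadj2.2 (by omega)
        omega
      · exact absurd ⟨c2.1, lt_of_lt_of_le c2.2 hm⟩ c1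
      · omega
    · by_cases hxy' : bl x = bl y
      · rw [st1_lt_same hxy' hx] at h ⊢
        exact h
      · rw [st1_lt_of_ne hg hxy', outer_ne x hx, outer_ne y hy] at h ⊢
        exact h

theorem cmp_row {v : ℕ} {s : I → ℕ} (hab : g a < g b) {x y : X} (hx : bl x = a) (hy : bl y = a)
    (hxv : ro x = v) (hyv : ro y = v) :
    st1 bl ro inn d g a b m (Function.update ρ v s) x < st1 bl ro inn d g a b m (Function.update ρ v s) y ↔
      s (inn x) < s (inn y) := by
  have hne : bl x ≠ b := fun h => by
    rw [← hx, h] at hab
    exact lt_irrefl _ hab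
  rw [st1_lt_same (hx.trans hy.symm) hne, if_pos hx, if_pos hy, hxv, hyv, Function.update_self]
  simp

theorem cmp_other (lay : Lay bl ro inn N) (hd : Function.Injective d) (hg : Function.Injective g) {v : ℕ}
    {s s' : I → ℕ} (hab : g a < g b) {x y : X}
    (h : ¬ (bl x = a ∧ bl y = a ∧ ro x = v ∧ ro y = v)) :
    st1 bl ro inn d g a b m (Function.update ρ v s) x < st1 bl ro inn d g a b m (Function.update ρ v s) y ↔
      st1 bl ro inn d g a b m (Function.update ρ v s') x <
        st1 bl ro inn d g a b m (Function.update ρ v s') y := by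
  by_cases hxy : bl x = bl y
  · by_cases hb : bl x = b
    · rw [st1_lt_b lay hd hab hb (hxy ▸ hb), st1_lt_b lay hd hab hb (hxy ▸ hb)]
    · rw [st1_lt_same hxy hb, st1_lt_same hxy hb]
      by_cases ha : bl x = a
      · have hya : bl y = a := hxy ▸ ha
        rw [if_pos ha, if_pos hya, if_pos ha, if_pos hya]
        by_cases hr : ro x = ro y
        · have hne : ro y ≠ v := fun hh => h ⟨ha, hya, hr.trans hh, hh⟩
          rw [hr, Function.update_of_ne hne, Function.update_of_ne hne]
        · simp [hr]
      · have hya : bl y ≠ a := fun hh => ha (hxy.trans hh)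
        rw [if_neg ha, if_neg hya, if_neg ha, if_neg hya]
  · rw [st1_lt_of_ne hg hxy, st1_lt_of_ne hg hxy]

/-- the number of elements of the block `a` in the rows below `v` -/
def below (bl : X → V) (ro : X → ℕ) (a : V) (v : ℕ) : ℕ :=
  (univ.filter fun x : X => bl x = a ∧ ro x < v).card

theorem below_le (lay : Lay bl ro inn N) (v : ℕ) : below bl ro a v ≤ N := by
  unfold below
  rw [← lay.card a]
  apply card_le_card
  intro x hx
  simp only [mem_filter, mem_univ, true_and] at hx ⊢
  exact hx.1

theorem idx_bij (lay : Lay bl ro inn N) (hd : Function.Injective d) {m : ℕ} (hm : m ≤ N) :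
    (univ.filter fun x : X => bl x = b ∧ idx bl ro inn d b x < m).card = m := by
  set f : X → ℕ := idx bl ro inn d b with hf
  set S : Finset X := univ.filter fun x => bl x = b with hS
  have hinj : Set.InjOn f S := by
    intro w hw w' hw' h
    replace hw : bl w = b := (mem_filter.1 (mem_coe.1 hw)).2
    replace hw' : bl w' = b := (mem_filter.1 (mem_coe.1 hw')).2
    by_contra hne
    have h1 : ¬ (ro w < ro w' ∨ (ro w = ro w' ∧ d (inn w) < d (inn w'))) := by
      intro hh
      have := idx_lt (ro := ro) (inn := inn) (d := d) hw hh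
      simp only [hf] at h
      omega
    have h2 : ¬ (ro w' < ro w ∨ (ro w' = ro w ∧ d (inn w') < d (inn w))) := by
      intro hh
      have := idx_lt (ro := ro) (inn := inn) (d := d) hw' hh
      simp only [hf] at h
      omega
    push Not at h1 h2
    have h3 : ro w = ro w' := le_antisymm h2.1 h1.1
    have h4 : d (inn w) = d (inn w') := le_antisymm (h2.2 h3.symm) (h1.2 h3)
    exact hne (lay.inj w w' (hw.trans hw'.symm) h3 (hd h4))
  have hlt : ∀ w ∈ S, f w < N := by
    intro w hw
    have h1 : f w < S.card := by
      apply Finset.card_lt_card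
      rw [Finset.ssubset_iff_of_subset]
      · exact ⟨w, hw, by simp⟩
      · intro z hz
        simp only [mem_filter, mem_univ, true_and, hS] at hz ⊢
        exact hz.1
    rwa [lay.card b] at h1
  have himg : S.image f = range N := by
    apply Finset.eq_of_subset_of_card_le
    · intro i hi
      obtain ⟨w, hw, rfl⟩ := mem_image.1 hi
      exact mem_range.2 (hlt w hw)
    · rw [card_image_of_injOn hinj, card_range, lay.card b]
  have h3 : (S.filter fun w => f w < m).image f = range m := by
    ext i
    simp only [mem_image, mem_filter, mem_range]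
    constructor
    · rintro ⟨w, hw, rfl⟩
      exact hw.2
    · intro hi
      have : i ∈ S.image f := by
        rw [himg, mem_range]
        omega
      obtain ⟨w, hw, rfl⟩ := mem_image.1 this
      exact ⟨w, ⟨hw, hi⟩, rfl⟩
  have h4 := congrArg Finset.card h3
  rw [card_image_of_injOn (hinj.mono (by
    intro z hz
    exact (mem_filter.1 hz).1)), card_range] at h4
  have h5 : (univ.filter fun x : X => bl x = b ∧ idx bl ro inn d b x < m) = S.filter fun w => f w < m := by
    ext x
    simp [hS, hf]
  rw [h5]
  exact h4

/-- the row `v` of the block `a` is complete -/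
def Full (bl : X → V) (ro : X → ℕ) (inn : X → I) (a : V) (v : ℕ) : Prop :=
  ∀ i : I, ∃ x, bl x = a ∧ ro x = v ∧ inn x = i

theorem card_row (lay : Lay bl ro inn N) {v : ℕ} (hv : Full bl ro inn a v) (P : I → Prop) [DecidablePred P] :
    (univ.filter fun x : X => bl x = a ∧ ro x = v ∧ P (inn x)).card = (univ.filter P).card := by
  choose β hβ using hv
  symm
  refine Finset.card_bij (fun α _ => β α) ?_ ?_ ?_
  · intro α hα
    simp only [mem_filter, mem_univ, true_and] at hα ⊢
    refine ⟨(hβ α).1, (hβ α).2.1, ?_⟩
    rw [(hβ α).2.2]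
    exact hα
  · intro α _ α' _ h
    rw [← (hβ α).2.2, ← (hβ α').2.2, h]
  · intro x hx
    simp only [mem_filter, mem_univ, true_and] at hx
    refine ⟨inn x, by simpa using hx.2.2, ?_⟩
    have := hβ (inn x)
    exact lay.inj _ _ (this.1.trans hx.1.symm) (this.2.1.trans hx.2.1.symm) this.2.2

theorem below_succ (lay : Lay bl ro inn N) {v : ℕ} (hv : Full bl ro inn a v) :
    below bl ro a (v + 1) = below bl ro a v + Fintype.card I := by
  unfold below
  have h1 : (univ.filter fun x : X => bl x = a ∧ ro x < v + 1) =
      (univ.filter fun x : X => bl x = a ∧ ro x < v) ∪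
        (univ.filter fun x : X => bl x = a ∧ ro x = v ∧ True) := by
    ext w
    simp only [mem_filter, mem_univ, true_and, mem_union, and_true]
    constructor
    · rintro ⟨h1, h2⟩
      rcases Nat.lt_succ_iff_lt_or_eq.1 h2 with h | h
      · exact Or.inl ⟨h1, h⟩
      · exact Or.inr ⟨h1, h⟩
    · rintro (⟨h1, h2⟩ | ⟨h1, h2⟩)
      · exact ⟨h1, by omega⟩
      · exact ⟨h1, by omega⟩
  rw [h1, card_union_of_disjoint, card_row lay hv (fun _ => True)]
  · simp
  · rw [Finset.disjoint_filter]
    intro w _ hw hw'
    omega

/-- the rank of an element in a complete row -/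
theorem rank_count (lay : Lay bl ro inn N) (hd : Function.Injective d) (hg : Function.Injective g)
    (hadj : Adj g a b) (hm : m ≤ N) {v : ℕ} (hv : Full bl ro inn a v) (s : I → ℕ) {A : X} (hA : bl A = a)
    (hAv : ro A = v) :
    (univ.filter fun x : X => st1 bl ro inn d g a b m (Function.update ρ v s) x <
      st1 bl ro inn d g a b m (Function.update ρ v s) A).card =
      (univ.filter fun c => g c < g a).card * N + m + below bl ro a v +
        (univ.filter fun α => s α < s (inn A)).card := by
  have hgab := hadj.1
  have hane : a ≠ b := fun h => by rw [h] at hgab; exact lt_irrefl _ hgab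
  set S : X → ℕ := st1 bl ro inn d g a b m (Function.update ρ v s) with hS
  rw [Finset.card_eq_sum_card_fiberwise (f := bl) (t := univ) (fun _ _ => mem_coe.2 (mem_univ _))]
  have hblock : ∀ c : V, ((univ.filter fun x : X => S x < S A).filter fun x => bl x = c).card =
      (if g c < g a then N else 0) + (if c = b then m else 0) +
        (if c = a then below bl ro a v + (univ.filter fun α => s α < s (inn A)).card else 0) := by
    intro c
    rw [Finset.filter_filter]
    by_cases ha : c = a
    · subst ha
      rw [if_neg (lt_irrefl _), if_neg hane, if_pos rfl, zero_add, zero_add]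
      have h1 : (univ.filter fun x : X => S x < S A ∧ bl x = c) =
          (univ.filter fun x : X => bl x = c ∧ ro x < v) ∪
            (univ.filter fun x : X => bl x = c ∧ ro x = v ∧ s (inn x) < s (inn A)) := by
        ext w
        simp only [mem_filter, mem_univ, true_and, mem_union]
        by_cases hwc : bl w = c
        · by_cases hwv : ro w = v
          · rw [hS, cmp_row hgab hwc hA hwv hAv]
            simp [hwv, hwc]
          · rw [hS, st1_lt_same (hwc.trans hA.symm) (fun hh => hane (hwc.symm.trans hh)), hAv]
            simp [hwv, hwc]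
        · simp [hwc]
      rw [h1, card_union_of_disjoint, card_row lay hv (fun α => s α < s (inn A))]
      · rfl
      · rw [Finset.disjoint_filter]
        intro w _ hw hw'
        omega
    · rw [if_neg ha, add_zero]
      by_cases hb : c = b
      · subst hb
        rw [if_neg (by omega), if_pos rfl, zero_add]
        have h1 : (univ.filter fun x : X => S x < S A ∧ bl x = c) =
            univ.filter fun x : X => bl x = c ∧ idx bl ro inn d c x < m := by
          ext w
          simp only [mem_filter, mem_univ, true_and]
          by_cases hwc : bl w = c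
          · rw [hS, st1_lt_of_ne hg (fun h => ha (hwc.symm.trans (h.trans hA))),
              outer_ne A (fun h => hane (hA.symm.trans h)), hA]
            unfold outer
            rw [hwc]
            split_ifs with c1
            · constructor
              · intro _
                exact c1
              · intro _
                exact ⟨by omega, rfl⟩
            · constructor
              · intro h
                omega
              · intro h
                exact absurd h c1
          · simp [hwc]
        rw [h1, idx_bij lay hd hm]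
      · rw [if_neg hb, add_zero]
        have h1 : ∀ w : X, bl w = c → (S w < S A ↔ g c < g a) := by
          intro w hwc
          rw [hS, st1_lt_of_ne hg (fun h => ha (hwc.symm.trans (h.trans hA))), outer_ne _ (fun hh => hb (hwc.symm.trans hh)),
            outer_ne A (fun h => hane (hA.symm.trans h)), hA, hwc]
          omega
        by_cases hlt : g c < g a
        · rw [if_pos hlt, ← lay.card c]
          congr 1
          ext w
          simp only [mem_filter, mem_univ, true_and]
          constructor
          · exact fun h => h.2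
          · exact fun h => ⟨(h1 w h).2 hlt, h⟩
        · rw [if_neg hlt, card_eq_zero, filter_eq_empty_iff]
          rintro w - ⟨h2, h3⟩
          exact hlt ((h1 w h3).1 h2)
  rw [Finset.sum_congr rfl fun c _ => hblock c, sum_add_distrib, sum_add_distrib]
  rw [Finset.sum_ite_eq' univ b, Finset.sum_ite_eq' univ a, if_pos (mem_univ _), if_pos (mem_univ _)]
  have h2 : (∑ c : V, if g c < g a then N else 0) = (univ.filter fun c => g c < g a).card * N := by
    rw [← Finset.sum_filter, sum_const, smul_eq_mul]
  rw [h2]
  ring

end

end Pool.Agent.L0h27.PP
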