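import Pool.Agent.L0h27.PL.Path
import Mathlib.Data.Fin.VecNotation
import Mathlib.Data.Fintype.Pi

/-!
# The base configuration: ten elements, thirteen exchanges in the middle
-/

set_option autoImplicit false
set_option maxRecDepth 100000

open Finset

namespace Pool.Agent.L0h27.PP

open Pool.Agent.L0h27.PL

/-- classes -/
def sg : Fin 10 → ℕ := ![9, 8, 7, 6, 5, 4, 3, 2, 1, 0]

/-- a move, checked by evaluation -/
theorem mv {g e : Fin 10 → ℕ} (h : Fin 10 → ℕ) (p : Path sg 5 (fun i => (i : ℕ)) g e)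
    (hc : (∀ i j : Fin 10, h i = h j → i = j) ∧ ∀ i j, sg i ≤ sg j → g i < g j → h i < h j) :
    Path sg 5 (fun i => (i : ℕ)) h e := Path.move h p (fun i j => hc.1 i j) hc.2

/-- an event, checked by evaluation -/
theorem ev {g e : Fin 10 → ℕ} (h : Fin 10 → ℕ) (A B : Fin 10) (p : Path sg 5 (fun i => (i : ℕ)) g e)
    (hc : (∀ i j : Fin 10, h i = h j → i = j) ∧ sg B < sg A ∧ g A < g B ∧ h B < h A ∧
      (∀ i j, ¬ (i = A ∧ j = B) → ¬ (i = B ∧ j = A) → (g i < g j ↔ h i < h j)) ∧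
      (univ.filter fun i => g i < g A).card + 1 = 5) :
    Path sg 5 (fun i => (i : ℕ)) h (e + Pi.single A 1) :=
  Path.event h A B p (fun i j => hc.1 i j) hc.2.1 hc.2.2.1 hc.2.2.2.1 hc.2.2.2.2.1 hc.2.2.2.2.2

theorem base10 : ∃ g e : Fin 10 → ℕ, Path sg 5 (fun i => (i : ℕ)) g e ∧ (∀ a, e a ≤ 3) ∧ 13 ≤ ∑ a, e a := by
  have p0 : Path sg 5 (fun i => (i : ℕ)) (fun i => (i : ℕ)) 0 := Path.nil _ (fun i j h => Fin.ext h)
  have p1 := ev ![0, 1, 2, 3, 5, 4, 6, 7, 8, 9] 4 5 p0 (by decide)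
  have p2 := mv ![0, 1, 2, 3, 7, 4, 5, 6, 8, 9] p1 (by decide)
  have p3 := ev ![0, 1, 2, 3, 7, 5, 4, 6, 8, 9] 5 6 p2 (by decide)
  have p4 := mv ![0, 1, 2, 3, 7, 6, 4, 5, 8, 9] p3 (by decide)
  have p5 := ev ![0, 1, 2, 3, 7, 6, 5, 4, 8, 9] 6 7 p4 (by decide)
  have p6 := mv ![0, 1, 2, 4, 7, 6, 5, 3, 8, 9] p5 (by decide)
  have p7 := ev ![0, 1, 2, 5, 7, 6, 4, 3, 8, 9] 3 6 p6 (by decide)
  have p8 := mv ![0, 1, 4, 5, 7, 6, 3, 2, 8, 9] p7 (by decide)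
  have p9 := ev ![0, 1, 5, 4, 7, 6, 3, 2, 8, 9] 2 3 p8 (by decide)
  have p10 := mv ![0, 1, 6, 4, 7, 5, 3, 2, 8, 9] p9 (by decide)
  have p11 := ev ![0, 1, 6, 5, 7, 4, 3, 2, 8, 9] 3 5 p10 (by decide)
  have p12 := mv ![0, 4, 6, 5, 7, 3, 2, 1, 8, 9] p11 (by decide)
  have p13 := ev ![0, 5, 6, 4, 7, 3, 2, 1, 8, 9] 1 3 p12 (by decide)
  have p14 := mv ![4, 5, 6, 3, 7, 2, 1, 0, 8, 9] p13 (by decide)
  have p15 := ev ![5, 4, 6, 3, 7, 2, 1, 0, 8, 9] 0 1 p14 (by decide)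
  have p16 := mv ![9, 4, 5, 3, 6, 2, 1, 0, 7, 8] p15 (by decide)
  have p17 := ev ![9, 5, 4, 3, 6, 2, 1, 0, 7, 8] 1 2 p16 (by decide)
  have p18 := mv ![9, 8, 4, 3, 5, 2, 1, 0, 6, 7] p17 (by decide)
  have p19 := ev ![9, 8, 5, 3, 4, 2, 1, 0, 6, 7] 2 4 p18 (by decide)
  have p20 := mv ![9, 8, 7, 3, 4, 2, 1, 0, 5, 6] p19 (by decide)
  have p21 := ev ![9, 8, 7, 3, 5, 2, 1, 0, 4, 6] 4 8 p20 (by decide)
  have p22 := mv ![9, 8, 7, 4, 5, 2, 1, 0, 3, 6] p21 (by decide)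
  have p23 := ev ![9, 8, 7, 5, 4, 2, 1, 0, 3, 6] 3 4 p22 (by decide)
  have p24 := mv ![9, 8, 7, 6, 4, 2, 1, 0, 3, 5] p23 (by decide)
  have p25 := ev ![9, 8, 7, 6, 5, 2, 1, 0, 3, 4] 4 9 p24 (by decide)
  exact ⟨_, _, p25, by decide, by decide⟩

end Pool.Agent.L0h27.PP
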