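import Pool.Agent.L0h27.PP.Base
import Pool.Agent.L0h27.PP.Ten
import Mathlib.Data.Fintype.Option
import Mathlib.Algebra.BigOperators.Option

/-!
# Padding and the outer chain
-/

set_option autoImplicit false
set_option linter.unusedSectionVars false

open Finset

namespace Pool.Agent.L0h27.PP

open Pool.Agent.L0h27.PL

/-- there is a path of `n` elements with rank `k` and at least `E` events -/
def PGood (n k E : ℕ) : Prop :=
  ∃ (V : Type) (_ : Fintype V) (_ : DecidableEq V) (σ f g e : V → ℕ), Fintype.card V = n ∧
    Path σ k f g e ∧ E ≤ ∑ a, e a

/-- a state with an additional element at the bottom -/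
def botS {V : Type} (g : V → ℕ) : Option V → ℕ := fun o => o.elim 0 fun v => g v + 1

/-- a state with an additional element at the top -/
def topS {V : Type} [Fintype V] (g : V → ℕ) : Option V → ℕ := fun o => o.elim (univ.sup g + 1) g

/-- extension by zero -/
def zeroS {V : Type} (g : V → ℕ) : Option V → ℕ := fun o => o.elim 0 g

section

variable {V : Type} [Fintype V] [DecidableEq V] {σ : V → ℕ} {k : ℕ}

theorem botS_inj {g : V → ℕ} (hg : Function.Injective g) : Function.Injective (botS g) := by
  intro x y h
  cases x <;> cases y <;> simp only [botS, Option.elim] at h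
  · rfl
  · omega
  · omega
  · rw [hg (Nat.succ_injective h)]

theorem le_supS (g : V → ℕ) (v : V) : g v < univ.sup g + 1 := Nat.lt_succ_of_le (Finset.le_sup (mem_univ v))

theorem topS_inj {g : V → ℕ} (hg : Function.Injective g) : Function.Injective (topS g) := by
  intro x y h
  cases x <;> cases y <;> simp only [topS, Option.elim] at h
  · rfl
  · rename_i v
    have := le_supS g v
    omega
  · rename_i v
    have := le_supS g v
    omega
  · rw [hg h]

theorem zeroS_add_single (e : V → ℕ) (A : V) :
    zeroS (e + Pi.single A 1) = zeroS e + Pi.single (some A) 1 := by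
  funext o
  cases o with
  | none => simp [zeroS]
  | some v =>
    simp only [zeroS, Option.elim, Pi.add_apply]
    congr 1
    by_cases h : v = A
    · subst h
      simp
    · rw [Pi.single_eq_of_ne h, Pi.single_eq_of_ne (fun hh => h (Option.some.inj hh))]

theorem card_filter_option (p : Option V → Prop) [DecidablePred p] :
    (univ.filter p).card = (if p none then 1 else 0) + (univ.filter fun v : V => p (some v)).card := by
  rw [Finset.card_filter, Fintype.sum_option, Finset.card_filter]

theorem Path.bot {f g e : V → ℕ} (p : Path σ k f g e) :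
    Path (zeroS σ) (k + 1) (botS f) (botS g) (zeroS e) := by
  induction p with
  | nil hf =>
    have : zeroS (0 : V → ℕ) = 0 := by
      funext o
      cases o <;> rfl
    rw [this]
    exact Path.nil _ (botS_inj hf)
  | move h p hi hm ih =>
    refine Path.move _ ih (botS_inj hi) ?_
    intro x y h1 h2
    cases x <;> cases y <;> simp only [botS, zeroS, Option.elim] at h1 h2 ⊢
    · omega
    · omega
    · omega
    · have := hm _ _ h1 (by omega)
      omega
  | @event g e h A B p hi h1 h2 h3 h4 h5 ih =>
    rw [zeroS_add_single]
    refine Path.event _ (some A) (some B) ih (botS_inj hi) ?_ ?_ ?_ ?_ ?_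
    · simpa [zeroS] using h1
    · simpa [botS] using h2
    · simpa [botS] using h3
    · intro x y hx hy
      cases x <;> cases y <;> simp only [botS, Option.elim]
      · omega
      · omega
      · rename_i i j
        have := h4 i j (fun hh => hx ⟨by rw [hh.1], by rw [hh.2]⟩) (fun hh => hy ⟨by rw [hh.1], by rw [hh.2]⟩)
        omega
    · have e1 : botS g none < botS g (some A) := Nat.succ_pos _
      have e2 : (univ.filter fun v : V => botS g (some v) < botS g (some A)) =
          univ.filter fun v => g v < g A := by
        ext v
        simp [botS]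
      rw [card_filter_option, if_pos e1, e2]
      omega

theorem Path.top {f g e : V → ℕ} (p : Path σ k f g e) :
    Path (zeroS σ) k (topS f) (topS g) (zeroS e) := by
  induction p with
  | nil hf =>
    have : zeroS (0 : V → ℕ) = 0 := by
      funext o
      cases o <;> rfl
    rw [this]
    exact Path.nil _ (topS_inj hf)
  | @move g e h p hi hm ih =>
    refine Path.move _ ih (topS_inj hi) ?_
    intro x y h1 h2
    cases x <;> cases y <;> simp only [topS, zeroS, Option.elim] at h1 h2 ⊢
    · omega
    · rename_i v
      have := le_supS g v
      omega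
    · rename_i v
      exact le_supS h v
    · exact hm _ _ h1 h2
  | @event g e h A B p hi h1 h2 h3 h4 h5 ih =>
    rw [zeroS_add_single]
    refine Path.event _ (some A) (some B) ih (topS_inj hi) ?_ ?_ ?_ ?_ ?_
    · simpa [zeroS] using h1
    · simpa [topS] using h2
    · simpa [topS] using h3
    · intro x y hx hy
      cases x <;> cases y <;> simp only [topS, Option.elim]
      · omega
      · rename_i v
        have := le_supS g v
        have := le_supS h v
        omega
      · rename_i v
        have := le_supS g v
        have := le_supS h v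
        omega
      · rename_i i j
        exact h4 i j (fun hh => hx ⟨by rw [hh.1], by rw [hh.2]⟩) (fun hh => hy ⟨by rw [hh.1], by rw [hh.2]⟩)
    · have e0 := le_supS g A
      have e1 : ¬ topS g none < topS g (some A) := by
        change ¬ (univ.sup g + 1 < g A)
        omega
      have e2 : (univ.filter fun v : V => topS g (some v) < topS g (some A)) =
          univ.filter fun v => g v < g A := Finset.filter_congr fun v _ => Iff.rfl
      rw [card_filter_option, if_neg e1, e2]
      omega

end

theorem PGood.bot {n k E : ℕ} (h : PGood n k E) : PGood (n + 1) (k + 1) E := by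
  obtain ⟨V, _, _, σ, f, g, e, hn, p, hE⟩ := h
  refine ⟨Option V, inferInstance, inferInstance, _, _, _, _, ?_, Path.bot p, ?_⟩
  · rw [Fintype.card_option, hn]
  · rw [Fintype.sum_option]
    simpa [zeroS] using hE

theorem PGood.top {n k E : ℕ} (h : PGood n k E) : PGood (n + 1) k E := by
  obtain ⟨V, _, _, σ, f, g, e, hn, p, hE⟩ := h
  refine ⟨Option V, inferInstance, inferInstance, _, _, _, _, ?_, Path.top p, ?_⟩
  · rw [Fintype.card_option, hn]
  · rw [Fintype.sum_option]
    simpa [zeroS] using hE

theorem PGood.pad {n k E : ℕ} (h : PGood n k E) (a b : ℕ) : PGood (n + a + b) (k + a) E := by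
  have h1 : ∀ a, PGood (n + a) (k + a) E := by
    intro a
    induction a with
    | zero => exact h
    | succ a ih => exact ih.bot
  induction b with
  | zero => exact h1 a
  | succ b ih => exact ih.top

/-! ### The chain -/

/-- states of the chain -/
def chS (M i : ℕ) : Fin (M + 1) → ℕ := fun x => if (x : ℕ) < i then M - x else x - i

/-- counts of the chain -/
def chE (M i : ℕ) : Fin (M + 1) → ℕ := fun x => if (x : ℕ) < i then 1 else 0

theorem chain (M : ℕ) : ∀ i ≤ M,
    Path (fun x : Fin (M + 1) => M - (x : ℕ)) 1 (fun x => (x : ℕ)) (chS M i) (chE M i) := by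
  intro i
  induction i with
  | zero =>
    intro _
    have e1 : chS M 0 = fun x : Fin (M + 1) => (x : ℕ) := by
      funext x
      simp [chS]
    have e2 : chE M 0 = 0 := by
      funext x
      simp [chE]
    rw [e1, e2]
    exact Path.nil _ (fun x y h => Fin.ext h)
  | succ i ih =>
    intro hi
    have p := ih (by omega)
    set A : Fin (M + 1) := ⟨i, by omega⟩ with hA
    set B : Fin (M + 1) := ⟨i + 1, by omega⟩ with hB
    set h1 : Fin (M + 1) → ℕ := fun x => if x = A then 1 else if x = B then 0 else chS M i x with hh1
    have hval : ∀ x : Fin (M + 1), x = A ↔ (x : ℕ) = i := fun x => by rw [hA, Fin.ext_iff]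
    have hvalB : ∀ x : Fin (M + 1), x = B ↔ (x : ℕ) = i + 1 := fun x => by rw [hB, Fin.ext_iff]
    have hform : ∀ x : Fin (M + 1), h1 x = if (x : ℕ) = i then 1 else if (x : ℕ) = i + 1 then 0 else
        if (x : ℕ) < i then M - x else x - i := by
      intro x
      simp only [hh1, hval, hvalB, chS]
    have hinj : Function.Injective h1 := by
      intro x y hxy
      rw [hform, hform] at hxy
      have := x.isLt
      have := y.isLt
      apply Fin.ext
      split_ifs at hxy <;> omega
    have step := Path.event h1 A B p hinj (by simp only [hA, hB]; omega)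
      (by simp only [chS, hA, hB]; split_ifs <;> omega)
      (by rw [hform, hform]; simp only [hA, hB]; split_ifs <;> omega)
      (by
        intro x y hx hy
        rw [hval, hvalB] at hx
        rw [hvalB, hval] at hy
        rw [hform, hform]
        unfold chS
        have := x.isLt
        have := y.isLt
        split_ifs <;> omega)
      (by
        have : (univ.filter fun x : Fin (M + 1) => chS M i x < chS M i A) = ∅ := by
          rw [filter_eq_empty_iff]
          intro x _
          have := x.isLt
          simp only [chS, hA]
          split_ifs <;> omega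
        rw [this, card_empty])
    have fin := Path.move (chS M (i + 1)) step (by
        intro x y hxy
        have := x.isLt
        have := y.isLt
        apply Fin.ext
        unfold chS at hxy
        split_ifs at hxy <;> omega) (by
        intro x y hxy hlt
        rw [hform, hform] at hlt
        have := x.isLt
        have := y.isLt
        unfold chS
        split_ifs at hlt ⊢ <;> omega)
    refine cast ?_ fin
    congr 1
    funext x
    simp only [Pi.add_apply, chE]
    by_cases hx : x = A
    · rw [hx, Pi.single_eq_same]
      simp [hA]
    · rw [Pi.single_eq_of_ne hx]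
      rw [hval] at hx
      split_ifs <;> omega

theorem sum_chE (M : ℕ) : ∑ x, chE M M x = M := by
  unfold chE
  rw [← Finset.card_filter]
  have : (univ.filter fun x : Fin (M + 1) => (x : ℕ) < M) = (univ : Finset (Fin M)).map Fin.castSuccEmb := by
    ext x
    simp only [mem_filter, mem_univ, true_and, mem_map, Fin.coe_castSuccEmb]
    constructor
    · intro h
      exact ⟨⟨x, h⟩, Fin.ext rfl⟩
    · rintro ⟨y, rfl⟩
      exact y.isLt
  rw [this, card_map, card_univ, Fintype.card_fin]

/-- chains of blocks -/
theorem chain_comp {W : Type} [Fintype W] [DecidableEq W] {S h k E : ℕ} {s C : W → ℕ} {key : W → ℕ → ℕ}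
    (H : Str W S h k E s C key) {L : ℕ} (hS : S ≤ L) (M : ℕ) :
    PGood ((M + 1) * (L * (Fintype.card W * h))) (L * (Fintype.card W * h)) ((L - S) * E * M) := by
  obtain ⟨ε, q, hε⟩ := H.path
  have hR : ∀ w, C w < univ.sup C + 1 := fun w => Nat.lt_succ_of_le (Finset.le_sup (mem_univ w))
  obtain ⟨E', path, hE'⟩ := compose (L := L) (P := 1) H q hR (chain M M le_rfl)
    (by intro a; unfold chE; split_ifs <;> omega) (by omega)
  rw [one_mul] at path
  refine ⟨(Fin (M + 1) × W) × Fin (L * h), inferInstance, inferInstance, _, _, _, E', ?_, path, ?_⟩
  · rw [Fintype.card_prod, Fintype.card_prod, Fintype.card_fin, Fintype.card_fin]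
    ring
  · rw [hE', sum_chE, one_mul]
    exact Nat.mul_le_mul_right _ (Nat.mul_le_mul_left _ hε)

/-- the numbers of the tower -/
theorem tower10 (j : ℕ) (M : ℕ) : PGood ((M + 1) * 10000 ^ (j + 1)) (10000 ^ (j + 1)) (981 * (12259 ^ j * 13) * M) := by
  obtain ⟨g, e, p, he, hE⟩ := base10
  have hm : ∀ a : Fin 10, sg a ≤ 9 := by decide
  have hσ : Function.Injective sg := by decide
  obtain ⟨W, _, _, h, k, s, C, key, H, h1, -⟩ := tower p hσ hm he hE (by omega) (L := 1000) (by norm_num)
    (by norm_num) j
  have := chain_comp H (L := 1000) (by norm_num) M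
  rw [h1] at this
  have e1 : 1000 * ((10 * 1000) ^ j * 10) = 10000 ^ (j + 1) := by
    rw [pow_succ]
    norm_num
    ring
  rw [e1] at this
  norm_num at this
  exact this

end Pool.Agent.L0h27.PP
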