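import Pool.Agent.L0h27.PP.Str

/-!
# The composition of a path with a drifting structure
-/

set_option autoImplicit false
set_option linter.unusedSectionVars false

open Finset

namespace Pool.Agent.L0h27.PP

open Pool.Agent.L0h27.PL

section Abstract

variable {X V I : Type} [Fintype X] [DecidableEq X] [Fintype V] [DecidableEq V] [Fintype I] [DecidableEq I]
  {bl : X → V} {ro : X → ℕ} {inn : X → I} {N : ℕ} {a : V}

theorem sum_row (lay : Lay bl ro inn N) {v : ℕ} (hv : Full bl ro inn a v) (ε : I → ℕ) :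
    ∑ x ∈ univ.filter (fun x : X => bl x = a ∧ ro x = v), ε (inn x) = ∑ i, ε i := by
  choose β hβ using hv
  symm
  refine Finset.sum_bij (fun α _ => β α) ?_ ?_ ?_ ?_
  · intro α _
    simp only [mem_filter, mem_univ, true_and]
    exact ⟨(hβ α).1, (hβ α).2.1⟩
  · intro α _ α' _ h
    rw [← (hβ α).2.2, ← (hβ α').2.2, h]
  · intro x hx
    simp only [mem_filter, mem_univ, true_and] at hx
    have := hβ (inn x)
    exact ⟨inn x, mem_univ _, lay.inj _ _ (this.1.trans hx.1.symm) (this.2.1.trans hx.2.symm) this.2.2⟩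
  · intro α _
    rw [(hβ α).2.2]

theorem sum_sweep (lay : Lay bl ro inn N) {r₀ L : ℕ} (hfull : ∀ v, r₀ ≤ v → v < L → Full bl ro inn a v)
    (ε : I → ℕ) :
    (∑ x, if bl x = a ∧ r₀ ≤ ro x ∧ ro x < L then ε (inn x) else 0) = (L - r₀) * ∑ i, ε i := by
  rw [← Finset.sum_filter]
  rw [← Finset.sum_fiberwise_of_maps_to (t := Finset.Ico r₀ L) (g := ro)]
  · rw [← Nat.card_Ico, ← smul_eq_mul, ← Finset.sum_const]
    refine Finset.sum_congr rfl fun v hv => ?_
    rw [Finset.mem_Ico] at hv
    rw [← sum_row lay (hfull v hv.1 hv.2) ε, Finset.filter_filter]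
    refine Finset.sum_congr ?_ fun _ _ => rfl
    ext x
    simp only [mem_filter, mem_univ, true_and]
    constructor
    · rintro ⟨⟨h1, -, -⟩, h2⟩
      exact ⟨h1, h2⟩
    · rintro ⟨h1, h2⟩
      exact ⟨⟨h1, by omega, by omega⟩, h2⟩
  · intro x hx
    simp only [mem_filter, mem_univ, true_and] at hx
    rw [Finset.mem_Ico]
    exact hx.2

end Abstract

variable {W : Type} [Fintype W] [DecidableEq W] {S h k E : ℕ} {s C : W → ℕ} {key : W → ℕ → ℕ} {n₀ L : ℕ}

theorem stt_st0 (H : Str W S h k E s C key) (g p : Fin n₀ → ℕ) (x y : (Fin n₀ × W) × Fin (L * h)) :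
    stt s key L h g p x < stt s key L h g p y ↔
      st0 (fun x : (Fin n₀ × W) × Fin (L * h) => x.1.1) (roC s p) (innC s H.hpos p)
        (fun i : W × Fin h => key i.1 i.2) g x <
      st0 (fun x : (Fin n₀ × W) × Fin (L * h) => x.1.1) (roC s p) (innC s H.hpos p)
        (fun i : W × Fin h => key i.1 i.2) g y := by
  rw [stt_lt, st0_lt, H.lt_iff]
  rfl

theorem pos_single_ne {p : Fin n₀ → ℕ} {a : Fin n₀} {x : (Fin n₀ × W) × Fin (L * h)} (hx : x.1.1 ≠ a) :
    pos s (p + Pi.single a 1) x = pos s p x := by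
  unfold pos
  rw [Pi.add_apply, Pi.single_eq_of_ne hx, add_zero]

theorem pos_single_eq {p : Fin n₀ → ℕ} {a : Fin n₀} {x : (Fin n₀ × W) × Fin (L * h)} (hx : x.1.1 = a) :
    pos s (p + Pi.single a 1) x = pos s p x + s x.1.2 := by
  unfold pos
  rw [Pi.add_apply, hx, Pi.single_eq_same]
  ring

theorem final_move (H : Str W S h k E s C key) {σ : Fin n₀ → ℕ} {R m T : ℕ} (hR : ∀ w, C w < R)
    {g g' p : Fin n₀ → ℕ} {a b : Fin n₀} (hg : Function.Injective g) (hσ : σ b < σ a) (hadj : Adj g a b)
    (hba : g' b < g' a)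
    (hiff : ∀ i j, ¬ (i = a ∧ j = b) → ¬ (i = b ∧ j = a) → (g i < g j ↔ g' i < g' j))
    (x y : (Fin n₀ × W) × Fin (L * h)) (hxy : CC R C σ x.1 ≤ CC R C σ y.1)
    (hlt : st1 (fun x : (Fin n₀ × W) × Fin (L * h) => x.1.1) (roC s p) (innC s H.hpos p)
        (fun i : W × Fin h => key i.1 i.2) g a b m
          (rho (fun i : W × Fin h => key i.1 i.2) (fun i : W × Fin h => key i.1 (i.2 + s i.1)) L T) x <
      st1 (fun x : (Fin n₀ × W) × Fin (L * h) => x.1.1) (roC s p) (innC s H.hpos p)
        (fun i : W × Fin h => key i.1 i.2) g a b m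
          (rho (fun i : W × Fin h => key i.1 i.2) (fun i : W × Fin h => key i.1 (i.2 + s i.1)) L T) y) :
    stt s key L h g' (p + Pi.single a 1) x < stt s key L h g' (p + Pi.single a 1) y := by
  have hd : Function.Injective (fun i : W × Fin h => key i.1 i.2) := by
    intro i j hij
    obtain ⟨h1, h2⟩ := H.inj _ _ _ _ hij
    exact Prod.ext h1 (Fin.ext h2)
  have lay : Lay (fun x : (Fin n₀ × W) × Fin (L * h) => x.1.1) (roC s p) (innC s H.hpos p) _ := layC H.hpos p
  have hgab := hadj.1
  have hane : a ≠ b := fun h => by rw [h] at hgab; exact lt_irrefl _ hgab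
  have hσ2 : ¬ (x.1.1 = a ∧ y.1.1 = b) := by
    rintro ⟨h1, h2⟩
    unfold CC at hxy
    rw [h1, h2] at hxy
    have h3 : σ b * R + R ≤ σ a * R := by
      rw [← Nat.succ_mul]
      exact Nat.mul_le_mul_right R hσ
    have h4 := hR y.1.2
    omega
  rw [stt_lt]
  by_cases hb : x.1.1 = y.1.1
  · right
    refine ⟨by rw [hb], ?_⟩
    have hCC : C x.1.2 ≤ C y.1.2 := by
      unfold CC at hxy
      rw [hb] at hxy
      omega
    by_cases hxb : x.1.1 = b
    · have hyb : y.1.1 = b := hb ▸ hxb
      rw [pos_single_ne (fun hh => hane (hh.symm.trans hxb)), pos_single_ne (fun hh => hane (hh.symm.trans hyb)),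
        H.lt_iff]
      exact (st1_lt_b lay hd hgab hxb hyb).1 hlt
    · have hlt2 := (st1_lt_same (bl := fun x : (Fin n₀ × W) × Fin (L * h) => x.1.1) (x := x) (y := y) hb hxb).1 hlt
      by_cases hxa : x.1.1 = a
      · have hya : y.1.1 = a := hb ▸ hxa
        rw [if_pos hxa, if_pos hya] at hlt2
        rw [pos_single_eq hxa, pos_single_eq hya]
        rcases hlt2 with h1 | ⟨h1, h2⟩
        · exact H.drift' _ _ _ _ hCC ((H.lt_iff _ _ _ _).2 (Or.inl h1))
        · rw [h1] at h2
          unfold rho at h2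
          split_ifs at h2
          · change key x.1.2 (pos s p x % h + s x.1.2) < key y.1.2 (pos s p y % h + s y.1.2) at h2
            have e1 := H.shift_mul x.1.2 (pos s p x % h + s x.1.2) (pos s p x / h)
            have e2 := H.shift_mul y.1.2 (pos s p y % h + s y.1.2) (pos s p y / h)
            have e3 : pos s p x % h + s x.1.2 + pos s p x / h * h = pos s p x + s x.1.2 := by
              have := Nat.div_add_mod (pos s p x) h
              rw [mul_comm] at this
              omega
            have e4 : pos s p y % h + s y.1.2 + pos s p y / h * h = pos s p y + s y.1.2 := by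
              have := Nat.div_add_mod (pos s p y) h
              rw [mul_comm] at this
              omega
            rw [e3] at e1
            rw [e4] at e2
            change pos s p x / h = pos s p y / h at h1
            rw [e1, e2, h1]
            omega
          · exact H.drift' _ _ _ _ hCC ((H.lt_iff _ _ _ _).2 (Or.inr ⟨h1, h2⟩))
      · have hya : y.1.1 ≠ a := fun hh => hxa (hb.trans hh)
        rw [if_neg hxa, if_neg hya] at hlt2
        rw [pos_single_ne hxa, pos_single_ne hya, H.lt_iff]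
        exact hlt2
  · left
    have hlt2 := (st1_lt_of_ne (bl := fun x : (Fin n₀ × W) × Fin (L * h) => x.1.1) (x := x) (y := y) hg hb).1 hlt
    by_cases h2 : x.1.1 = b ∧ y.1.1 = a
    · rw [h2.1, h2.2]
      exact hba
    rw [← hiff x.1.1 y.1.1 hσ2 h2]
    by_cases hxb : x.1.1 = b
    · have hyb : y.1.1 ≠ b := fun hh => hb (hxb.trans hh.symm)
      have hya : y.1.1 ≠ a := fun hh => h2 ⟨hxb, hh⟩
      rw [outer_ne y hyb] at hlt2
      have h3 := hadj.2 y.1.1 hya hyb
      have h4 : g y.1.1 ≠ g a := fun hh => hya (hg hh)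
      have h5 : g y.1.1 ≠ g b := fun hh => hyb (hg hh)
      rw [hxb]
      unfold outer at hlt2
      split_ifs at hlt2
      · omega
      · simp only [hxb] at hlt2
        omega
    · rw [outer_ne x hxb] at hlt2
      by_cases hyb : y.1.1 = b
      · rw [hyb]
        unfold outer at hlt2
        split_ifs at hlt2
        · omega
        · simp only [hyb] at hlt2
          omega
      · rw [outer_ne y hyb] at hlt2
        omega

/-- one event of the outer path -/
theorem one_event (H : Str W S h k E s C key) {ε : W × Fin h → ℕ}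
    (q : Path (fun x : W × Fin h => C x.1) k (fun x => key x.1 x.2) (fun x => key x.1 (x.2 + s x.1)) ε)
    {σ : Fin n₀ → ℕ} {K P R : ℕ} (hR : ∀ w, C w < R) {g g' p : Fin n₀ → ℕ} {a b : Fin n₀}
    (hg : Function.Injective g) (hg' : Function.Injective g') (hσ : σ b < σ a) (hab : g a < g b)
    (hba : g' b < g' a)
    (hiff : ∀ i j, ¬ (i = a ∧ j = b) → ¬ (i = b ∧ j = a) → (g i < g j ↔ g' i < g' j))
    (hK : (univ.filter fun c => g c < g a).card + 1 = K) (hp : p a ≤ P) (hP : P * S ≤ L) :
    ∃ E' : (Fin n₀ × W) × Fin (L * h) → ℕ,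
      Path (fun x : (Fin n₀ × W) × Fin (L * h) => CC R C σ x.1) (K * (L * (Fintype.card W * h)))
        (stt s key L h g p) (stt s key L h g' (p + Pi.single a 1)) E' ∧
        ∑ x, E' x = (L - P * S) * ∑ i, ε i := by
  have hadj := adj_of_event hg hab hba hiff
  have lay : Lay (fun x : (Fin n₀ × W) × Fin (L * h) => x.1.1) (roC s p) (innC s H.hpos p) _ := layC H.hpos p
  have hfull : ∀ v, P * S ≤ v → v < L →
      Full (fun x : (Fin n₀ × W) × Fin (L * h) => x.1.1) (roC s p) (innC s H.hpos p) a v :=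
    fun v h1 h2 => fullC H hp h1 h2
  have hC : ∀ x y : (Fin n₀ × W) × Fin (L * h), x.1.1 = a → y.1.1 = b → ¬ CC R C σ x.1 ≤ CC R C σ y.1 := by
    intro x y h1 h2 hxy
    unfold CC at hxy
    rw [h1, h2] at hxy
    have h3 : σ b * R + R ≤ σ a * R := by
      rw [← Nat.succ_mul]
      exact Nat.mul_le_mul_right R hσ
    have h4 := hR y.1.2
    omega
  have hkI : k ≤ Fintype.card (W × Fin h) := by
    rw [Fintype.card_prod, Fintype.card_fin]
    exact H.kle
  obtain ⟨m, path⟩ := sweep q lay (comC H.hpos p σ) hg hC hadj hK hP hfull hkI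
  have start : Path (fun x : (Fin n₀ × W) × Fin (L * h) => CC R C σ x.1) (K * (L * (Fintype.card W * h)))
      (stt s key L h g p) _ 0 :=
    Path.move _ (Path.nil _ (stt_inj H hg p)) path.inj_left fun x y _ hlt => (stt_st0 H g p x y).1 hlt
  have fin := Path.move _ (start.trans path) (stt_inj (L := L) H hg' (p + Pi.single a 1))
    (fun x y hxy hlt => final_move H hR hg hσ hadj hba hiff x y hxy hlt)
  refine ⟨_, fin, ?_⟩
  simp only [Pi.add_apply, Pi.zero_apply, zero_add]
  exact sum_sweep lay hfull ε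

/-- the outer path is followed by the composition -/
theorem compose (H : Str W S h k E s C key) {ε : W × Fin h → ℕ}
    (q : Path (fun x : W × Fin h => C x.1) k (fun x => key x.1 x.2) (fun x => key x.1 (x.2 + s x.1)) ε)
    {σ f f' e : Fin n₀ → ℕ} {K P R : ℕ} (hR : ∀ w, C w < R) (p₀ : Path σ K f f' e) (he : ∀ a, e a ≤ P)
    (hP : P * S ≤ L) :
    ∃ E' : (Fin n₀ × W) × Fin (L * h) → ℕ,
      Path (fun x : (Fin n₀ × W) × Fin (L * h) => CC R C σ x.1) (K * (L * (Fintype.card W * h)))
        (stt s key L h f 0) (stt s key L h f' e) E' ∧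
        ∑ x, E' x = (L - P * S) * (∑ i, ε i) * ∑ a, e a := by
  induction p₀ with
  | nil hf =>
    exact ⟨0, Path.nil _ (stt_inj H hf 0), by simp⟩
  | @move g e h p hh hmono ih =>
    obtain ⟨E', path, h1⟩ := ih he
    refine ⟨E', Path.move _ path (stt_inj H hh e) ?_, h1⟩
    intro x y hxy hlt
    have hg := p.inj_right
    rw [stt_lt] at hlt ⊢
    rcases hlt with h3 | ⟨h3, h4⟩
    · left
      apply hmono _ _ _ h3
      by_contra hcon
      push Not at hcon
      have h3 : σ y.1.1 * R + R ≤ σ x.1.1 * R := by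
        rw [← Nat.succ_mul]
        exact Nat.mul_le_mul_right R hcon
      have h4 := hR y.1.2
      unfold CC at hxy
      omega
    · have h5 : x.1.1 = y.1.1 := hg h3
      exact Or.inr ⟨by rw [h5], h4⟩
  | @event g e h A B p hh hσ hAB hBA hiff hrank ih =>
    have he' : ∀ a, e a ≤ P := fun a => (Nat.le_add_right _ _).trans (he a)
    obtain ⟨E', path, h1⟩ := ih he'
    obtain ⟨E'', path', h2⟩ := one_event (L := L) H q hR p.inj_right hh hσ hAB hBA hiff hrank (he' A) hP
    refine ⟨_, path.trans path', ?_⟩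
    simp only [Pi.add_apply]
    rw [sum_add_distrib, sum_add_distrib, h1, h2, mul_add]
    congr 1
    rw [Finset.sum_pi_single' A 1 univ, if_pos (mem_univ _), mul_one]

theorem keyC_inj (H : Str W S h k E s C key) (hL : 0 < L) (x x' : Fin n₀ × W) (z z' : ℕ)
    (he : keyC L h key x z = keyC L h key x' z') : x = x' ∧ z = z' := by
  have hLh : 0 < L * h := Nat.mul_pos hL H.hpos
  have h1 := key_low H x.2 (z % (L * h)) (Nat.mod_lt _ hLh)
  have h2 := key_low H x'.2 (z' % (L * h)) (Nat.mod_lt _ hLh)
  unfold keyC at he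
  obtain ⟨h3, h4⟩ := lexi_eq h1 h2 he
  obtain ⟨h5, h6⟩ := lexi_eq x.1.isLt x'.1.isLt h3
  obtain ⟨h7, h8⟩ := H.inj _ _ _ _ h4
  refine ⟨Prod.ext (Fin.ext h6) h7, ?_⟩
  rw [← Nat.div_add_mod z (L * h), ← Nat.div_add_mod z' (L * h), h5, h8]

/-- the shift by the common part of the speeds -/
theorem keyC_shift (H : Str W S h k E s C key) (hL : 0 < L) (σ e : Fin n₀ → ℕ) (a : Fin n₀) (w w' : W) (z z' : ℕ)
    (hk : key w' (z' + e a * s w') < key w (z + e a * s w)) :
    keyC L h key (a, w') (z' + sC L h s σ e (a, w')) < keyC L h key (a, w) (z + sC L h s σ e (a, w)) := by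
  rw [keyC_same H hL]
  unfold sC
  simp only
  rw [show z' + (2 * σ a * (L * h) + e a * s w') = z' + e a * s w' + 2 * σ a * L * h by ring,
    show z + (2 * σ a * (L * h) + e a * s w) = z + e a * s w + 2 * σ a * L * h by ring,
    H.shift_mul, H.shift_mul]
  omega

theorem card_comp (h L n₀ : ℕ) : Fintype.card (Fin n₀ × W) * (L * h) = n₀ * (L * (Fintype.card W * h)) := by
  rw [Fintype.card_prod, Fintype.card_fin]
  ring

/-- the composition -/
theorem Str.comp (H : Str W S h k E s C key) {σ g e : Fin n₀ → ℕ} {k₀ E₀ P m₀ R : ℕ}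
    (p₀ : Path σ k₀ (fun i => (i : ℕ)) g e) (hσ : Function.Injective σ) (hm : ∀ a, σ a ≤ m₀)
    (he : ∀ a, e a ≤ P) (hE₀ : E₀ ≤ ∑ a, e a) (hS : 2 * m₀ + 1 ≤ S) (hP : P * S ≤ L) (hL : 0 < L)
    (hk₀ : k₀ ≤ n₀) (hR : ∀ w, C w < R) :
    Str (Fin n₀ × W) S (L * h) (k₀ * (L * (Fintype.card W * h))) ((L - P * S) * E * E₀)
      (sC L h s σ e) (CC R C σ) (keyC L h key) where
  hpos := Nat.mul_pos hL H.hpos
  Cinj := by
    rintro x y hxy
    unfold CC at hxy
    obtain ⟨h1, h2⟩ := lexi_eq (hR _) (hR _) hxy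
    exact Prod.ext (hσ h1) (H.Cinj h2)
  sle := by
    intro x
    unfold sC
    have h1 : e x.1 * s x.2 ≤ L * h := by
      calc e x.1 * s x.2 ≤ P * (S * h) := Nat.mul_le_mul (he _) (H.sle _)
        _ = P * S * h := by ring
        _ ≤ L * h := Nat.mul_le_mul_right _ hP
    calc 2 * σ x.1 * (L * h) + e x.1 * s x.2 ≤ 2 * m₀ * (L * h) + L * h :=
          add_le_add (Nat.mul_le_mul_right _ (Nat.mul_le_mul_left _ (hm _))) h1
      _ = (2 * m₀ + 1) * (L * h) := by ring
      _ ≤ S * (L * h) := Nat.mul_le_mul_right _ hS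
  shift := by
    intro x z
    have hLh : 0 < L * h := Nat.mul_pos hL H.hpos
    unfold keyC
    rw [card_comp, Nat.add_div_right _ hLh, Nat.add_mod_right]
    ring
  low := by
    intro x z hz
    have hLh : 0 < L * h := Nat.mul_pos hL H.hpos
    unfold keyC
    rw [card_comp, Nat.div_eq_of_lt hz, Nat.mod_eq_of_lt hz, zero_mul, zero_add]
    have h1 := key_low H x.2 z hz
    have h2 : (x.1 : ℕ) * (L * (Fintype.card W * h)) + L * (Fintype.card W * h) ≤
        n₀ * (L * (Fintype.card W * h)) := by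
      rw [← Nat.succ_mul]
      exact Nat.mul_le_mul_right _ x.1.isLt
    omega
  inj := fun x x' z z' h => keyC_inj H hL x x' z z' h
  mono := by
    rintro ⟨a, w⟩ z z' hz
    rw [keyC_same H hL]
    exact H.mono w z z' hz
  drift := by
    rintro ⟨a, w⟩ ⟨a', w'⟩ z z' hC hk
    by_cases haa : a = a'
    · subst haa
      rw [keyC_same H hL] at hk
      apply keyC_shift H hL
      apply H.drift_iter _ _ _ _ _ hk
      unfold CC at hC
      simp only at hC
      omega
    · have h1 : σ a' < σ a := by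
        by_contra hcon
        push Not at hcon
        rcases lt_or_eq_of_le hcon with h2 | h2
        · have h3 : σ a * R + R ≤ σ a' * R := by
            rw [← Nat.succ_mul]
            exact Nat.mul_le_mul_right R h2
          have h4 := hR w
          unfold CC at hC
          simp only at hC
          omega
        · exact haa (hσ h2)
      exact separate H hL he hP _ _ z z' h1 (row_of_keyC H hL _ _ _ _ hk)
  kle := by
    rw [card_comp]
    exact Nat.mul_le_mul_right _ hk₀
  path := by
    obtain ⟨ε, q, hε⟩ := H.path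
    obtain ⟨E', path, hE'⟩ := compose (L := L) H q hR p₀ he hP
    have hinj0 : Function.Injective (fun x : (Fin n₀ × W) × Fin (L * h) => keyC L h key x.1 x.2) := by
      intro x y hxy
      obtain ⟨h1, h2⟩ := keyC_inj H hL _ _ _ _ hxy
      exact Prod.ext h1 (Fin.ext h2)
    have hinj1 : Function.Injective
        (fun x : (Fin n₀ × W) × Fin (L * h) => keyC L h key x.1 (x.2 + sC L h s σ e x.1)) := by
      intro x y hxy
      obtain ⟨h1, h2⟩ := keyC_inj H hL _ _ _ _ hxy
      rw [h1] at h2
      exact Prod.ext h1 (Fin.ext (by omega))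
    have start : Path (fun x : (Fin n₀ × W) × Fin (L * h) => CC R C σ x.1)
        (k₀ * (L * (Fintype.card W * h))) (fun x => keyC L h key x.1 x.2)
        (stt s key L h (fun i => (i : ℕ)) 0) 0 := by
      refine Path.move _ (Path.nil _ hinj0) path.inj_left fun x y _ hlt => ?_
      rw [stt_lt]
      unfold keyC at hlt
      rw [Nat.div_eq_of_lt x.2.isLt, Nat.div_eq_of_lt y.2.isLt, Nat.mod_eq_of_lt x.2.isLt,
        Nat.mod_eq_of_lt y.2.isLt, zero_mul, zero_add, zero_add,
        lexi (key_low H _ _ x.2.isLt) (key_low H _ _ y.2.isLt)] at hlt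
      unfold pos
      simpa using hlt
    refine ⟨E', ?_, ?_⟩
    · have := start.trans path
      rw [zero_add] at this
      refine Path.move _ this hinj1 fun x y hxy hlt => ?_
      rw [stt_lt] at hlt
      by_cases haa : x.1.1 = y.1.1
      · have hlt2 : key x.1.2 (pos s e x) < key y.1.2 (pos s e y) := by
          rcases hlt with h1 | h1
          · rw [haa] at h1
            exact absurd h1 (lt_irrefl _)
          · exact h1.2
        have := keyC_shift (n₀ := n₀) H hL σ e y.1.1 y.1.2 x.1.2 y.2 x.2 (by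
          unfold pos at hlt2
          rw [haa] at hlt2
          exact hlt2)
        have e1 : ((y.1.1, x.1.2) : Fin n₀ × W) = x.1 := by rw [← haa]
        rw [e1] at this
        exact this
      · have h1 : σ x.1.1 < σ y.1.1 := by
          by_contra hcon
          push Not at hcon
          rcases lt_or_eq_of_le hcon with h2 | h2
          · have h3 : σ y.1.1 * R + R ≤ σ x.1.1 * R := by
              rw [← Nat.succ_mul]
              exact Nat.mul_le_mul_right R h2
            have h4 := hR y.1.2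
            unfold CC at hxy
            omega
          · exact haa (hσ h2).symm
        apply separate H hL he hP _ _ _ _ h1
        rw [Nat.div_eq_of_lt x.2.isLt]
        exact Nat.zero_le _
    · rw [hE']
      exact Nat.mul_le_mul (Nat.mul_le_mul_left _ hε) hE₀

end Pool.Agent.L0h27.PP
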