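import Pool.Agent.L0h27.PP.Sweep
import Mathlib.Order.Interval.Finset.Nat
import Mathlib.Algebra.BigOperators.Ring.Finset

/-!
# Drifting structures
-/

set_option autoImplicit false
set_option linter.unusedSectionVars false

open Finset

namespace Pool.Agent.L0h27.PP

open Pool.Agent.L0h27.PL

theorem lexi {M q q' r r' : ℕ} (h : r < M) (h' : r' < M) :
    q * M + r < q' * M + r' ↔ q < q' ∨ (q = q' ∧ r < r') := by
  rcases lt_trichotomy q q' with c | c | c
  · have : q * M + M ≤ q' * M := by
      rw [← Nat.succ_mul]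
      exact Nat.mul_le_mul_right M c
    constructor
    · intro _
      exact Or.inl c
    · intro _
      omega
  · subst c
    constructor
    · intro h1
      exact Or.inr ⟨rfl, by omega⟩
    · rintro (h1 | h1)
      · omega
      · omega
  · have : q' * M + M ≤ q * M := by
      rw [← Nat.succ_mul]
      exact Nat.mul_le_mul_right M c
    constructor
    · intro _
      omega
    · rintro (h1 | h1)
      · omega
      · omega

theorem lexi_eq {M q q' r r' : ℕ} (h : r < M) (h' : r' < M) (he : q * M + r = q' * M + r') :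
    q = q' ∧ r = r' := by
  have h1 := (lexi (q := q) (q' := q') h h').not.1 (by omega)
  have h2 := (lexi (q := q') (q' := q) h' h).not.1 (by omega)
  push Not at h1 h2
  have h3 : q = q' := le_antisymm h2.1 h1.1
  exact ⟨h3, le_antisymm (h2.2 h3.symm) (h1.2 h3)⟩

/-- a drifting structure: the elements `(w, y)` are ordered by `key w z`, where the position `z` of the element
is `y + t s(w)` at time `t`; a row consists of the elements with positions between two consecutive
multiples of `h`, and there is a path which transforms a row at the time `t` in the order of the time `t + 1` -/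
structure Str (W : Type) [Fintype W] [DecidableEq W] (S h k E : ℕ) (s C : W → ℕ) (key : W → ℕ → ℕ) : Prop where
  hpos : 0 < h
  Cinj : Function.Injective C
  sle : ∀ w, s w ≤ S * h
  shift : ∀ w z, key w (z + h) = key w z + Fintype.card W * h
  low : ∀ w z, z < h → key w z < Fintype.card W * h
  inj : ∀ w w' z z', key w z = key w' z' → w = w' ∧ z = z'
  mono : ∀ w z z', z < z' → key w z < key w z'
  drift : ∀ w w' z z', C w' < C w → key w' z' < key w z → key w' (z' + s w') < key w (z + s w)
  kle : k ≤ Fintype.card W * h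
  path : ∃ e, Path (fun x : W × Fin h => C x.1) k (fun x => key x.1 x.2) (fun x => key x.1 (x.2 + s x.1)) e ∧
    E ≤ ∑ x, e x

namespace Str

variable {W : Type} [Fintype W] [DecidableEq W] {S h k E : ℕ} {s C : W → ℕ} {key : W → ℕ → ℕ}

theorem shift_mul (H : Str W S h k E s C key) (w : W) (z t : ℕ) :
    key w (z + t * h) = key w z + t * (Fintype.card W * h) := by
  induction t with
  | zero => simp
  | succ t ih => rw [Nat.succ_mul, ← add_assoc, H.shift, ih, Nat.succ_mul, add_assoc]

theorem decomp (H : Str W S h k E s C key) (w : W) (z : ℕ) :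
    key w z = (z / h) * (Fintype.card W * h) + key w (z % h) := by
  have := H.shift_mul w (z % h) (z / h)
  rw [mul_comm (z / h) h, Nat.mod_add_div] at this
  rw [this, add_comm]

theorem low' (H : Str W S h k E s C key) (w : W) (z : ℕ) : key w (z % h) < Fintype.card W * h :=
  H.low w _ (Nat.mod_lt _ H.hpos)

theorem lt_iff (H : Str W S h k E s C key) (w w' : W) (z z' : ℕ) : key w z < key w' z' ↔
    z / h < z' / h ∨ (z / h = z' / h ∧ key w (z % h) < key w' (z' % h)) := by
  rw [H.decomp w z, H.decomp w' z', lexi (H.low' w z) (H.low' w' z')]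

theorem drift' (H : Str W S h k E s C key) (w w' : W) (z z' : ℕ) (hC : C w' ≤ C w) (hk : key w' z' < key w z) :
    key w' (z' + s w') < key w (z + s w) := by
  rcases lt_or_eq_of_le hC with h1 | h1
  · exact H.drift w w' z z' h1 hk
  · have := H.Cinj h1
    subst this
    apply H.mono
    have : z' < z := by
      by_contra hcon
      push Not at hcon
      rcases lt_or_eq_of_le hcon with h2 | h2
      · have := H.mono w' z z' h2
        omega
      · rw [h2] at hk
        exact lt_irrefl _ hk
    omega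

theorem drift_iter (H : Str W S h k E s C key) (w w' : W) (z z' : ℕ) (hC : C w' ≤ C w) (hk : key w' z' < key w z)
    (t : ℕ) : key w' (z' + t * s w') < key w (z + t * s w) := by
  induction t with
  | zero => simpa using hk
  | succ t ih =>
    have := H.drift' w w' _ _ hC ih
    rwa [add_assoc, add_assoc, ← Nat.succ_mul, ← Nat.succ_mul] at this

end Str

section Composite

variable {W : Type} [Fintype W] [DecidableEq W] {S h k E : ℕ} {s C : W → ℕ} {key : W → ℕ → ℕ} {n₀ L : ℕ}

/-- the speeds of the composition -/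
def sC (L h : ℕ) (s : W → ℕ) (σ e : Fin n₀ → ℕ) (x : Fin n₀ × W) : ℕ := 2 * σ x.1 * (L * h) + e x.1 * s x.2

/-- the classes of the composition -/
def CC (R : ℕ) (C : W → ℕ) (σ : Fin n₀ → ℕ) (x : Fin n₀ × W) : ℕ := σ x.1 * R + C x.2

/-- the key of the composition -/
def keyC (L h : ℕ) (key : W → ℕ → ℕ) (x : Fin n₀ × W) (z : ℕ) : ℕ :=
  (z / (L * h) * n₀ + x.1) * (L * (Fintype.card W * h)) + key x.2 (z % (L * h))

theorem key_low (H : Str W S h k E s C key) (w : W) (z : ℕ) (hz : z < L * h) :
    key w z < L * (Fintype.card W * h) := by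
  rw [H.decomp w z]
  have h1 : z / h < L := (Nat.div_lt_iff_lt_mul H.hpos).2 hz
  have h2 := H.low' w z
  have h3 : z / h * (Fintype.card W * h) + Fintype.card W * h ≤ L * (Fintype.card W * h) := by
    rw [← Nat.succ_mul]
    exact Nat.mul_le_mul_right _ h1
  omega

theorem key_decomp (H : Str W S h k E s C key) (w : W) (z : ℕ) :
    key w z = z / (L * h) * (L * (Fintype.card W * h)) + key w (z % (L * h)) := by
  have := H.shift_mul w (z % (L * h)) (z / (L * h) * L)
  rw [show z % (L * h) + z / (L * h) * L * h = z by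
    rw [mul_assoc, mul_comm (z / (L * h)) (L * h), Nat.mod_add_div]] at this
  rw [this]
  ring

theorem keyC_same (H : Str W S h k E s C key) (hL : 0 < L) (a : Fin n₀) (w w' : W) (z z' : ℕ) :
    keyC L h key (a, w') z' < keyC L h key (a, w) z ↔ key w' z' < key w z := by
  have hLh : 0 < L * h := Nat.mul_pos hL H.hpos
  have h1 := key_low H w (z % (L * h)) (Nat.mod_lt _ hLh)
  have h2 := key_low H w' (z' % (L * h)) (Nat.mod_lt _ hLh)
  unfold keyC
  rw [key_decomp (L := L) H w z, key_decomp (L := L) H w' z', lexi h2 h1, lexi h2 h1]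
  have hn : 0 < n₀ := a.pos
  have h3 : (z' / (L * h) * n₀ + (a : ℕ) < z / (L * h) * n₀ + a) ↔ z' / (L * h) < z / (L * h) := by
    rw [Nat.add_lt_add_iff_right, Nat.mul_lt_mul_right hn]
  have h4 : (z' / (L * h) * n₀ + (a : ℕ) = z / (L * h) * n₀ + a) ↔ z' / (L * h) = z / (L * h) := by
    rw [Nat.add_right_cancel_iff]
    constructor
    · exact fun h => Nat.eq_of_mul_eq_mul_right hn h
    · intro h
      rw [h]
  simp only [h3, h4]

theorem keyC_row (H : Str W S h k E s C key) (hL : 0 < L) (x x' : Fin n₀ × W) (z z' : ℕ)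
    (hz : z' / (L * h) < z / (L * h)) : keyC L h key x' z' < keyC L h key x z := by
  have hLh : 0 < L * h := Nat.mul_pos hL H.hpos
  have h1 := key_low H x.2 (z % (L * h)) (Nat.mod_lt _ hLh)
  have h2 := key_low H x'.2 (z' % (L * h)) (Nat.mod_lt _ hLh)
  unfold keyC
  rw [lexi h2 h1]
  left
  have h3 := x'.1.isLt
  have h4 : z' / (L * h) * n₀ + n₀ ≤ z / (L * h) * n₀ := by
    rw [← Nat.succ_mul]
    exact Nat.mul_le_mul_right _ hz
  omega

theorem row_of_keyC (H : Str W S h k E s C key) (hL : 0 < L) (x x' : Fin n₀ × W) (z z' : ℕ)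
    (hk : keyC L h key x' z' < keyC L h key x z) : z' / (L * h) ≤ z / (L * h) := by
  by_contra hcon
  push Not at hcon
  have := keyC_row H hL x' x z' z hcon
  omega

/-- different blocks separate -/
theorem separate (H : Str W S h k E s C key) (hL : 0 < L) {σ e : Fin n₀ → ℕ} {P : ℕ}
    (he : ∀ a, e a ≤ P) (hP : P * S ≤ L) (x x' : Fin n₀ × W) (z z' : ℕ) (hσ : σ x'.1 < σ x.1)
    (hz : z' / (L * h) ≤ z / (L * h)) :
    keyC L h key x' (z' + sC L h s σ e x') < keyC L h key x (z + sC L h s σ e x) := by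
  have hLh : 0 < L * h := Nat.mul_pos hL H.hpos
  apply keyC_row H hL
  unfold sC
  have h1 : e x'.1 * s x'.2 ≤ L * h := by
    calc e x'.1 * s x'.2 ≤ P * (S * h) := Nat.mul_le_mul (he _) (H.sle _)
      _ = P * S * h := by ring
      _ ≤ L * h := Nat.mul_le_mul_right _ hP
  have h2 : (z' + (2 * σ x'.1 * (L * h) + e x'.1 * s x'.2)) / (L * h) ≤ z' / (L * h) + 2 * σ x'.1 + 1 := by
    calc (z' + (2 * σ x'.1 * (L * h) + e x'.1 * s x'.2)) / (L * h)
        ≤ (z' + (2 * σ x'.1 + 1) * (L * h)) / (L * h) := by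
          apply Nat.div_le_div_right
          have : (2 * σ x'.1 + 1) * (L * h) = 2 * σ x'.1 * (L * h) + L * h := by ring
          omega
      _ = z' / (L * h) + (2 * σ x'.1 + 1) := Nat.add_mul_div_right _ _ hLh
      _ = z' / (L * h) + 2 * σ x'.1 + 1 := by ring
  have h3 : z / (L * h) + 2 * σ x.1 ≤ (z + (2 * σ x.1 * (L * h) + e x.1 * s x.2)) / (L * h) := by
    calc z / (L * h) + 2 * σ x.1 = (z + 2 * σ x.1 * (L * h)) / (L * h) :=
          (Nat.add_mul_div_right _ _ hLh).symm
      _ ≤ _ := Nat.div_le_div_right (by omega)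
  omega

/-- position of an element of the composition -/
def pos (s : W → ℕ) {L h : ℕ} (p : Fin n₀ → ℕ) (x : (Fin n₀ × W) × Fin (L * h)) : ℕ :=
  x.2 + p x.1.1 * s x.1.2

/-- the states of the composition -/
def stt (s : W → ℕ) (key : W → ℕ → ℕ) (L h : ℕ) (g p : Fin n₀ → ℕ) : (Fin n₀ × W) × Fin (L * h) → ℕ :=
  norm fun x => k3 (g x.1.1) (key x.1.2 (pos s p x)) 0

theorem stt_lt (g p : Fin n₀ → ℕ) (x y : (Fin n₀ × W) × Fin (L * h)) :
    stt s key L h g p x < stt s key L h g p y ↔
      g x.1.1 < g y.1.1 ∨ (g x.1.1 = g y.1.1 ∧ key x.1.2 (pos s p x) < key y.1.2 (pos s p y)) := by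
  unfold stt
  rw [norm_lt, k3_lt]
  simp

theorem stt_inj (H : Str W S h k E s C key) {g : Fin n₀ → ℕ} (hg : Function.Injective g) (p : Fin n₀ → ℕ) :
    Function.Injective (stt s key L h g p) := by
  apply norm_inj
  intro x y hxy
  rw [k3_inj] at hxy
  obtain ⟨h1, h2, -⟩ := hxy
  obtain ⟨h3, h4⟩ := H.inj _ _ _ _ h2
  have h5 := hg h1
  unfold pos at h4
  rw [h5, h3] at h4
  exact Prod.ext (Prod.ext h5 h3) (Fin.ext (by omega))

/-- row of an element of a block -/
def roC (s : W → ℕ) {L h : ℕ} (p : Fin n₀ → ℕ) (x : (Fin n₀ × W) × Fin (L * h)) : ℕ := pos s p x / h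

/-- inner element -/
def innC (s : W → ℕ) {L h : ℕ} (hh : 0 < h) (p : Fin n₀ → ℕ) (x : (Fin n₀ × W) × Fin (L * h)) : W × Fin h :=
  (x.1.2, ⟨pos s p x % h, Nat.mod_lt _ hh⟩)

theorem layC (hh : 0 < h) (p : Fin n₀ → ℕ) :
    Lay (fun x : (Fin n₀ × W) × Fin (L * h) => x.1.1) (roC s p) (innC s hh p) (L * (Fintype.card W * h)) := by
  constructor
  · intro x y h1 h2 h3
    unfold innC at h3
    rw [Prod.mk.injEq, Fin.mk.injEq] at h3
    obtain ⟨h4, h5⟩ := h3
    unfold roC at h2
    have h6 : pos s p x = pos s p y := by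
      rw [← Nat.div_add_mod (pos s p x) h, h2, h5, Nat.div_add_mod]
    unfold pos at h6
    rw [h1, h4] at h6
    exact Prod.ext (Prod.ext h1 h4) (Fin.ext (by omega))
  · intro c
    have h1 : (univ.filter fun x : (Fin n₀ × W) × Fin (L * h) => x.1.1 = c) =
        (univ : Finset (W × Fin (L * h))).map ⟨fun y => ((c, y.1), y.2), fun y y' hy => by
          simp only [Prod.mk.injEq] at hy
          exact Prod.ext hy.1.2 hy.2⟩ := by
      ext x
      simp only [mem_filter, mem_univ, true_and, mem_map]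
      constructor
      · intro hx
        exact ⟨(x.1.2, x.2), by rw [← hx]; rfl⟩
      · rintro ⟨y, rfl⟩
        rfl
    rw [h1, card_map, card_univ, Fintype.card_prod, Fintype.card_fin]
    ring

theorem comC {R : ℕ} (hh : 0 < h) (p σ : Fin n₀ → ℕ) :
    Com (fun x : (Fin n₀ × W) × Fin (L * h) => x.1.1) (innC s hh p) (fun x => CC R C σ x.1)
      (fun i : W × Fin h => C i.1) := by
  constructor
  · intro x y hxy hb
    unfold CC at hxy
    rw [hb] at hxy
    change C x.1.2 ≤ C y.1.2
    omega
  · intro x y hb hlt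
    unfold CC
    rw [hb]
    change C x.1.2 < C y.1.2 at hlt
    omega

theorem fullC (H : Str W S h k E s C key) {p : Fin n₀ → ℕ} {a : Fin n₀} {P : ℕ} (hp : p a ≤ P) {v : ℕ}
    (h1 : P * S ≤ v) (h2 : v < L) :
    Full (fun x : (Fin n₀ × W) × Fin (L * h) => x.1.1) (roC s p) (innC s H.hpos p) a v := by
  rintro ⟨w, γ⟩
  have h3 : p a * s w ≤ v * h := by
    calc p a * s w ≤ P * (S * h) := Nat.mul_le_mul hp (H.sle w)
      _ = P * S * h := by ring
      _ ≤ v * h := Nat.mul_le_mul_right _ h1
  have h4 : v * h + h ≤ L * h := by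
    rw [← Nat.succ_mul]
    exact Nat.mul_le_mul_right _ h2
  have h5 := γ.isLt
  refine ⟨((a, w), ⟨v * h + γ - p a * s w, by omega⟩), rfl, ?_, ?_⟩
  · unfold roC pos
    simp only
    rw [show v * h + (γ : ℕ) - p a * s w + p a * s w = γ + v * h by omega,
      Nat.add_mul_div_right _ _ H.hpos, Nat.div_eq_of_lt h5, zero_add]
  · unfold innC pos
    simp only [Prod.mk.injEq, true_and]
    apply Fin.ext
    simp only
    rw [show v * h + (γ : ℕ) - p a * s w + p a * s w = γ + v * h by omega, Nat.add_mul_mod_self_right,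
      Nat.mod_eq_of_lt h5]

end Composite

end Pool.Agent.L0h27.PP
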