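import Pool.Agent.L0h27.PP.Lay

/-!
# The sweep: the block `b` descends through the block `a`, and the inner path is run in the rows of `a`
-/

set_option autoImplicit false
set_option linter.unusedSectionVars false

open Finset

namespace Pool.Agent.L0h27.PP

open Pool.Agent.L0h27.PL

variable {X V I : Type} [Fintype X] [DecidableEq X] [Fintype V] [DecidableEq V] [Fintype I] [DecidableEq I]

section

variable {bl : X → V} {ro : X → ℕ} {inn : X → I} {N : ℕ} {d d' : I → ℕ} {g : V → ℕ} {a b : V} {m : ℕ}
  {ρ : ℕ → I → ℕ} {C : X → ℕ} {τ : I → ℕ}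

/-- the class function of the elements is compatible with that of the inner elements -/
structure Com (bl : X → V) (inn : X → I) (C : X → ℕ) (τ : I → ℕ) : Prop where
  le : ∀ x y, C x ≤ C y → bl x = bl y → τ (inn x) ≤ τ (inn y)
  lt : ∀ x y, bl x = bl y → τ (inn x) < τ (inn y) → C x < C y

/-- the inner path lifts to a row -/
theorem run {k l : ℕ} {s s' ε : I → ℕ} (q : Path τ l s s' ε) (lay : Lay bl ro inn N) (com : Com bl inn C τ)
    (hd : Function.Injective d)
    (hg : Function.Injective g) (hρ : ∀ v, Function.Injective (ρ v)) (hadj : Adj g a b)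
    (hk : (univ.filter fun c => g c < g a).card + 1 = k)
    {v : ℕ} (hv : Full bl ro inn a v) (hm : m + below bl ro a v + l = N) :
    Path C (k * N) (st1 bl ro inn d g a b m (Function.update ρ v s))
      (st1 bl ro inn d g a b m (Function.update ρ v s'))
      (fun x => if bl x = a ∧ ro x = v then ε (inn x) else 0) := by
  have hgab := hadj.1
  have hupd : ∀ s : I → ℕ, Function.Injective s → ∀ u, Function.Injective (Function.update ρ v s u) := by
    intro s hs u
    by_cases hu : u = v
    · rw [hu, Function.update_self]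
      exact hs
    · rw [Function.update_of_ne hu]
      exact hρ u
  induction q with
  | nil hs =>
    have h0 : (fun x : X => if bl x = a ∧ ro x = v then (0 : I → ℕ) (inn x) else 0) = 0 := by
      funext x
      simp
    rw [h0]
    exact Path.nil _ (st1_inj lay hd hg (hupd s hs))
  | @move s1 ε1 s2 q hs2 hmono ih =>
    refine Path.move _ ih (st1_inj lay hd hg (hupd s2 hs2)) ?_
    intro x y hxy hlt
    by_cases hc : bl x = a ∧ bl y = a ∧ ro x = v ∧ ro y = v
    · obtain ⟨h1, h2, h3, h4⟩ := hc
      rw [cmp_row hgab h1 h2 h3 h4] at hlt ⊢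
      exact hmono _ _ (com.le x y hxy (h1.trans h2.symm)) hlt
    · exact (cmp_other lay hd hg hgab hc).1 hlt
  | @event s1 ε1 s2 A B q hs2 hτ hAB hBA hiff hrank ih =>
    obtain ⟨xA, hA1, hA2, hA3⟩ := hv A
    obtain ⟨xB, hB1, hB2, hB3⟩ := hv B
    have hc : (fun x : X => if bl x = a ∧ ro x = v then (ε1 + Pi.single A 1 : I → ℕ) (inn x) else 0) =
        (fun x : X => if bl x = a ∧ ro x = v then ε1 (inn x) else 0) +
          Pi.single xA 1 := by
      funext x
      simp only [Pi.add_apply]
      by_cases hx : x = xA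
      · subst hx
        rw [if_pos ⟨hA1, hA2⟩, if_pos ⟨hA1, hA2⟩, hA3, Pi.single_eq_same, Pi.single_eq_same]
      · rw [Pi.single_eq_of_ne hx]
        split_ifs with h
        · have : inn x ≠ A := by
            intro h2
            exact hx (lay.inj x xA (h.1.trans hA1.symm) (h.2.trans hA2.symm) (h2.trans hA3.symm))
          rw [Pi.single_eq_of_ne this]
        · rfl
    rw [hc]
    refine Path.event _ xA xB ih (st1_inj lay hd hg (hupd s2 hs2)) ?_ ?_ ?_ ?_ ?_
    · apply com.lt xB xA (hB1.trans hA1.symm)
      rw [hA3, hB3]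
      exact hτ
    · rw [cmp_row hgab hA1 hB1 hA2 hB2, hA3, hB3]
      exact hAB
    · rw [cmp_row hgab hB1 hA1 hB2 hA2, hA3, hB3]
      exact hBA
    · intro x y h1 h2
      by_cases hc : bl x = a ∧ bl y = a ∧ ro x = v ∧ ro y = v
      · obtain ⟨c1, c2, c3, c4⟩ := hc
        rw [cmp_row hgab c1 c2 c3 c4, cmp_row hgab c1 c2 c3 c4]
        apply hiff
        · rintro ⟨e1, e2⟩
          exact h1 ⟨lay.inj _ _ (c1.trans hA1.symm) (c3.trans hA2.symm) (e1.trans hA3.symm),
            lay.inj _ _ (c2.trans hB1.symm) (c4.trans hB2.symm) (e2.trans hB3.symm)⟩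
        · rintro ⟨e1, e2⟩
          exact h2 ⟨lay.inj _ _ (c1.trans hB1.symm) (c3.trans hB2.symm) (e1.trans hB3.symm),
            lay.inj _ _ (c2.trans hA1.symm) (c4.trans hA2.symm) (e2.trans hA3.symm)⟩
      · exact cmp_other lay hd hg hgab hc
    · rw [rank_count lay hd hg hadj (by omega) hv s1 hA1 hA2, ← hk, hA3]
      have h5 : (univ.filter fun α => s1 α < s1 A).card + 1 = l := hrank
      rw [add_mul, one_mul]
      omega

/-- the rows `L - t ≤ v < L` are in the final state -/
def rho (d d' : I → ℕ) (L t : ℕ) : ℕ → I → ℕ := fun v => if L ≤ v + t ∧ v < L then d' else d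

theorem rho_succ {L t : ℕ} (ht : t < L) :
    rho d d' L (t + 1) = Function.update (rho d d' L t) (L - t - 1) d' := by
  funext v
  by_cases hv : v = L - t - 1
  · subst hv
    rw [Function.update_self]
    unfold rho
    rw [if_pos (by omega)]
  · rw [Function.update_of_ne hv]
    unfold rho
    by_cases h1 : L ≤ v + t ∧ v < L
    · rw [if_pos h1, if_pos (by omega)]
    · rw [if_neg h1, if_neg (by omega)]

theorem rho_self {L t : ℕ} (ht : t < L) :
    rho d d' L t = Function.update (rho d d' L t) (L - t - 1) d := by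
  funext v
  by_cases hv : v = L - t - 1
  · subst hv
    rw [Function.update_self]
    unfold rho
    rw [if_neg (by omega)]
  · rw [Function.update_of_ne hv]

/-- the runs in the rows `L - t ≤ v < L` -/
theorem loop {k r₀ L l : ℕ} {ε : I → ℕ} (q : Path τ l d d' ε) (lay : Lay bl ro inn N) (com : Com bl inn C τ)
    (hg : Function.Injective g) (hC : ∀ x y, bl x = a → bl y = b → ¬ C x ≤ C y) (hadj : Adj g a b)
    (hk : (univ.filter fun c => g c < g a).card + 1 = k)
    (hfull : ∀ v, r₀ ≤ v → v < L → Full bl ro inn a v) (hl : l ≤ Fintype.card I) :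
    ∀ t : ℕ, t + r₀ ≤ L → ∃ m : ℕ, m + below bl ro a (L - t) ≤ N ∧
      Path C (k * N) (st1 bl ro inn d g a b 0 (rho d d' L 0))
        (st1 bl ro inn d g a b m (rho d d' L t))
        (fun x => if bl x = a ∧ L ≤ ro x + t ∧ ro x < L then ε (inn x) else 0) := by
  have hd := q.inj_left
  have hd' := q.inj_right
  have hrho : ∀ t v, Function.Injective (rho d d' L t v) := by
    intro t v
    unfold rho
    split_ifs
    · exact hd'
    · exact hd
  intro t
  induction t with
  | zero =>
    intro _
    refine ⟨0, ?_, ?_⟩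
    · rw [zero_add]
      exact below_le lay _
    · have h0 : (fun x : X => if bl x = a ∧ L ≤ ro x + 0 ∧ ro x < L then ε (inn x) else 0) = 0 := by
        funext x
        rw [if_neg]
        · rfl
        · rintro ⟨-, h1, h2⟩
          omega
      rw [h0]
      exact Path.nil _ (st1_inj lay hd hg (hrho 0))
  | succ t ih =>
    intro ht
    obtain ⟨m, hm, path⟩ := ih (by omega)
    have htL : t < L := by omega
    have hful : Full bl ro inn a (L - t - 1) := hfull _ (by omega) (by omega)
    have hb : below bl ro a (L - t) = below bl ro a (L - t - 1) + Fintype.card I := by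
      have := below_succ lay hful
      rwa [show L - t - 1 + 1 = L - t by omega] at this
    have hble : below bl ro a (L - t) ≤ N := below_le lay _
    obtain ⟨m', hm'⟩ : ∃ m', m' + below bl ro a (L - t - 1) + l = N :=
      ⟨N - below bl ro a (L - t - 1) - l, by omega⟩
    have hmm : m ≤ m' := by omega
    refine ⟨m', ?_, ?_⟩
    · rw [show L - (t + 1) = L - t - 1 by omega]
      omega
    have path2 : Path C (k * N) (st1 bl ro inn d g a b 0 (rho d d' L 0))
        (st1 bl ro inn d g a b m' (rho d d' L t))
        (fun x => if bl x = a ∧ L ≤ ro x + t ∧ ro x < L then ε (inn x) else 0) := by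
      refine Path.move _ path (st1_inj lay hd hg (hrho t)) fun x y hxy hlt =>
        descend lay hd hg hadj hmm ?_ hlt
      rintro ⟨hx, hy⟩
      exact hC x y hx hy hxy
    have path3 := run q lay com hd hg (hrho t) hadj hk hful hm'
    rw [← rho_self htL, ← rho_succ htL] at path3
    have path4 := path2.trans path3
    refine cast ?_ path4
    congr 1
    funext x
    simp only [Pi.add_apply]
    by_cases hx : bl x = a
    · simp only [hx, true_and]
      by_cases h1 : ro x = L - t - 1
      · rw [if_neg (by omega), if_pos h1, if_pos (by omega), zero_add]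
      · rw [if_neg h1, add_zero]
        by_cases h2 : L ≤ ro x + t ∧ ro x < L
        · rw [if_pos h2, if_pos (by omega)]
        · rw [if_neg h2, if_neg (by omega)]
    · simp [hx]

/-- the whole sweep -/
theorem sweep {k r₀ L l : ℕ} {ε : I → ℕ} (q : Path τ l d d' ε) (lay : Lay bl ro inn N) (com : Com bl inn C τ)
    (hg : Function.Injective g) (hC : ∀ x y, bl x = a → bl y = b → ¬ C x ≤ C y) (hadj : Adj g a b)
    (hk : (univ.filter fun c => g c < g a).card + 1 = k) (hr : r₀ ≤ L)
    (hfull : ∀ v, r₀ ≤ v → v < L → Full bl ro inn a v) (hl : l ≤ Fintype.card I) :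
    ∃ m : ℕ, Path C (k * N) (st0 bl ro inn d g)
        (st1 bl ro inn d g a b m (rho d d' L (L - r₀)))
        (fun x => if bl x = a ∧ r₀ ≤ ro x ∧ ro x < L then ε (inn x) else 0) := by
  have hd := q.inj_left
  have hd' := q.inj_right
  obtain ⟨m, -, path⟩ := loop q lay com hg hC hadj hk hfull hl (L - r₀) (by omega)
  have hrho : ∀ t v, Function.Injective (rho d d' L t v) := by
    intro t v
    unfold rho
    split_ifs
    · exact hd'
    · exact hd
  have start : Path C (k * N) (st0 bl ro inn d g) (st1 bl ro inn d g a b 0 (rho d d' L 0)) 0 := by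
    refine Path.move _ (Path.nil _ (st0_inj lay hd hg)) (st1_inj lay hd hg (hrho 0)) fun x y _ hlt => ?_
    rw [st0_lt] at hlt
    have hout : ∀ z : X, outer bl ro inn d g a b 0 z = 2 * g (bl z) + 1 := by
      intro z
      unfold outer
      rw [if_neg fun hh => absurd hh.2 (Nat.not_lt_zero _)]
    rw [st1_lt, hout, hout]
    rcases hlt with h1 | ⟨h1, h2⟩
    · left
      omega
    · right
      refine ⟨by omega, ?_⟩
      have hin : ∀ z : X, (if bl z = a then rho d d' L 0 (ro z) (inn z) else d (inn z)) = d (inn z) := by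
        intro z
        split_ifs
        · unfold rho
          rw [if_neg (by omega)]
        · rfl
      rw [hin, hin]
      exact h2
  refine ⟨m, ?_⟩
  refine cast ?_ (start.trans path)
  congr 1
  funext x
  simp only [Pi.add_apply, Pi.zero_apply, zero_add]
  have : (L ≤ ro x + (L - r₀)) ↔ r₀ ≤ ro x := by omega
  simp only [this]

end

end Pool.Agent.L0h27.PP
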